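import Pool.Agent.N816.LR.Star

set_option autoImplicit false
set_option linter.unusedSectionVars false

/-!
# Embedding of a group acting on a nested family with trivial vertex stabilisers in the kernel
-/

namespace Pool.Agent.N816.LR

open FreeGroup (of)

theorem toWord_letter_mul {L : Type} [DecidableEq L] (l : L × Bool) (x : FreeGroup L)
    (h : ∀ hd tl, x.toWord = hd :: tl → ¬ (l.1 = hd.1 ∧ l.2 = !hd.2)) :
    (FreeGroup.mk [l] * x).toWord = l :: x.toWord := by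
  have e : FreeGroup.mk [l] * x = FreeGroup.mk (l :: x.toWord) := by
    conv_lhs => rw [← FreeGroup.mk_toWord (x := x)]
    rw [FreeGroup.mul_mk]
    rfl
  rw [e, FreeGroup.toWord_mk, FreeGroup.reduce.cons, FreeGroup.reduce_toWord]
  cases hx : x.toWord with
  | nil => rfl
  | cons hd tl => simp [h hd tl hx]

section

variable {V : Type} {E : Set (Set V)}

theorem exists_pred (hE : NF E) {o : V} {X : Set V} (hX : X ∈ E) (ho : o ∈ X)
    (hm : ¬ Mi E o X) : ∃ W ∈ E, o ∈ W ∧ W ⊂ X ∧ ∀ F ∈ E, W ⊂ F → ¬ F ⊂ X := by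
  have hne : {F | F ∈ E ∧ o ∈ F ∧ F ⊂ X}.Nonempty := by
    by_contra hc
    apply hm
    refine ⟨hX, ho, fun Y hY h1 h2 => ?_⟩
    by_contra hne
    exact hc ⟨Y, hY, h1, Set.ssubset_iff_subset_ne.mpr ⟨h2, hne⟩⟩
  obtain ⟨y, hy⟩ := hE.ne _ (hE.compl X hX)
  have hfin : {F | F ∈ E ∧ o ∈ F ∧ F ⊂ X}.Finite :=
    (hE.fin o y).subset fun Y hY => ⟨hY.1, hY.2.1, fun h => hy (hY.2.2.1 h)⟩
  obtain ⟨W, hW⟩ := hfin.exists_maximal hne
  refine ⟨W, hW.prop.1, hW.prop.2.1, hW.prop.2.2, fun F hF h1 h2 => ?_⟩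
  have h3 : F ∈ {F | F ∈ E ∧ o ∈ F ∧ F ⊂ X} := ⟨hF, h1.1 hW.prop.2.1, h2⟩
  exact h1.2 (hW.le_of_ge h3 h1.1)

theorem words (hE : NF E) (o : V) {L : Type} [DecidableEq L] (β : Set V → L)
    (hβ1 : ∀ X ∈ E, β Xᶜ ≠ β X)
    (hβ2 : ∀ X ∈ E, ∀ Y ∈ E, o ∈ X → o ∉ Y → Rl E X Y → β X ≠ β Y)
    (ψ : Set V → FreeGroup L) (h0 : ∀ X, Mi E o X → ψ X = 1)
    (h1 : ∀ X ∈ E, ψ Xᶜ = (of (β Xᶜ))⁻¹ * of (β X) * ψ X)
    (h2 : ∀ X ∈ E, ∀ Y ∈ E, Rl E X Y → ψ X = ψ Y) :
    ∀ X ∈ E, o ∈ X → (ψ Xᶜ).toWord = (β Xᶜ, false) :: (β X, true) :: (ψ X).toWord := by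
  have main : ∀ n : ℕ, ∀ X ∈ E, o ∈ X → {F | F ∈ E ∧ o ∈ F ∧ F ⊂ X}.ncard = n →
      (ψ Xᶜ).toWord = (β Xᶜ, false) :: (β X, true) :: (ψ X).toWord := by
    intro n
    induction n using Nat.strong_induction_on with
    | _ n ih =>
    intro X hX ho hn
    have key : (∀ hd tl, (ψ X).toWord = hd :: tl → ¬ (β X = hd.1 ∧ true = !hd.2)) := by
      by_cases hm : Mi E o X
      · rw [h0 X hm]
        intro hd tl h
        simp at h
      · obtain ⟨W, hW, hoW, hWX, hcov⟩ := exists_pred hE hX ho hm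
        have hr : Rl E Wᶜ X := Or.inr ⟨by rwa [compl_compl], by rwa [compl_compl]⟩
        have hr' : Rl E X Wᶜ := hr.symm' hE
        have hlt : {F | F ∈ E ∧ o ∈ F ∧ F ⊂ W}.ncard < n := by
          rw [← hn]
          obtain ⟨y, hy⟩ := hE.ne _ (hE.compl X hX)
          have hfin : {F | F ∈ E ∧ o ∈ F ∧ F ⊂ X}.Finite :=
            (hE.fin o y).subset fun Y hY => ⟨hY.1, hY.2.1, fun h => hy (hY.2.2.1 h)⟩
          refine Set.ncard_lt_ncard ⟨fun F hF => ⟨hF.1, hF.2.1, hF.2.2.trans hWX⟩, fun hc => ?_⟩ hfin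
          exact (hc ⟨hW, hoW, hWX⟩).2.2.2 subset_rfl
        have h3 := ih _ hlt W hW hoW rfl
        rw [h2 X hX _ (hE.compl W hW) hr', h3]
        intro hd tl h
        rw [List.cons.injEq] at h
        rw [← h.1]
        rintro ⟨h4, -⟩
        exact hβ2 X hX _ (hE.compl W hW) ho (fun h => h hoW) hr' h4
    have e1 : (of (β X) * ψ X).toWord = (β X, true) :: (ψ X).toWord :=
      toWord_letter_mul (β X, true) (ψ X) key
    have e2 : (of (β Xᶜ))⁻¹ * of (β X) * ψ X = FreeGroup.mk [(β Xᶜ, false)] * (of (β X) * ψ X) := by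
      rw [mul_assoc]
      rfl
    rw [h1 X hX, e2, toWord_letter_mul, e1]
    intro hd tl h
    rw [e1, List.cons.injEq] at h
    rw [← h.1]
    rintro ⟨h4, -⟩
    exact hβ1 X hX h4
  exact fun X hX ho => main _ X hX ho rfl

theorem psi_ne_one (hE : NF E) (o : V) {L : Type} [DecidableEq L] (β : Set V → L)
    (hβ1 : ∀ X ∈ E, β Xᶜ ≠ β X)
    (hβ2 : ∀ X ∈ E, ∀ Y ∈ E, o ∈ X → o ∉ Y → Rl E X Y → β X ≠ β Y)
    (ψ : Set V → FreeGroup L) (h0 : ∀ X, Mi E o X → ψ X = 1)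
    (h1 : ∀ X ∈ E, ψ Xᶜ = (of (β Xᶜ))⁻¹ * of (β X) * ψ X)
    (h2 : ∀ X ∈ E, ∀ Y ∈ E, Rl E X Y → ψ X = ψ Y) {X : Set V} (hX : X ∈ E) (hm : ¬ Mi E o X) :
    ψ X ≠ 1 := by
  have hw := words hE o β hβ1 hβ2 ψ h0 h1 h2
  intro hc
  by_cases ho : o ∈ X
  · obtain ⟨W, hW, hoW, hWX, hcov⟩ := exists_pred hE hX ho hm
    have hr : Rl E Wᶜ X := Or.inr ⟨by rwa [compl_compl], by rwa [compl_compl]⟩
    have h3 := hw W hW hoW
    rw [h2 _ (hE.compl W hW) X hX hr, hc] at h3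
    simp at h3
  · have h3 := hw Xᶜ (hE.compl X hX) ho
    rw [compl_compl, hc] at h3
    simp at h3

end

theorem abs_embed {A Q : Type} [Group A] [Group Q] (π : A →* Q) (σ : Q →* A)
    (hσ : ∀ q, π (σ q) = q) {E : Set (Set A)} (hE : NF E) (ht : ∀ X ∈ E, ∀ a, tr a X ∈ E)
    (hne : E.Nonempty) (htf : ∀ m : A, π m = 1 → m * m = 1 → m = 1)
    (hstar : ∀ m : A, π m = 1 → m ≠ 1 → ∀ X ∈ E, ¬ Rl E X (tr m X)) :
    ∃ (L : Type) (_ : MulAction Q L) (f : A →* FreeGroup L ⋊[pa Q L] Q),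
      Function.Injective f ∧ ∀ a, (f a).right = π a := by
  classical
  let s : Setoid (Set A) :=
    { r := fun X Y => ∃ m : A, π m = 1 ∧ Y = tr m X
      iseqv :=
        { refl := fun X => ⟨1, map_one π, by rw [tr_one]⟩
          symm := by
            rintro X Y ⟨m, hm, rfl⟩
            exact ⟨m⁻¹, by rw [map_inv, hm, inv_one], by rw [tr_tr, inv_mul_cancel, tr_one]⟩
          trans := by
            rintro X Y W ⟨m, hm, rfl⟩ ⟨n, hn, rfl⟩
            exact ⟨n * m, by rw [map_mul, hm, hn, mul_one], by rw [tr_tr]⟩ } }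
  let act : Q → Quotient s → Quotient s := fun q => Quotient.map (fun X => tr (σ q) X) (by
    rintro X Y ⟨m, hm, rfl⟩
    refine ⟨σ q * m * (σ q)⁻¹, ?_, ?_⟩
    · rw [map_mul, map_mul, hm, mul_one, map_inv, mul_inv_cancel]
    · change tr (σ q) (tr m X) = tr (σ q * m * (σ q)⁻¹) (tr (σ q) X)
      rw [tr_tr, tr_tr, inv_mul_cancel_right])
  let inst : MulAction Q (Quotient s) :=
    { smul := act
      one_smul := by
        intro x
        induction x using Quotient.inductionOn with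
        | _ X =>
          change Quotient.mk s (tr (σ 1) X) = Quotient.mk s X
          rw [map_one, tr_one]
      mul_smul := by
        intro p q x
        induction x using Quotient.inductionOn with
        | _ X =>
          change Quotient.mk s (tr (σ (p * q)) X) = Quotient.mk s (tr (σ p) (tr (σ q) X))
          rw [map_mul, tr_tr] }
  let β : Set A → Quotient s := fun X => Quotient.mk s X
  have hβg : ∀ (g : A) (X : Set A), β (tr g X) = π g • β X := by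
    intro g X
    change Quotient.mk s (tr g X) = Quotient.mk s (tr (σ (π g)) X)
    refine Quotient.sound ⟨σ (π g) * g⁻¹, ?_, ?_⟩
    · rw [map_mul, hσ, map_inv, mul_inv_cancel]
    · rw [tr_tr, inv_mul_cancel_right]
  have hβeq : ∀ X Y : Set A, β X = β Y → ∃ m : A, π m = 1 ∧ Y = tr m X := fun X Y h =>
    Quotient.exact h
  have hfix : ∀ X ∈ E, ∀ m : A, π m = 1 → tr m X = X → m = 1 := by
    intro X hX m hm h
    by_contra hne
    exact hstar m hm hne X hX (Or.inl h.symm)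
  have hβ1 : ∀ X ∈ E, β Xᶜ ≠ β X := by
    intro X hX h
    obtain ⟨m, hm, h1⟩ := hβeq _ _ h
    have h2 : tr (m * m) X = X := by
      have h3 : tr m X = Xᶜ := by
        have h4 := congrArg compl h1
        rw [← tr_compl, compl_compl] at h4
        exact h4.symm
      rw [← tr_tr, h3]
      exact h1.symm
    have h3 := hfix X hX _ (by rw [map_mul, hm, mul_one]) h2
    have h4 := htf m hm h3
    rw [h4, tr_one] at h1
    obtain ⟨x, hx⟩ := hE.ne X hX
    have h5 := hx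
    rw [h1] at h5
    exact h5 hx
  have hβ2 : ∀ X ∈ E, ∀ Y ∈ E, (1 : A) ∈ X → (1 : A) ∉ Y → Rl E X Y → β X ≠ β Y := by
    intro X hX Y hY h1 h2 hr h
    obtain ⟨m, hm, rfl⟩ := hβeq _ _ h
    by_cases hm1 : m = 1
    · rw [hm1, tr_one] at h2
      exact h2 h1
    · exact hstar m hm hm1 X hX hr
  obtain ⟨ψ, p1, p2, p3⟩ := potential hE (1 : A)
    (fun X => (of (β Xᶜ))⁻¹ * of (β X)) (fun _ _ => (1 : FreeGroup (Quotient s))) (by
      intro X hX
      change (of (β Xᶜᶜ))⁻¹ * of (β Xᶜ) = ((of (β Xᶜ))⁻¹ * of (β X))⁻¹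
      rw [compl_compl]
      group) (fun _ _ _ _ _ _ _ _ _ => mul_one 1) (fun _ => 1) (fun _ _ _ _ => (mul_one 1).symm)
  have p3' : ∀ X ∈ E, ∀ Y ∈ E, Rl E X Y → ψ X = ψ Y := by
    intro X hX Y hY hr
    rw [p3 X hX Y hY hr, one_mul]
  have hnt := fun {X : Set A} => psi_ne_one hE (1 : A) β hβ1 hβ2 ψ p1 p2 p3' (X := X)
  let w : A →* FreeGroup (Quotient s) ⋊[pa Q (Quotient s)] Q := SemidirectProduct.inr.comp π
  obtain ⟨f, hf⟩ := exists_hom hE ht hne w
    (fun X => SemidirectProduct.inl ((of (β Xᶜ))⁻¹ * of (β X))) (fun _ _ => 1) (by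
      intro X hX g
      change SemidirectProduct.inl ((of (β (tr g X)ᶜ))⁻¹ * of (β (tr g X))) =
        SemidirectProduct.inr (π g) * SemidirectProduct.inl ((of (β Xᶜ))⁻¹ * of (β X)) *
          (SemidirectProduct.inr (π g))⁻¹
      have e : pa Q (Quotient s) (π g) ((of (β Xᶜ))⁻¹ * of (β X)) =
          (of (π g • β Xᶜ))⁻¹ * of (π g • β X) := by
        rw [map_mul, map_inv, pa_of, pa_of]
      rw [← tr_compl, hβg, hβg, ← e, SemidirectProduct.inl_aut, map_inv]) (by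
      intro X hX Y hY hr g
      simp) (fun X => SemidirectProduct.inl (ψ X)) (by
      intro X hX
      change SemidirectProduct.inl (ψ Xᶜ) = _
      rw [p2 X hX, map_mul]) (by
      intro X hX Y hY hr
      change SemidirectProduct.inl (ψ X) = 1 * SemidirectProduct.inl (ψ Y)
      rw [p3' X hX Y hY hr, one_mul])
  have hright : ∀ a, (f a).right = π a := by
    intro a
    obtain ⟨X, hX⟩ := hne
    rw [hf a X hX]
    simp [w]
  refine ⟨Quotient s, inst, f, ?_, hright⟩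
  rw [injective_iff_map_eq_one]
  intro a ha
  have hπ : π a = 1 := by
    rw [← hright a, ha]
    rfl
  by_contra hane
  obtain ⟨X₀, hX₀⟩ := exists_mi hE hne (1 : A)
  have h1 := hf a X₀ hX₀.1
  rw [ha] at h1
  have h2 : w a = 1 := by
    change SemidirectProduct.inr (π a) = 1
    rw [hπ, map_one]
  rw [h2, mul_one, p1 X₀ hX₀, map_one, mul_one, eq_comm, inv_eq_one] at h1
  have h3 : ψ (tr a X₀) = 1 := by
    have h4 := congrArg SemidirectProduct.left h1
    simpa using h4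
  by_cases hm : Mi E 1 (tr a X₀)
  · exact hstar a hπ hane X₀ hX₀.1 (hX₀.rl hE hm)
  · exact hnt (ht X₀ hX₀.1 a) hm h3

end Pool.Agent.N816.LR
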