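import Pool.Agent.N816.LR.Step

set_option autoImplicit false
set_option linter.unusedSectionVars false

/-!
# Transfinite extension of homomorphisms
-/

namespace Pool.Agent.N816.LR

variable {B Q : Type} [Group Q]

attribute [local instance] Classical.propDecidable

theorem mem_D {S : Set B} {x : FreeGroup B} : x ∈ D S ↔ ∀ l ∈ x.toWord, l.1 ∈ S :=
  P583.mem_D

/-- The letters of all twists of an element. -/
def Lt (φ : Q →* MulAut (FreeGroup B)) (x : FreeGroup B) : Set B :=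
  {b | ∃ q : Q, ∃ l ∈ (φ q x).toWord, l.1 = b}

theorem Lt_finite [Finite Q] (φ : Q →* MulAut (FreeGroup B)) (x : FreeGroup B) :
    (Lt φ x).Finite := by
  have : Lt φ x = ⋃ q : Q, Prod.fst '' {l | l ∈ (φ q x).toWord} := by
    ext b
    simp only [Lt, Set.mem_ofPred_eq, Set.mem_iUnion, Set.mem_image]
  rw [this]
  exact Set.finite_iUnion fun q => ((List.finite_toSet _).image _)

theorem II_iff_Lt {φ : Q →* MulAut (FreeGroup B)} {S : Set B} {x : FreeGroup B} :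
    x ∈ II φ S ↔ Lt φ x ⊆ S := by
  rw [mem_II]
  constructor
  · rintro h b ⟨q, l, hl, rfl⟩
    exact mem_D.mp (h q) l hl
  · intro h q
    rw [mem_D]
    intro l hl
    exact h ⟨q, l, hl, rfl⟩

/-- Invariance of `D S`. -/
def Cl (φ : Q →* MulAut (FreeGroup B)) (S : Set B) : Prop := ∀ q : Q, ∀ x ∈ D S, φ q x ∈ D S

theorem Cl_iff {φ : Q →* MulAut (FreeGroup B)} {S : Set B} :
    Cl φ S ↔ ∀ b ∈ S, Lt φ (FreeGroup.of b) ⊆ S := by
  constructor
  · intro h b hb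
    rw [← II_iff_Lt]
    exact fun q => h q _ (Subgroup.subset_closure ⟨b, hb, rfl⟩)
  · intro h q x hx
    unfold D at hx
    induction hx using Subgroup.closure_induction with
    | mem x hx =>
      obtain ⟨b, hb, rfl⟩ := hx
      exact (II_iff_Lt.mpr (h b hb)) q
    | one => rw [map_one]; exact one_mem _
    | mul x y _ _ hx hy => rw [map_mul]; exact mul_mem hx hy
    | inv x _ hx => rw [map_inv]; exact inv_mem hx

theorem Cl_iUnion {φ : Q →* MulAut (FreeGroup B)} {ι : Type*} {S : ι → Set B}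
    (h : ∀ i, Cl φ (S i)) : Cl φ (⋃ i, S i) := by
  rw [Cl_iff]
  intro b hb
  obtain ⟨i, hi⟩ := Set.mem_iUnion.mp hb
  exact (Cl_iff.mp (h i) b hi).trans (Set.subset_iUnion S i)

/-- Closure of a countable set. -/
theorem exists_cl [Finite Q] (φ : Q →* MulAut (FreeGroup B)) {S₀ : Set B} (h₀ : Cl φ S₀)
    {C : Set B} (hC : C.Countable) : ∃ C' : Set B, C ⊆ C' ∧ C'.Countable ∧ Cl φ (S₀ ∪ C') := by
  let nx : Set B → Set B := fun C => C ∪ ⋃ b ∈ C, Lt φ (FreeGroup.of b)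
  have hnx : ∀ C : Set B, C.Countable → (nx C).Countable := fun C hC =>
    hC.union (hC.biUnion fun b _ => (Lt_finite φ _).countable)
  let s : ℕ → Set B := fun n => nx^[n] C
  have hs0 : s 0 = C := rfl
  have hs1 : ∀ n, s (n + 1) = nx (s n) := fun n => Function.iterate_succ_apply' nx n C
  have hsc : ∀ n, (s n).Countable := by
    intro n
    induction n with
    | zero => exact hC
    | succ n ih => rw [hs1]; exact hnx _ ih
  refine ⟨⋃ n, s n, ?_, Set.countable_iUnion hsc, ?_⟩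
  · exact Set.subset_iUnion s 0
  · rw [Cl_iff]
    rintro b (hb | hb)
    · exact (Cl_iff.mp h₀ b hb).trans Set.subset_union_left
    · obtain ⟨n, hn⟩ := Set.mem_iUnion.mp hb
      refine Set.Subset.trans ?_ Set.subset_union_right
      refine Set.Subset.trans ?_ (Set.subset_iUnion s (n + 1))
      rw [hs1]
      intro c hc
      exact Or.inr (Set.mem_iUnion₂.mpr ⟨b, hn, hc⟩)

/-- A function which is a homomorphism over `Q` on `Gs φ S`. -/
structure PH (φ : Q →* MulAut (FreeGroup B)) {L : Type} [MulAction Q L] (S : Set B)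
    (h : FreeGroup B ⋊[φ] Q → FreeGroup L ⋊[pa Q L] Q) : Prop where
  mul : ∀ a ∈ Gs φ S, ∀ b ∈ Gs φ S, h (a * b) = h a * h b
  right : ∀ a ∈ Gs φ S, (h a).right = a.right

theorem ph_step [Finite Q] (φ : Q →* MulAut (FreeGroup B)) {L : Type} [MulAction Q L]
    {S₀ S₁ S₂ : Set B} (h01 : S₀ ⊆ S₁) (h12 : S₁ ⊆ S₂) (hfin : (S₂ \ S₀).Finite)
    (hc : Cl φ S₀) {h : FreeGroup B ⋊[φ] Q → FreeGroup L ⋊[pa Q L] Q} (hh : PH φ S₁ h) :
    ∃ h' : FreeGroup B ⋊[φ] Q → FreeGroup L ⋊[pa Q L] Q, PH φ S₂ h' ∧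
      ∀ a ∈ Gs φ S₁, h' a = h a := by
  classical
  let f : Gs φ S₁ →* FreeGroup L ⋊[pa Q L] Q :=
    MonoidHom.mk' (fun a => h a) (fun a b => hh.mul a a.2 b b.2)
  obtain ⟨f₂, h1, h2⟩ := ext_step φ h01 h12 hfin hc f (fun g => hh.right g g.2)
  refine ⟨fun a => if ha : a ∈ Gs φ S₂ then f₂ ⟨a, ha⟩ else 1, ⟨?_, ?_⟩, ?_⟩
  · intro a ha b hb
    simp only [dif_pos ha, dif_pos hb, dif_pos (mul_mem ha hb)]
    rw [← map_mul]
    rfl
  · intro a ha
    simp only [dif_pos ha]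
    exact h2 ⟨a, ha⟩
  · intro a ha
    simp only [dif_pos (Gs_mono φ h12 ha)]
    exact h1 a ha _

theorem ph_union [Finite Q] (φ : Q →* MulAut (FreeGroup B)) {L : Type} [MulAction Q L]
    {ι : Type*} [Nonempty ι] (S : ι → Set B) (h : ι → FreeGroup B ⋊[φ] Q → FreeGroup L ⋊[pa Q L] Q)
    (hh : ∀ i, PH φ (S i) (h i))
    (hd : ∀ i j, ∃ k, (S i ⊆ S k ∧ ∀ a ∈ Gs φ (S i), h k a = h i a) ∧
      (S j ⊆ S k ∧ ∀ a ∈ Gs φ (S j), h k a = h j a)) :
    ∃ h' : FreeGroup B ⋊[φ] Q → FreeGroup L ⋊[pa Q L] Q, PH φ (⋃ i, S i) h' ∧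
      ∀ i, ∀ a ∈ Gs φ (S i), h' a = h i a := by
  classical
  have key : ∀ a ∈ Gs φ (⋃ i, S i), ∃ i, a ∈ Gs φ (S i) := by
    intro a ha
    rw [mem_Gs, II_iff_Lt] at ha
    have hdir : Directed (· ⊆ ·) S := fun i j => by
      obtain ⟨k, ⟨h1, -⟩, h2, -⟩ := hd i j
      exact ⟨k, h1, h2⟩
    obtain ⟨i, hi⟩ := hdir.exists_mem_subset_of_finset_subset_biUnion
      (s := (Lt_finite φ a.left).toFinset) (by rw [Set.Finite.coe_toFinset]; exact ha)
    rw [Set.Finite.coe_toFinset] at hi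
    exact ⟨i, by rw [mem_Gs, II_iff_Lt]; exact hi⟩
  have agree : ∀ i j a, a ∈ Gs φ (S i) → a ∈ Gs φ (S j) → h i a = h j a := by
    intro i j a hi hj
    obtain ⟨k, ⟨-, h1⟩, -, h2⟩ := hd i j
    rw [← h1 a hi, h2 a hj]
  have hval : ∀ i, ∀ a ∈ Gs φ (S i),
      (if ha : ∃ i, a ∈ Gs φ (S i) then h ha.choose a else 1) = h i a := by
    intro i a ha
    have hex : ∃ i, a ∈ Gs φ (S i) := ⟨i, ha⟩
    rw [dif_pos hex]
    exact agree _ _ _ hex.choose_spec ha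
  refine ⟨fun a => if ha : ∃ i, a ∈ Gs φ (S i) then h ha.choose a else 1, ⟨?_, ?_⟩, hval⟩
  · intro a ha b hb
    obtain ⟨i, hi⟩ := key a ha
    obtain ⟨j, hj⟩ := key b hb
    obtain ⟨k, ⟨h1, -⟩, h2, -⟩ := hd i j
    have hi' := Gs_mono φ h1 hi
    have hj' := Gs_mono φ h2 hj
    change (if _ : _ then _ else _) = (if _ : _ then _ else _) * (if _ : _ then _ else _)
    rw [hval k _ hi', hval k _ hj', hval k _ (mul_mem hi' hj')]
    exact (hh k).mul a hi' b hj'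
  · intro a ha
    obtain ⟨i, hi⟩ := key a ha
    change ((if _ : _ then _ else _) : FreeGroup L ⋊[pa Q L] Q).right = _
    rw [hval i _ hi]
    exact (hh i).right a hi

/-- Countable extension. -/
theorem ph_countable [Finite Q] (φ : Q →* MulAut (FreeGroup B)) {L : Type} [MulAction Q L]
    {S₀ S₁ : Set B} (h01 : S₀ ⊆ S₁) (hfin : (S₁ \ S₀).Finite) (hc : Cl φ S₀) {C : Set B}
    (hC : C.Countable) {h : FreeGroup B ⋊[φ] Q → FreeGroup L ⋊[pa Q L] Q} (hh : PH φ S₁ h) :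
    ∃ h' : FreeGroup B ⋊[φ] Q → FreeGroup L ⋊[pa Q L] Q, PH φ (S₁ ∪ C) h' ∧
      ∀ a ∈ Gs φ S₁, h' a = h a := by
  rcases C.eq_empty_or_nonempty with rfl | hne
  · exact ⟨h, by rwa [Set.union_empty], fun _ _ => rfl⟩
  obtain ⟨c, rfl⟩ := hC.exists_eq_range hne
  let s : ℕ → Set B := fun j => S₁ ∪ c '' {i | i < j}
  have hs0 : s 0 = S₁ := by simp [s]
  have hsm : Monotone s := by
    intro i j hij
    exact Set.union_subset_union_right _ (Set.image_mono fun k hk => lt_of_lt_of_le hk hij)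
  have hsf : ∀ j, (s j \ S₀).Finite := by
    intro j
    rw [Set.union_sdiff_distrib]
    exact hfin.union (((Set.finite_lt_nat j).image c).subset Set.sdiff_subset)
  have hs0' : ∀ j, S₀ ⊆ s j := fun j => h01.trans Set.subset_union_left
  have key : ∀ (j : ℕ) (h : FreeGroup B ⋊[φ] Q → FreeGroup L ⋊[pa Q L] Q),
      ∃ h' : FreeGroup B ⋊[φ] Q → FreeGroup L ⋊[pa Q L] Q, PH φ (s j) h → (PH φ (s (j + 1)) h' ∧
        ∀ a ∈ Gs φ (s j), h' a = h a) := by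
    intro j h
    by_cases hh : PH φ (s j) h
    · obtain ⟨h', h1, h2⟩ := ph_step φ (hs0' j) (hsm (Nat.le_succ j)) (hsf (j + 1)) hc hh
      exact ⟨h', fun _ => ⟨h1, h2⟩⟩
    · exact ⟨h, fun h3 => absurd h3 hh⟩
  choose nx hnx using key
  let t : ℕ → FreeGroup B ⋊[φ] Q → FreeGroup L ⋊[pa Q L] Q := fun j => Nat.rec h (fun j h => nx j h) j
  have ht0 : t 0 = h := rfl
  have ht1 : ∀ j, t (j + 1) = nx j (t j) := fun j => rfl
  have hph : ∀ j, PH φ (s j) (t j) := by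
    intro j
    induction j with
    | zero => rw [hs0, ht0]; exact hh
    | succ j ih => rw [ht1]; exact (hnx j _ ih).1
  have hag : ∀ i j, i ≤ j → ∀ a ∈ Gs φ (s i), t j a = t i a := by
    intro i j hij
    induction j, hij using Nat.le_induction with
    | base => exact fun _ _ => rfl
    | succ j hij ih =>
      intro a ha
      rw [ht1, (hnx j _ (hph j)).2 a (Gs_mono φ (hsm hij) ha), ih a ha]
  obtain ⟨h', h1, h2⟩ := ph_union φ s t hph (fun i j => ⟨max i j,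
    ⟨hsm (le_max_left _ _), hag _ _ (le_max_left _ _)⟩,
    ⟨hsm (le_max_right _ _), hag _ _ (le_max_right _ _)⟩⟩)
  refine ⟨h', ?_, fun a ha => ?_⟩
  · have e : (⋃ i, s i) = S₁ ∪ Set.range c := by
      ext b
      simp only [s, Set.mem_iUnion, Set.mem_union, Set.mem_image, Set.mem_range, Set.mem_ofPred_eq]
      constructor
      · rintro ⟨i, hb | ⟨j, -, rfl⟩⟩
        · exact Or.inl hb
        · exact Or.inr ⟨j, rfl⟩
      · rintro (hb | ⟨j, rfl⟩)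
        · exact ⟨0, Or.inl hb⟩
        · exact ⟨j + 1, Or.inr ⟨j, Nat.lt_succ_self j, rfl⟩⟩
    rwa [e] at h1
  · have h3 := h2 0 a (by rw [hs0]; exact ha)
    rw [h3, ht0]

/-- The main extension theorem. -/
theorem big [Finite Q] (φ : Q →* MulAut (FreeGroup B)) {S : Set B} (hS : S.Finite) :
    ∃ (L : Type) (_ : MulAction Q L) (f : FreeGroup B ⋊[φ] Q →* FreeGroup L ⋊[pa Q L] Q),
      (∀ g, (f g).right = g.right) ∧ ∀ a ∈ Gs φ S, ∀ b ∈ Gs φ S, f a = f b → a = b := by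
  classical
  obtain ⟨L, inst, f, hf1, hf2⟩ := abs_step φ hS
  have he : Cl φ (∅ : Set B) := by
    rw [Cl_iff]
    intro b hb
    exact absurd hb (Set.notMem_empty b)
  let h₀ : FreeGroup B ⋊[φ] Q → FreeGroup L ⋊[pa Q L] Q :=
    fun a => if ha : a ∈ Gs φ S then f ⟨a, ha⟩ else 1
  have hh₀ : ∀ a (ha : a ∈ Gs φ S), h₀ a = f ⟨a, ha⟩ := fun a ha => dif_pos ha
  have hp₀ : PH φ S h₀ := by
    refine ⟨fun a ha b hb => ?_, fun a ha => ?_⟩
    · rw [hh₀ a ha, hh₀ b hb, hh₀ _ (mul_mem ha hb), ← map_mul]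
      rfl
    · rw [hh₀ a ha]
      exact hf2 ⟨a, ha⟩
  obtain ⟨C, hC1, hC2, hC3⟩ := exists_cl φ he hS.countable
  obtain ⟨h₁, hp₁, ha₁⟩ := ph_countable φ (Set.empty_subset S) (by simpa using hS) he hC2 hp₀
  have hSC : S ∪ C = C := Set.union_eq_right.mpr hC1
  rw [hSC] at hp₁
  rw [Set.empty_union] at hC3
  -- Zorn
  let α : Type := {p : Set B × (FreeGroup B ⋊[φ] Q → FreeGroup L ⋊[pa Q L] Q) //
    Cl φ p.1 ∧ PH φ p.1 p.2}
  let _ : Preorder α :=
    { le := fun p p' => p.1.1 ⊆ p'.1.1 ∧ ∀ a ∈ Gs φ p.1.1, p'.1.2 a = p.1.2 a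
      le_refl := fun p => ⟨subset_rfl, fun _ _ => rfl⟩
      le_trans := fun p p' p'' h1 h2 => ⟨h1.1.trans h2.1, fun a ha => by
        rw [h2.2 a (Gs_mono φ h1.1 ha), h1.2 a ha]⟩ }
  have hle : ∀ p p' : α, p ≤ p' ↔ (p.1.1 ⊆ p'.1.1 ∧ ∀ a ∈ Gs φ p.1.1, p'.1.2 a = p.1.2 a) :=
    fun _ _ => Iff.rfl
  let x : α := ⟨(C, h₁), hC3, hp₁⟩
  obtain ⟨m, hxm, hm⟩ := zorn_le_nonempty_Ici₀ x (by
    intro c _ hchain y hy
    have : Nonempty c := ⟨⟨y, hy⟩⟩
    have hdir : ∀ i j : c, ∃ k : c, i.1 ≤ k.1 ∧ j.1 ≤ k.1 := by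
      intro i j
      rcases hchain.total i.2 j.2 with h | h
      · exact ⟨j, h, le_refl _⟩
      · exact ⟨i, le_refl _, h⟩
    obtain ⟨h', h1, h2⟩ := ph_union φ (ι := c) (fun i => i.1.1.1) (fun i => i.1.1.2)
      (fun i => i.1.2.2) hdir
    refine ⟨⟨(⋃ i : c, i.1.1.1, h'), Cl_iUnion fun i => i.1.2.1, h1⟩, fun z hz => ?_⟩
    rw [hle]
    exact ⟨Set.subset_iUnion (fun i : c => i.1.1.1) ⟨z, hz⟩, h2 ⟨z, hz⟩⟩) x (le_refl _)
  have htop : m.1.1 = Set.univ := by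
    by_contra hne
    obtain ⟨b, hb⟩ := (Set.ne_univ_iff_exists_notMem _).mp hne
    obtain ⟨C', h1, h2, h3⟩ := exists_cl φ m.2.1 (Set.countable_singleton b)
    obtain ⟨h', h4, h5⟩ := ph_countable φ (subset_refl m.1.1) (by simp) m.2.1 h2 m.2.2
    let m' : α := ⟨(m.1.1 ∪ C', h'), h3, h4⟩
    have hmm : m ≤ m' := (hle _ _).mpr ⟨Set.subset_union_left, h5⟩
    have h6 := ((hle _ _).mp (hm hmm)).1
    exact hb (h6 (Or.inr (h1 rfl)))
  have huniv : ∀ a, a ∈ Gs φ m.1.1 := by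
    intro a
    rw [mem_Gs, II_iff_Lt, htop]
    exact Set.subset_univ _
  refine ⟨L, inst, MonoidHom.mk' m.1.2 (fun a b => m.2.2.mul a (huniv a) b (huniv b)),
    fun g => m.2.2.right g (huniv g), ?_⟩
  have hfin : ∀ a (ha : a ∈ Gs φ S), m.1.2 a = f ⟨a, ha⟩ := by
    intro a ha
    rw [((hle _ _).mp hxm).2 a (Gs_mono φ hC1 ha), ← hh₀ a ha]
    exact ha₁ a ha
  intro a ha b hb hab
  change m.1.2 a = m.1.2 b at hab
  rw [hfin a ha, hfin b hb] at hab
  exact congrArg Subtype.val (hf1 hab)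

end Pool.Agent.N816.LR
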