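import Mathlib

set_option autoImplicit false

/-!
# Definitions for the theorem that every virtually free group has property (LR)
-/

namespace Pool.Agent.N816.LR

/-! ## Virtual retracts -/

/-- `H` is a virtual retract of `G`. -/
def IsVR {G : Type} [Group G] (H : Subgroup G) : Prop :=
  ∃ K : Subgroup G, K.FiniteIndex ∧ H ≤ K ∧
    ∃ ρ : K →* G, (∀ k : K, ρ k ∈ H) ∧ ∀ h : G, ∀ hk : h ∈ K, h ∈ H → ρ ⟨h, hk⟩ = h

/-! ## Nested families of subsets -/

/-- Two sets are nested if one of the four corners is empty. -/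
def Nested {V : Type} (X Y : Set V) : Prop := X ⊆ Y ∨ Y ⊆ X ∨ X ⊆ Yᶜ ∨ Xᶜ ⊆ Y

/-- A nested family of proper nonempty subsets of `V`, closed under complements, only finitely many
of which separate two given points. -/
structure NF {V : Type} (E : Set (Set V)) : Prop where
  ne : ∀ X ∈ E, X.Nonempty
  compl : ∀ X ∈ E, Xᶜ ∈ E
  nested : ∀ X ∈ E, ∀ Y ∈ E, Nested X Y
  fin : ∀ x y : V, {X | X ∈ E ∧ x ∈ X ∧ y ∉ X}.Finite

/-- `X` and `Y` start at the same vertex of the structure tree. -/
def Rl {V : Type} (E : Set (Set V)) (X Y : Set V) : Prop :=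
  X = Y ∨ (Xᶜ ⊂ Y ∧ ∀ F ∈ E, Xᶜ ⊂ F → ¬ F ⊂ Y)

/-- `X` is a minimal member of `E` containing the point `a`. -/
def Mi {V : Type} (E : Set (Set V)) (a : V) (X : Set V) : Prop :=
  X ∈ E ∧ a ∈ X ∧ ∀ Y ∈ E, a ∈ Y → Y ⊆ X → Y = X

/-! ## Cuts in relative Cayley graphs -/

section Cuts

variable {A : Type} [Group A] {ι : Type} (gen : ι → A)

/-- Edge boundary of a set in the (right) Cayley graph; the edge `(a, i)` joins `a` and
`a * gen i`. -/
def bd (X : Set A) : Set (A × ι) := {e | ¬ (e.1 ∈ X ↔ e.1 * gen e.2 ∈ X)}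

/-- Left translate `aX`. -/
def tr (a : A) (X : Set A) : Set A := {x | a⁻¹ * x ∈ X}

/-- Right invariance under a subgroup. -/
def RInv (Z : Subgroup A) (X : Set A) : Prop := ∀ x, ∀ z ∈ Z, (x * z ∈ X ↔ x ∈ X)

/-- An ultrafilter on the Boolean algebra of the right `Z`-invariant sets with finite boundary. -/
structure UF (Z : Subgroup A) (u : Set A → Prop) : Prop where
  compl : ∀ X, RInv Z X → (bd gen X).Finite → (u Xᶜ ↔ ¬ u X)
  inter : ∀ X Y, RInv Z X → (bd gen X).Finite → RInv Z Y → (bd gen Y).Finite →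
    (u (X ∩ Y) ↔ u X ∧ u Y)

end Cuts

/-! ## The groups `F(L) ⋊ Q` where `Q` permutes `L` -/

/-- The action of `Q` on the free group on `L` which permutes the basis. -/
def pa (Q L : Type) [Group Q] [MulAction Q L] : Q →* MulAut (FreeGroup L) where
  toFun q := FreeGroup.freeGroupCongr (MulAction.toPerm q)
  map_one' := by
    ext x
    induction x using FreeGroup.induction_on with
    | C1 => simp
    | of a => simp
    | inv_of a _ => simp
    | mul x y hx hy => rw [map_mul, hx, hy, map_mul]
  map_mul' a b := by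
    ext x
    induction x using FreeGroup.induction_on with
    | C1 => simp
    | of c => simp [mul_smul]
    | inv_of c _ => simp [mul_smul]
    | mul x y hx hy => rw [map_mul, hx, hy, map_mul]

theorem pa_of {Q L : Type} [Group Q] [MulAction Q L] (q : Q) (l : L) :
    pa Q L q (FreeGroup.of l) = FreeGroup.of (q • l) := by
  simp [pa]

/-! ## Subgroups of `F(B) ⋊ Q` for an arbitrary action of `Q` -/

/-- The subgroup of the free group generated by a subset of the basis. -/
def D {B : Type} (S : Set B) : Subgroup (FreeGroup B) := Subgroup.closure (FreeGroup.of '' S)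

variable {B Q : Type} [Group Q]

/-- The largest `Q`-invariant subgroup of `D S`. -/
def II (φ : Q →* MulAut (FreeGroup B)) (S : Set B) : Subgroup (FreeGroup B) where
  carrier := {x | ∀ q : Q, φ q x ∈ D S}
  mul_mem' := fun ha hb q => by rw [map_mul]; exact mul_mem (ha q) (hb q)
  one_mem' := fun q => by rw [map_one]; exact one_mem _
  inv_mem' := fun ha q => by rw [map_inv]; exact inv_mem (ha q)

theorem mem_II {φ : Q →* MulAut (FreeGroup B)} {S : Set B} {x : FreeGroup B} :
    x ∈ II φ S ↔ ∀ q : Q, φ q x ∈ D S := Iff.rfl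

theorem II_smul {φ : Q →* MulAut (FreeGroup B)} {S : Set B} {x : FreeGroup B} (q : Q)
    (h : x ∈ II φ S) : φ q x ∈ II φ S := by
  intro p
  have := h (p * q)
  rwa [map_mul, MulAut.mul_apply] at this

/-- The subgroup `II φ S ⋊ Q`. -/
def Gs (φ : Q →* MulAut (FreeGroup B)) (S : Set B) : Subgroup (FreeGroup B ⋊[φ] Q) where
  carrier := {g | g.left ∈ II φ S}
  mul_mem' := fun {a b} ha hb => by
    change (a * b).left ∈ II φ S
    rw [SemidirectProduct.mul_left]
    exact mul_mem ha (II_smul _ hb)
  one_mem' := by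
    change (1 : FreeGroup B ⋊[φ] Q).left ∈ II φ S
    rw [SemidirectProduct.one_left]
    exact one_mem _
  inv_mem' := fun {a} ha => by
    change (a⁻¹).left ∈ II φ S
    rw [SemidirectProduct.inv_left]
    exact II_smul _ (inv_mem ha)

end Pool.Agent.N816.LR
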