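import Mathlib

set_option autoImplicit false

/-!
# Subwords of reduced words
-/

namespace Pool.Agent.N816.LR

variable {B : Type}

theorem red_left {L₁ L₂ : List (B × Bool)} (h : FreeGroup.IsReduced (L₁ ++ L₂)) :
    FreeGroup.IsReduced L₁ := List.IsChain.left_of_append h

theorem red_right {L₁ L₂ : List (B × Bool)} (h : FreeGroup.IsReduced (L₁ ++ L₂)) :
    FreeGroup.IsReduced L₂ := List.IsChain.right_of_append h

theorem red_tail {a : B × Bool} {L : List (B × Bool)} (h : FreeGroup.IsReduced (a :: L)) :
    FreeGroup.IsReduced L := red_right (L₁ := [a]) h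

end Pool.Agent.N816.LR
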