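import Pool.Agent.N816.LR.Defs
import Pool.Agent.N816.LR.Red

set_option autoImplicit false

/-!
# A Howson theorem relative to an invariant free factor

This is helper583's file `Pool/Agent/N583/LRV/ST7.lean`, with a few renamings.
-/

namespace Pool.Agent.N816.LR.P583

open Pool.Agent.N816.LR

open FreeGroup hiding map_one map_mul map_inv

open scoped Classical

variable {B : Type}

/-! ## Words -/

theorem toWord_mk_red {L : List (B × Bool)} (h : IsReduced L) : (mk L).toWord = L := by
  rw [toWord_mk, h.reduce_eq]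

theorem mk_mem_D {S : Set B} (L : List (B × Bool)) (h : ∀ l ∈ L, l.1 ∈ S) : mk L ∈ D S := by
  induction L with
  | nil => exact one_mem _
  | cons a L ih =>
    have h1 : (mk (a :: L) : FreeGroup B) = mk [a] * mk L := by simp
    rw [h1]
    refine mul_mem ?_ (ih fun l hl => h l (List.mem_cons_of_mem _ hl))
    have ha : a.1 ∈ S := h a List.mem_cons_self
    rcases a with ⟨b, c⟩
    cases c with
    | true => exact Subgroup.subset_closure ⟨b, ha, rfl⟩
    | false =>
      have h2 : (mk [(b, false)] : FreeGroup B) = (of b)⁻¹ := by simp [of, inv_mk, invRev]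
      rw [h2]
      exact inv_mem (Subgroup.subset_closure ⟨b, ha, rfl⟩)

theorem mem_D {S : Set B} {x : FreeGroup B} : x ∈ D S ↔ ∀ l ∈ x.toWord, l.1 ∈ S := by
  constructor
  · intro hx
    refine Subgroup.closure_induction (p := fun x _ => ∀ l ∈ x.toWord, l.1 ∈ S) ?_ ?_ ?_ ?_ hx
    · rintro _ ⟨b, hb, rfl⟩ l hl
      rw [toWord_of] at hl
      simp only [List.mem_singleton] at hl
      subst hl
      exact hb
    · intro l hl
      simp at hl
    · intro x y _ _ hx hy l hl
      have := (toWord_mul_sublist x y).subset hl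
      rw [List.mem_append] at this
      rcases this with h | h
      · exact hx l h
      · exact hy l h
    · intro x _ hx l hl
      rw [toWord_inv] at hl
      unfold invRev at hl
      simp only [List.mem_reverse, List.mem_map] at hl
      obtain ⟨a, ha, rfl⟩ := hl
      exact hx a ha
  · intro h
    rw [← mk_toWord (x := x)]
    exact mk_mem_D _ h

/-- `s` is a suffix of the reduced word of `x`. -/
def Sf (x : FreeGroup B) : Set (FreeGroup B) := {s | s.toWord <:+ x.toWord}

theorem sf_fin (x : FreeGroup B) : (Sf x).Finite := by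
  have : Sf x = toWord ⁻¹' {L | L ∈ x.toWord.tails} := by
    ext s
    simp [Sf]
  rw [this]
  exact Set.Finite.preimage toWord_injective.injOn (List.finite_toSet _)

theorem sf_mul_list (y : FreeGroup B) (L : List (B × Bool)) (hL : IsReduced L) (s : FreeGroup B)
    (hs : s ∈ Sf (mk L * y)) : s ∈ Sf y ∨ ∃ s' ∈ Sf (mk L), s = s' * y := by
  induction L with
  | nil =>
    left
    have h0 : (mk [] : FreeGroup B) = 1 := rfl
    rwa [h0, one_mul] at hs
  | cons a L ih =>
    have hL' : IsReduced L := red_tail hL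
    have h1 : (mk (a :: L) : FreeGroup B) = mk [a] * mk L := by simp
    have key : s = mk (a :: L) * y ∨ s ∈ Sf (mk L * y) := by
      have h2 : (mk (a :: L) * y).toWord = reduce (a :: (mk L * y).toWord) := by
        rw [h1, mul_assoc, toWord_mul, toWord_mk, reduce_singleton]
        rfl
      unfold Sf at hs
      rw [Set.mem_ofPred_eq, h2, reduce.cons, reduce_toWord] at hs
      rcases hw : (mk L * y).toWord with _ | ⟨b, tl⟩
      · rw [hw] at hs
        simp only at hs
        rw [List.suffix_cons_iff] at hs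
        rcases hs with hs | hs
        · left
          apply toWord_injective
          rw [h2, hw, hs]
          rfl
        · right
          unfold Sf
          rw [Set.mem_ofPred_eq, hw]
          exact hs
      · rw [hw] at hs
        simp only at hs
        split_ifs at hs with hc
        · right
          unfold Sf
          rw [Set.mem_ofPred_eq, hw]
          exact hs.trans (List.suffix_cons b tl)
        · rw [List.suffix_cons_iff] at hs
          rcases hs with hs | hs
          · left
            apply toWord_injective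
            rw [h2, hw, hs, ← hw, reduce.cons, reduce_toWord, hw]
            simp only
            rw [if_neg hc]
          · right
            unfold Sf
            rw [Set.mem_ofPred_eq, hw]
            exact hs
    rcases key with h | h
    · right
      exact ⟨mk (a :: L), List.suffix_rfl, h⟩
    · rcases ih hL' h with h | ⟨s', hs', h⟩
      · exact Or.inl h
      · right
        refine ⟨s', ?_, h⟩
        unfold Sf at hs' ⊢
        rw [Set.mem_ofPred_eq, toWord_mk_red hL'] at hs'
        rw [Set.mem_ofPred_eq, toWord_mk_red hL]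
        exact hs'.trans (List.suffix_cons a L)

theorem sf_mul {x y s : FreeGroup B} (hs : s ∈ Sf (x * y)) :
    s ∈ Sf y ∨ ∃ s' ∈ Sf x, s = s' * y := by
  have := sf_mul_list y x.toWord isReduced_toWord s (by rwa [mk_toWord])
  rwa [mk_toWord] at this

theorem sf_inv {x s : FreeGroup B} (hs : s ∈ Sf x⁻¹) : s * x ∈ Sf x := by
  unfold Sf at hs ⊢
  rw [Set.mem_ofPred_eq, toWord_inv] at hs
  obtain ⟨t, ht⟩ := hs
  have h1 : x.toWord = invRev s.toWord ++ invRev t := by
    rw [← invRev_append, ht, invRev_invRev]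
  have h2 : IsReduced (invRev t) := by
    have := isReduced_toWord (x := x)
    rw [h1] at this
    exact red_right this
  have h3 : s * x = mk (invRev t) := by
    have : x = s⁻¹ * mk (invRev t) := by
      conv_lhs => rw [← mk_toWord (x := x), h1, ← mul_mk, ← inv_mk, mk_toWord]
    conv_lhs => rw [this]
    group
  rw [Set.mem_ofPred_eq, h3, toWord_mk_red h2, h1]
  exact List.suffix_append _ _

/-- `D S` is malnormal. -/
theorem malnormal {S : Set B} {g d : FreeGroup B} (hg : g ∉ D S) (hd : d ∈ D S)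
    (h : g⁻¹ * d * g ∈ D S) : d = 1 := by
  by_contra hne
  set w := g.toWord with hw
  set L1 := w.takeWhile (fun l => decide (l.1 ∈ S)) with hL1
  set L2 := w.dropWhile (fun l => decide (l.1 ∈ S)) with hL2
  have hsplit : w = L1 ++ L2 := (List.takeWhile_append_dropWhile).symm
  have h1 : ∀ l ∈ L1, l.1 ∈ S := fun l hl => by
    have := List.mem_takeWhile_imp hl
    simpa using this
  have hL2ne : L2 ≠ [] := by
    intro h0
    apply hg
    rw [mem_D, ← hw, hsplit, h0, List.append_nil]
    exact h1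
  obtain ⟨a, L3, hL3⟩ := List.exists_cons_of_ne_nil hL2ne
  have ha : a.1 ∉ S := by
    have h3 := List.head_dropWhile_not (fun l : B × Bool => decide (l.1 ∈ S)) (l := w)
      (by rw [← hL2]; exact hL2ne)
    have h4 : (w.dropWhile (fun l => decide (l.1 ∈ S))).head (by rw [← hL2]; exact hL2ne) = a := by
      have : L2.head hL2ne = a := by simp [hL3]
      exact this
    rw [h4] at h3
    simpa using h3
  have hL2red : IsReduced L2 := by
    have := isReduced_toWord (x := g)
    rw [← hw, hsplit] at this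
    exact red_right this
  set d' := (mk L1)⁻¹ * d * mk L1 with hd'
  have hd'mem : d' ∈ D S := mul_mem (mul_mem (inv_mem (mk_mem_D _ h1)) hd) (mk_mem_D _ h1)
  have hd'ne : d' ≠ 1 := by
    intro h0
    apply hne
    have : d = mk L1 * d' * (mk L1)⁻¹ := by rw [hd']; group
    rw [this, h0]
    group
  have hgeq : g = mk L1 * mk L2 := by
    rw [mul_mk, ← hsplit, hw, mk_toWord]
  have hconj : g⁻¹ * d * g = (mk L2)⁻¹ * d' * mk L2 := by
    rw [hgeq, hd']
    group
  have hword : (g⁻¹ * d * g).toWord = invRev L2 ++ d'.toWord ++ L2 := by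
    have h5 : g⁻¹ * d * g = mk (invRev L2 ++ d'.toWord ++ L2) := by
      rw [hconj, ← mul_mk, ← mul_mk, ← inv_mk, mk_toWord]
    rw [h5]
    apply toWord_mk_red
    have hdr : IsReduced d'.toWord := isReduced_toWord
    have hdn : d'.toWord ≠ [] := by
      rw [Ne, toWord_eq_nil_iff]
      exact hd'ne
    have hmemd := mem_D.1 hd'mem
    have hr2 : IsReduced (d'.toWord ++ L2) := by
      unfold FreeGroup.IsReduced
      rw [List.isChain_append]
      refine ⟨hdr, hL2red, ?_⟩
      intro x hx y hy hxy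
      exfalso
      have h6 : x.1 ∈ S := hmemd x (List.mem_of_mem_getLast? hx)
      rw [hL3] at hy
      simp only [List.head?_cons, Option.mem_def, Option.some.injEq] at hy
      subst hy
      exact ha (hxy ▸ h6)
    have hr1 : IsReduced (invRev L2 ++ d'.toWord) := by
      unfold FreeGroup.IsReduced
      rw [List.isChain_append]
      refine ⟨?_, hdr, ?_⟩
      · have h7 : (mk L2)⁻¹.toWord = invRev L2 := by
          rw [toWord_inv, toWord_mk_red hL2red]
        rw [← h7]
        exact isReduced_toWord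
      · intro x hx y hy hxy
        exfalso
        have h6 : y.1 ∈ S := hmemd y (List.mem_of_mem_head? hy)
        rw [hL3] at hx
        have : (invRev (a :: L3)).getLast? = some (a.1, !a.2) := by
          simp [invRev]
        rw [this] at hx
        simp only [Option.mem_def, Option.some.injEq] at hx
        subst hx
        exact ha (by simpa using hxy ▸ h6)
    exact IsReduced.append_overlap hr1 hr2 hdn
  have := mem_D.1 h a (by
    rw [hword, hL3]
    simp)
  exact ha this

/-! ## Cosets of suffixes -/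

/-- The suffixes of the elements of `H`. -/
def SfS (H : Subgroup (FreeGroup B)) : Set (FreeGroup B) := {s | ∃ x ∈ H, s ∈ Sf x}

/-- The left cosets of the suffixes of the elements of `H`. -/
def CS (H : Subgroup (FreeGroup B)) : Set (FreeGroup B ⧸ H) :=
  (fun s : FreeGroup B => (s : FreeGroup B ⧸ H)) '' SfS H

theorem D_suffix {S : Set B} {x s : FreeGroup B} (hx : x ∈ D S) (hs : s ∈ Sf x) : s ∈ D S := by
  rw [mem_D] at hx ⊢
  intro l hl
  exact hx l (List.IsSuffix.subset hs hl)

theorem D_mono {S₀ S : Set B} (h : S₀ ⊆ S) : D S₀ ≤ D S :=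
  Subgroup.closure_mono (Set.image_mono h)

theorem cosets_fin {S₀ : Set B} {H : Subgroup (FreeGroup B)} {F : Set (FreeGroup B)}
    (hF : F.Finite) (h0 : D S₀ ≤ H)
    (hH : H = Subgroup.closure (F ∪ (D S₀ : Set (FreeGroup B)))) : (CS H).Finite := by
  set P : Set (FreeGroup B) := {1} ∪ ⋃ f ∈ F, Sf f with hP
  have hPfin : P.Finite :=
    (Set.finite_singleton _).union (hF.biUnion fun f _ => sf_fin f)
  have hP1 : (1 : FreeGroup B) ∈ P := Or.inl rfl
  have key : ∀ x ∈ H, ∀ s ∈ Sf x, ∃ b ∈ P, (s : FreeGroup B ⧸ H) = (b : FreeGroup B ⧸ H) := by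
    intro x hx
    have hx' : x ∈ Subgroup.closure (F ∪ (D S₀ : Set (FreeGroup B))) := hH ▸ hx
    have hle : ∀ y ∈ Subgroup.closure (F ∪ (D S₀ : Set (FreeGroup B))), y ∈ H :=
      fun y hy => hH.symm ▸ hy
    refine Subgroup.closure_induction
      (p := fun x _ => ∀ s ∈ Sf x, ∃ b ∈ P, (s : FreeGroup B ⧸ H) = (b : FreeGroup B ⧸ H))
      ?_ ?_ ?_ ?_ hx'
    · rintro y (hy | hy) s hs
      · exact ⟨s, Or.inr (Set.mem_biUnion hy hs), rfl⟩
      · refine ⟨1, hP1, ?_⟩
        have : s ∈ H := h0 (D_suffix hy hs)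
        rw [QuotientGroup.eq, mul_one]
        exact inv_mem this
    · intro s hs
      refine ⟨1, hP1, ?_⟩
      have : s = 1 := by
        rw [← toWord_eq_nil_iff]
        have h1 : s.toWord <:+ (1 : FreeGroup B).toWord := hs
        rw [toWord_one] at h1
        exact List.suffix_nil.1 h1
      rw [this]
    · intro y z hy hz ihy ihz s hs
      rcases sf_mul hs with h | ⟨s', hs', rfl⟩
      · exact ihz s h
      · obtain ⟨b, hb, h⟩ := ihy s' hs'
        refine ⟨b, hb, ?_⟩
        rw [← h, QuotientGroup.eq]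
        have : (s' * z)⁻¹ * s' = z⁻¹ := by group
        rw [this]
        exact inv_mem (hle z hz)
    · intro y hy ih s hs
      obtain ⟨b, hb, h⟩ := ih _ (sf_inv hs)
      refine ⟨b, hb, ?_⟩
      rw [← h, QuotientGroup.eq]
      have : s⁻¹ * (s * y) = y := by group
      rw [this]
      exact hle y hy
  refine (hPfin.image (fun s : FreeGroup B => (s : FreeGroup B ⧸ H))).subset ?_
  rintro _ ⟨s, ⟨x, hx, hs⟩, rfl⟩
  obtain ⟨b, hb, h⟩ := key x hx s hs
  exact ⟨b, hb, h.symm⟩

theorem mk_single_inj {a b : B × Bool} (h : (mk [a] : FreeGroup B) = mk [b]) : a = b := by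
  have := congrArg toWord h
  rw [toWord_mk_red IsReduced.singleton, toWord_mk_red IsReduced.singleton] at this
  simpa using this

/-- The letters with base in `S₀` used at suffixes outside `H`. -/
def Lam (S₀ : Set B) (H : Subgroup (FreeGroup B)) : Set (B × Bool) :=
  {l | l.1 ∈ S₀ ∧ ∃ s, s ∉ H ∧ s ∈ SfS H ∧ mk [l] * s ∈ SfS H}

theorem lam_fin {S₀ : Set B} {H : Subgroup (FreeGroup B)} (hC : (CS H).Finite)
    (hmal : ∀ g, g ∉ H → ∀ d ∈ D S₀, g⁻¹ * d * g ∈ H → d = 1) : (Lam S₀ H).Finite := by
  have hch : ∀ l : B × Bool, ∃ s : FreeGroup B,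
      l ∈ Lam S₀ H → (s ∉ H ∧ s ∈ SfS H ∧ mk [l] * s ∈ SfS H) := by
    intro l
    by_cases h : l ∈ Lam S₀ H
    · obtain ⟨s, hs⟩ := h.2
      exact ⟨s, fun _ => hs⟩
    · exact ⟨1, fun h' => absurd h' h⟩
  choose s hs using hch
  refine Set.Finite.of_injOn (t := CS H ×ˢ CS H)
    (f := fun l => (((s l : FreeGroup B) : FreeGroup B ⧸ H),
      ((mk [l] * s l : FreeGroup B) : FreeGroup B ⧸ H))) ?_ ?_ (hC.prod hC)
  · intro l hl
    obtain ⟨_, h2, h3⟩ := hs l hl
    exact ⟨⟨_, h2, rfl⟩, ⟨_, h3, rfl⟩⟩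
  · intro l hl l' hl' heq
    simp only [Prod.mk.injEq] at heq
    obtain ⟨e1, e2⟩ := heq
    rw [QuotientGroup.eq] at e1 e2
    have h1 : (s l)⁻¹ * ((mk [l])⁻¹ * mk [l']) * s l ∈ H := by
      have : (s l)⁻¹ * ((mk [l])⁻¹ * mk [l']) * s l =
          ((mk [l] * s l)⁻¹ * (mk [l'] * s l')) * ((s l)⁻¹ * s l')⁻¹ := by group
      rw [this]
      exact mul_mem e2 (inv_mem e1)
    have hD : ∀ m ∈ Lam S₀ H, (mk [m] : FreeGroup B) ∈ D S₀ := fun m hm =>
      mk_mem_D _ (by
        intro k hk
        simp only [List.mem_singleton] at hk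
        rw [hk]
        exact hm.1)
    have h2 := hmal _ (hs l hl).1 _ (mul_mem (inv_mem (hD l hl)) (hD l' hl')) h1
    apply mk_single_inj
    exact inv_mul_eq_one.1 h2

theorem rel_howson {ι : Type} [Finite ι] {S₀ S : Set B} {H : ι → Subgroup (FreeGroup B)}
    (hC : ∀ i, (CS (H i)).Finite)
    (hmal : ∀ i, ∀ g, g ∉ H i → ∀ d ∈ D S₀, g⁻¹ * d * g ∈ H i → d = 1)
    (hS : (S \ S₀).Finite) {I : Subgroup (FreeGroup B)} (hI : ∀ x, x ∈ I ↔ ∀ i, x ∈ H i)
    (hIS : I ≤ D S) (h0I : D S₀ ≤ I) :
    ∃ T : Set (FreeGroup B), T.Finite ∧ T ⊆ I ∧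
      I ≤ Subgroup.closure (T ∪ (D S₀ : Set (FreeGroup B))) := by
  have hle : ∀ i, I ≤ H i := fun i x hx => (hI x).1 hx i
  -- finitely many cosets of I
  have hCI : (CS I).Finite := by
    refine Set.Finite.of_injOn (t := {f | ∀ i, f i ∈ CS (H i)})
      (f := fun c i => Subgroup.quotientMapOfLE (hle i) c) ?_ ?_ (Set.Finite.pi' hC)
    · rintro _ ⟨s, ⟨x, hx, hs⟩, rfl⟩ i
      exact ⟨s, ⟨x, hle i hx, hs⟩, rfl⟩
    · rintro _ ⟨s, hs, rfl⟩ _ ⟨s', hs', rfl⟩ h
      have h' : ∀ i, s⁻¹ * s' ∈ H i := by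
        intro i
        have := congrFun h i
        simp only [Subgroup.quotientMapOfLE_apply_mk] at this
        exact QuotientGroup.eq.1 this
      exact QuotientGroup.eq.2 ((hI _).2 h')
  let r : FreeGroup B → FreeGroup B := fun s =>
    if (s : FreeGroup B ⧸ I) = ((1 : FreeGroup B) : FreeGroup B ⧸ I) then 1
    else (s : FreeGroup B ⧸ I).out
  have hr1 : ∀ s ∈ I, r s = 1 := by
    intro s hs
    have : (s : FreeGroup B ⧸ I) = ((1 : FreeGroup B) : FreeGroup B ⧸ I) := by
      rw [QuotientGroup.eq, mul_one]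
      exact inv_mem hs
    simp only [r, this, if_true]
  have hr : ∀ s, s⁻¹ * r s ∈ I := by
    intro s
    by_cases h : (s : FreeGroup B ⧸ I) = ((1 : FreeGroup B) : FreeGroup B ⧸ I)
    · have : r s = 1 := by simp only [r, h, if_true]
      rw [this]
      exact QuotientGroup.eq.1 h
    · have : r s = (s : FreeGroup B ⧸ I).out := by simp only [r, h, if_false]
      rw [this]
      exact QuotientGroup.eq.1 (QuotientGroup.out_eq' _).symm
  have hRfin : (r '' SfS I).Finite := by
    have : r '' SfS I ⊆ (fun c : FreeGroup B ⧸ I =>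
        if c = ((1 : FreeGroup B) : FreeGroup B ⧸ I) then 1 else c.out) '' CS I := by
      rintro _ ⟨s, hs, rfl⟩
      exact ⟨_, ⟨s, hs, rfl⟩, rfl⟩
    exact (hCI.image _).subset this
  let Λ : Set (B × Bool) := ((S \ S₀) ×ˢ (Set.univ : Set Bool)) ∪ ⋃ i, Lam S₀ (H i)
  have hΛ : Λ.Finite :=
    (hS.prod Set.finite_univ).union (Set.finite_iUnion fun i => lam_fin (hC i) (hmal i))
  let T : Set (FreeGroup B) := {t | t ∈ I ∧ ∃ a ∈ r '' SfS I, ∃ l ∈ Λ, ∃ b ∈ r '' SfS I,
    t = a⁻¹ * mk [l] * b}
  have hT : T.Finite := by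
    refine ((hRfin.prod (hΛ.prod hRfin)).image
      (fun p : FreeGroup B × (B × Bool) × FreeGroup B => p.1⁻¹ * mk [p.2.1] * p.2.2)).subset ?_
    rintro t ⟨_, a, ha, l, hl, b, hb, rfl⟩
    exact ⟨(a, l, b), ⟨ha, hl, hb⟩, rfl⟩
  refine ⟨T, hT, fun t ht => ht.1, ?_⟩
  have key : ∀ L : List (B × Bool), FreeGroup.IsReduced L → ∀ x ∈ I, mk L ∈ Sf x →
      (r (mk L))⁻¹ * mk L ∈ Subgroup.closure (T ∪ (D S₀ : Set (FreeGroup B))) := by
    intro L
    induction L with
    | nil =>
      intro _ x _ _
      have h0 : (mk [] : FreeGroup B) = 1 := rfl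
      rw [h0, hr1 1 (one_mem _)]
      simp
    | cons a L ih =>
      intro hL x hx hs
      have hL' : FreeGroup.IsReduced L := red_tail hL
      have h1 : (mk (a :: L) : FreeGroup B) = mk [a] * mk L := by simp
      have hs0 : (a :: L) <:+ x.toWord := by
        have : (mk (a :: L)).toWord <:+ x.toWord := hs
        rwa [toWord_mk_red hL] at this
      have hs' : mk L ∈ Sf x := by
        change (mk L).toWord <:+ x.toWord
        rw [toWord_mk_red hL']
        exact (List.suffix_cons a L).trans hs0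
      have ih' := ih hL' x hx hs'
      have haS : a.1 ∈ S := mem_D.1 (hIS hx) a (hs0.subset List.mem_cons_self)
      have hsplit : (r (mk (a :: L)))⁻¹ * mk (a :: L) =
          ((r (mk (a :: L)))⁻¹ * mk [a] * r (mk L)) * ((r (mk L))⁻¹ * mk L) := by
        rw [h1]
        group
      rw [hsplit]
      refine mul_mem ?_ ih'
      have hu : (r (mk (a :: L)))⁻¹ * mk [a] * r (mk L) ∈ I := by
        have : (r (mk (a :: L)))⁻¹ * mk [a] * r (mk L) =
            ((mk (a :: L))⁻¹ * r (mk (a :: L)))⁻¹ * ((mk L)⁻¹ * r (mk L)) := by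
          rw [mul_inv_rev, inv_inv]
          have h2 : (mk (a :: L) : FreeGroup B) * (mk L)⁻¹ = mk [a] := by
            rw [h1]
            group
          calc _ = (r (mk (a :: L)))⁻¹ * (mk (a :: L) * (mk L)⁻¹) * r (mk L) := by rw [h2]
            _ = _ := by group
        rw [this]
        exact mul_mem (inv_mem (hr _)) (hr _)
      have hΛcase : a ∈ Λ → (r (mk (a :: L)))⁻¹ * mk [a] * r (mk L) ∈
          Subgroup.closure (T ∪ (D S₀ : Set (FreeGroup B))) := by
        intro ha
        exact Subgroup.subset_closure (Or.inl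
          ⟨hu, _, ⟨_, ⟨x, hx, hs⟩, rfl⟩, a, ha, _, ⟨_, ⟨x, hx, hs'⟩, rfl⟩, rfl⟩)
      by_cases haS0 : a.1 ∈ S₀
      · have haD : (mk [a] : FreeGroup B) ∈ D S₀ := mk_mem_D _ (by
          intro k hk
          simp only [List.mem_singleton] at hk
          rw [hk]
          exact haS0)
        by_cases hb : mk L ∈ I
        · have hb' : mk (a :: L) ∈ I := by
            rw [h1]
            exact mul_mem (h0I haD) hb
          rw [hr1 _ hb, hr1 _ hb', inv_one, one_mul, mul_one]
          exact Subgroup.subset_closure (Or.inr haD)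
        · have : ∃ i, mk L ∉ H i := by
            by_contra hcon
            push Not at hcon
            exact hb ((hI _).2 hcon)
          obtain ⟨i, hi⟩ := this
          apply hΛcase
          right
          rw [Set.mem_iUnion]
          refine ⟨i, haS0, mk L, hi, ⟨x, hle i hx, hs'⟩, ?_⟩
          rw [← h1]
          exact ⟨x, hle i hx, hs⟩
      · exact hΛcase (Or.inl ⟨⟨haS, haS0⟩, trivial⟩)
  intro x hx
  have := key x.toWord isReduced_toWord x hx (by rw [mk_toWord]; exact List.suffix_rfl)
  rw [mk_toWord, hr1 x hx, inv_one, one_mul] at this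
  exact this

theorem fg_rel {B Q : Type} [Group Q] [Finite Q] (φ : Q →* MulAut (FreeGroup B)) (S₀ S : Set B)
    (h₀ : S₀ ⊆ S) (hfin : (S \ S₀).Finite) (hc : ∀ q : Q, ∀ x ∈ D S₀, φ q x ∈ D S₀) :
    ∃ T : Set (FreeGroup B), T.Finite ∧ T ⊆ II φ S ∧
      II φ S ≤ Subgroup.closure (T ∪ D S₀) := by
  let H : Q → Subgroup (FreeGroup B) := fun q => (D S).comap (φ q).toMonoidHom
  have hmem : ∀ q x, x ∈ H q ↔ φ q x ∈ D S := fun q x => Iff.rfl
  have h0H : ∀ q, D S₀ ≤ H q := fun q x hx => D_mono h₀ (hc q x hx)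
  have hinv : ∀ q (x : FreeGroup B), φ q (φ q⁻¹ x) = x := by
    intro q x
    have : (φ q * φ q⁻¹) x = x := by
      rw [← map_mul, mul_inv_cancel, map_one]
      rfl
    exact this
  refine rel_howson (ι := Q) (S₀ := S₀) (S := S) (H := H) ?_ ?_ hfin (fun x => mem_II) ?_ ?_
  · intro q
    refine cosets_fin (F := (fun b => φ q⁻¹ (of b)) '' (S \ S₀)) (hfin.image _) (h0H q) ?_
    apply le_antisymm
    · intro x hx
      have hx' : φ q x ∈ D S := hx
      have h1 : ∀ y ∈ D S, φ q⁻¹ y ∈ Subgroup.closure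
          ((fun b => φ q⁻¹ (of b)) '' (S \ S₀) ∪ (D S₀ : Set (FreeGroup B))) := by
        intro y hy
        refine Subgroup.closure_induction (p := fun y _ => φ q⁻¹ y ∈ Subgroup.closure
          ((fun b => φ q⁻¹ (of b)) '' (S \ S₀) ∪ (D S₀ : Set (FreeGroup B)))) ?_ ?_ ?_ ?_ hy
        · rintro _ ⟨b, hb, rfl⟩
          by_cases hb0 : b ∈ S₀
          · exact Subgroup.subset_closure
              (Or.inr (hc _ _ (Subgroup.subset_closure ⟨b, hb0, rfl⟩)))
          · exact Subgroup.subset_closure (Or.inl ⟨b, ⟨hb, hb0⟩, rfl⟩)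
        · rw [map_one]
          exact one_mem _
        · intro y z _ _ hy hz
          rw [map_mul]
          exact mul_mem hy hz
        · intro y _ hy
          have h4 : φ q⁻¹ y⁻¹ = (φ q⁻¹ y)⁻¹ := map_inv (φ q⁻¹) y
          rw [h4]
          exact inv_mem hy
      have h2 := h1 _ hx'
      have h3 : φ q⁻¹ (φ q x) = x := by
        have := hinv q⁻¹ x
        rwa [inv_inv] at this
      rwa [h3] at h2
    · rw [Subgroup.closure_le]
      rintro _ (⟨b, hb, rfl⟩ | hx)
      · change φ q (φ q⁻¹ (of b)) ∈ D S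
        rw [hinv]
        exact Subgroup.subset_closure ⟨b, hb.1, rfl⟩
      · exact h0H q hx
  · intro q g hg d hd h
    have h1 : φ q d = 1 := by
      refine malnormal (S := S) (g := φ q g) hg (D_mono h₀ (hc q d hd)) ?_
      have : φ q (g⁻¹ * d * g) ∈ D S := h
      rwa [map_mul, map_mul, map_inv] at this
    exact (MulEquiv.map_eq_one_iff (φ q)).1 h1
  · intro x hx
    have := mem_II.1 hx 1
    rw [map_one] at this
    exact this
  · intro x hx
    exact mem_II.2 fun q => h0H q hx

end Pool.Agent.N816.LR.P583
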