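import Pool.Agent.N895.LRV.Potential
import Pool.Agent.N833.LRV.Perm
import Pool.Agent.N816.LR.P583
import Pool.Agent.N816.LR.P744
import Pool.Agent.N886.LRV.SplitEmbed
import Pool.Agent.N41.LRV.FixedPoint

set_option autoImplicit false

/-!
# The pieces proved by helpers 895, 833, 583, 744, 886 and 41
-/

namespace Pool.Agent.N816.LR

theorem potential {V R : Type} [Group R] {E : Set (Set V)} (hE : NF E) (o : V) (cr : Set V → R)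
    (τ : Set V → Set V → R) (hcr : ∀ X ∈ E, cr Xᶜ = (cr X)⁻¹)
    (hτ : ∀ X ∈ E, ∀ Y ∈ E, ∀ W ∈ E, Rl E X Y → Rl E Y W → Rl E X W → τ X Y * τ Y W = τ X W)
    (r : Set V → R) (hr : ∀ X Y, Mi E o X → Mi E o Y → r X = τ X Y * r Y) :
    ∃ Ψ : Set V → R, (∀ X, Mi E o X → Ψ X = r X) ∧ (∀ X ∈ E, Ψ Xᶜ = cr X * Ψ X) ∧
      ∀ X ∈ E, ∀ Y ∈ E, Rl E X Y → Ψ X = τ X Y * Ψ Y :=
  Pool.Agent.N895.LRV.potential hE o cr τ hcr hτ r hr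

theorem conn {V : Type} {E : Set (Set V)} (hE : NF E) (P : Set V → Prop) (X₀ : Set V)
    (h₀ : X₀ ∈ E) (hP : P X₀) (h1 : ∀ X ∈ E, P X → P Xᶜ)
    (h2 : ∀ X ∈ E, ∀ Y ∈ E, Rl E X Y → P X → P Y) : ∀ X ∈ E, P X :=
  Pool.Agent.N895.LRV.conn hE P X₀ h₀ hP h1 h2

theorem fp {Q L F : Type} [Group Q] [MulAction Q L] [Group F] [Finite F]
    (s : F →* FreeGroup L ⋊[pa Q L] Q) :
    ∃ u : FreeGroup L, ∀ g, s g = SemidirectProduct.inl u * SemidirectProduct.inr (s g).right *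
      (SemidirectProduct.inl u)⁻¹ :=
  Pool.Agent.N41.LRV.fp s

theorem lr_perm {Q L : Type} [Group Q] [Finite Q] [MulAction Q L]
    (H : Subgroup (FreeGroup L ⋊[pa Q L] Q)) (hH : H.FG) : IsVR H :=
  Pool.Agent.N833.LRV.lr_perm H hH

theorem split_embed (G : Type) [Group G]
    (h : ∃ F : Subgroup G, F.FiniteIndex ∧ IsFreeGroup F) :
    ∃ (B Q : Type) (_ : Group Q) (_ : Finite Q) (φ : Q →* MulAut (FreeGroup B))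
      (e : G →* FreeGroup B ⋊[φ] Q), Function.Injective e :=
  Pool.Agent.N886.LRV.split_embed G h

theorem halves (B : Type) : ∃ N : FreeGroup B → ℕ,
    (∀ (S : Set B) (x y : FreeGroup B), x⁻¹ * y ∉ D S → ∃ X : Set (FreeGroup B), x ∈ X ∧ y ∉ X ∧
      (∀ m, ∀ d ∈ D S, (m * d ∈ X ↔ m ∈ X)) ∧
      ∀ g, {m | ¬ (m ∈ X ↔ m * g ∈ X)}.Finite ∧ {m | ¬ (m ∈ X ↔ m * g ∈ X)}.ncard ≤ N g) ∧
    (∀ m : FreeGroup B, m ≠ 1 → ∃ X : Set (FreeGroup B), (∃ k₀ : ℕ, ∀ k ≥ k₀, m ^ k ∈ X) ∧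
      (∃ k₀ : ℕ, ∀ k ≥ k₀, (m⁻¹) ^ k ∉ X) ∧
      ∀ g, {m | ¬ (m ∈ X ↔ m * g ∈ X)}.Finite ∧ {m | ¬ (m ∈ X ↔ m * g ∈ X)}.ncard ≤ N g) :=
  P744.halves B

theorem fg_rel {B Q : Type} [Group Q] [Finite Q] (φ : Q →* MulAut (FreeGroup B)) (S₀ S : Set B)
    (h₀ : S₀ ⊆ S) (hfin : (S \ S₀).Finite) (hc : ∀ q : Q, ∀ x ∈ D S₀, φ q x ∈ D S₀) :
    ∃ T : Set (FreeGroup B), T.Finite ∧ T ⊆ II φ S ∧
      II φ S ≤ Subgroup.closure (T ∪ D S₀) :=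
  P583.fg_rel φ S₀ S h₀ hfin hc

end Pool.Agent.N816.LR
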