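import Pool.Agent.N816.LR.Nest
import Pool.Agent.N816.LR.Pieces

set_option autoImplicit false
set_option linter.unusedSectionVars false

/-!
# Extension of homomorphisms along an invariant nested family
-/

namespace Pool.Agent.N816.LR

/-! ## Minimal members of a nested family -/

section

variable {V : Type} {E : Set (Set V)}

theorem Mi.rl {a : V} {X Y : Set V} (hE : NF E) (hX : Mi E a X) (hY : Mi E a Y) : Rl E X Y := by
  by_cases h : X = Y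
  · exact Or.inl h
  right
  have hsub : Xᶜ ⊆ Y := by
    rcases hE.nested X hX.1 Y hY.1 with h1 | h1 | h1 | h1
    · exact absurd (hY.2.2 X hX.1 hX.2.1 h1) h
    · exact absurd (hX.2.2 Y hY.1 hY.2.1 h1).symm h
    · exact absurd hY.2.1 (h1 hX.2.1)
    · exact h1
  refine ⟨⟨hsub, fun hc => ?_⟩, fun F hF h1 h2 => ?_⟩
  · exact hc hY.2.1 hX.2.1
  · by_cases ha : a ∈ F
    · exact h2.2 (hY.2.2 F hF ha h2.1).symm.subset
    · have h3 : Fᶜ ⊆ X := by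
        intro x hx
        by_contra hxx
        exact hx (h1.1 hxx)
      have h4 := hX.2.2 _ (hE.compl F hF) ha h3
      apply h1.2
      intro x hx hxX
      rw [← h4] at hxX
      exact hxX hx

theorem Mi.of_rl {a : V} {X Y : Set V} (hE : NF E) (hX : Mi E a X) (hY : Y ∈ E)
    (h : Rl E X Y) : Mi E a Y := by
  rcases h with rfl | ⟨h1, h2⟩
  · exact hX
  have hcX : Yᶜ ⊆ X := by
    intro x hx
    by_contra hxx
    exact hx (h1.1 hxx)
  have haY : a ∈ Y := by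
    by_contra ha
    have h4 := hX.2.2 _ (hE.compl Y hY) ha hcX
    apply h1.2
    intro x hx hxX
    rw [← h4] at hxX
    exact hxX hx
  have hno : ¬ X ⊆ Y := by
    intro hc
    obtain ⟨x, hx⟩ := hE.ne _ (hE.compl Y hY)
    exact hx (hc (hcX hx))
  refine ⟨hY, haY, fun F hF haF hFY => ?_⟩
  rcases hE.nested F hF X hX.1 with h3 | h3 | h3 | h3
  · have := hX.2.2 F hF haF h3
    rw [this] at hFY
    exact absurd hFY hno
  · exact absurd (h3.trans hFY) hno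
  · exact absurd hX.2.1 (h3 haF)
  · have h4 : Xᶜ ⊆ F := by
      intro x hx
      by_contra hxx
      exact hx (h3 hxx)
    have h5 : Xᶜ ⊂ F := ⟨h4, fun hc => hc haF hX.2.1⟩
    by_contra hne
    exact h2 F hF h5 (Set.ssubset_iff_subset_ne.mpr ⟨hFY, hne⟩)

theorem Rl.symm' {X Y : Set V} (hE : NF E) (h : Rl E X Y) : Rl E Y X := by
  rcases h with rfl | ⟨h1, h2⟩
  · exact Or.inl rfl
  right
  refine ⟨⟨fun x hx => by_contra fun hxx => hx (h1.1 hxx), fun hc => h1.2 fun x hx hxX => ?_⟩,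
    fun F hF h3 h4 => ?_⟩
  · exact hc hxX hx
  · refine h2 Fᶜ (hE.compl F hF) ⟨fun x hx hxF => hx (h4.1 hxF), fun hc => h4.2 fun x hxX => ?_⟩
      ⟨fun x hx => by_contra fun hxx => hx (h3.1 hxx), fun hc => h3.2 fun x hxF hxY => hc hxY hxF⟩
    by_contra hxF
    exact hc hxF hxX

theorem exists_mi (hE : NF E) (hne : E.Nonempty) (a : V) : ∃ X, Mi E a X := by
  obtain ⟨X, hX, haX⟩ : ∃ X ∈ E, a ∈ X := by
    obtain ⟨X, hX⟩ := hne
    by_cases h : a ∈ X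
    · exact ⟨X, hX, h⟩
    · exact ⟨Xᶜ, hE.compl X hX, h⟩
  obtain ⟨y, hy⟩ := hE.ne _ (hE.compl X hX)
  have hfin : {Y | Y ∈ E ∧ a ∈ Y ∧ Y ⊆ X}.Finite :=
    (hE.fin a y).subset fun Y hY => ⟨hY.1, hY.2.1, fun h => hy (hY.2.2 h)⟩
  obtain ⟨Y, hY⟩ := hfin.exists_minimal ⟨X, hX, haX, subset_rfl⟩
  refine ⟨Y, hY.prop.1, hY.prop.2.1, fun W hW haW hWY => ?_⟩
  exact Set.Subset.antisymm hWY (hY.le_of_le ⟨hW, haW, hWY.trans hY.prop.2.2⟩ hWY)

end

section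

variable {A : Type} [Group A] {E : Set (Set A)}

theorem tr_sub {a : A} {X Y : Set A} : tr a X ⊆ tr a Y ↔ X ⊆ Y := by
  constructor
  · intro h x hx
    have := @h (a * x) (by rw [mem_tr, inv_mul_cancel_left]; exact hx)
    rwa [mem_tr, inv_mul_cancel_left] at this
  · exact fun h x hx => h hx

theorem tr_ssub {a : A} {X Y : Set A} : tr a X ⊂ tr a Y ↔ X ⊂ Y := by
  rw [ssubset_iff_subset_not_subset, ssubset_iff_subset_not_subset, tr_sub, tr_sub]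

theorem Rl.tr {X Y : Set A} (ht : ∀ X ∈ E, ∀ a, tr a X ∈ E) (h : Rl E X Y) (a : A) :
    Rl E (tr a X) (tr a Y) := by
  rcases h with rfl | ⟨h1, h2⟩
  · exact Or.inl rfl
  right
  refine ⟨tr_ssub (a := a).mpr h1, fun F hF h3 h4 => ?_⟩
  have e : F = LR.tr a (LR.tr a⁻¹ F) := by rw [tr_tr, mul_inv_cancel, tr_one]
  rw [e] at h3 h4
  exact h2 _ (ht F hF _) (tr_ssub.mp h3) (tr_ssub.mp h4)

theorem Mi.tr {a : A} {X : Set A} (ht : ∀ X ∈ E, ∀ a, tr a X ∈ E) (h : Mi E a X) (g : A) :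
    Mi E (g * a) (tr g X) := by
  refine ⟨ht X h.1 g, ?_, fun Y hY h1 h2 => ?_⟩
  · rw [mem_tr, inv_mul_cancel_left]
    exact h.2.1
  · have e : Y = LR.tr g (LR.tr g⁻¹ Y) := by rw [tr_tr, mul_inv_cancel, tr_one]
    rw [e] at h2
    have h3 := h.2.2 _ (ht Y hY g⁻¹) (by
      rw [mem_tr, inv_inv]
      exact h1) (tr_sub.mp h2)
    rw [e, h3]

theorem Mi.tr_iff {a : A} {X : Set A} (ht : ∀ X ∈ E, ∀ a, LR.tr a X ∈ E) (g : A) :
    Mi E (g * a) (LR.tr g X) ↔ Mi E a X := by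
  refine ⟨fun h => ?_, fun h => h.tr ht g⟩
  have := h.tr ht g⁻¹
  rwa [inv_mul_cancel_left, tr_tr, inv_mul_cancel, tr_one] at this

theorem Mi.mul {Z : Subgroup A} {a z : A} {X : Set A} (hZ : ∀ X ∈ E, RInv Z X) (hz : z ∈ Z)
    (h : Mi E a X) : Mi E (a * z) X := by
  refine ⟨h.1, (hZ X h.1 a z hz).mpr h.2.1, fun Y hY h1 h2 => ?_⟩
  exact h.2.2 Y hY ((hZ Y hY a z hz).mp h1) h2

theorem Mi.unique {Z : Subgroup A} {a b : A} {X : Set A} (hE : NF E)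
    (hsep : ∀ a b : A, a⁻¹ * b ∉ Z → ∃ X ∈ E, a ∈ X ∧ b ∉ X) (ha : Mi E a X) (hb : Mi E b X) :
    a⁻¹ * b ∈ Z := by
  by_contra hc
  obtain ⟨Y, hY, haY, hbY⟩ := hsep a b hc
  rcases hE.nested Y hY X ha.1 with h | h | h | h
  · rw [ha.2.2 Y hY haY h] at hbY
    exact hbY hb.2.1
  · exact hbY (h hb.2.1)
  · exact h haY ha.2.1
  · have h1 : Yᶜ = X := hb.2.2 _ (hE.compl Y hY) hbY h
    rw [← h1] at ha
    exact ha.2.1 haY

/-- The homomorphism given by an equivariant potential. -/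
theorem exists_hom {R : Type} [Group R] (hE : NF E) (ht : ∀ X ∈ E, ∀ a, tr a X ∈ E)
    (hne : E.Nonempty) (w : A →* R) (cr : Set A → R) (τ : Set A → Set A → R)
    (hcr : ∀ X ∈ E, ∀ g, cr (tr g X) = w g * cr X * (w g)⁻¹)
    (hτ : ∀ X ∈ E, ∀ Y ∈ E, Rl E X Y → ∀ g, τ (tr g X) (tr g Y) = w g * τ X Y * (w g)⁻¹)
    (Ψ : Set A → R) (h1 : ∀ X ∈ E, Ψ Xᶜ = cr X * Ψ X)
    (h2 : ∀ X ∈ E, ∀ Y ∈ E, Rl E X Y → Ψ X = τ X Y * Ψ Y) :
    ∃ f : A →* R, ∀ g, ∀ X ∈ E, f g = (Ψ (tr g X))⁻¹ * w g * Ψ X := by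
  obtain ⟨X₀, h₀⟩ := hne
  have key : ∀ g, ∀ X ∈ E, (Ψ (tr g X))⁻¹ * w g * Ψ X = (Ψ (tr g X₀))⁻¹ * w g * Ψ X₀ := by
    intro g
    refine conn hE (fun X => (Ψ (tr g X))⁻¹ * w g * Ψ X = (Ψ (tr g X₀))⁻¹ * w g * Ψ X₀) X₀ h₀ rfl
      ?_ ?_
    · intro X hX h
      rw [← h, tr_compl, h1 _ (ht X hX g), h1 X hX, hcr X hX g]
      group
    · intro X hX Y hY hr h
      have hr' := hr.symm' hE
      rw [← h, h2 _ (ht X hX g) _ (ht Y hY g) (hr.tr ht g), h2 X hX Y hY hr, hτ X hX Y hY hr g]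
      group
  refine ⟨⟨⟨fun g => (Ψ (tr g X₀))⁻¹ * w g * Ψ X₀, ?_⟩, ?_⟩, ?_⟩
  · rw [tr_one, map_one, mul_one, inv_mul_cancel]
  · intro g h
    change (Ψ (tr (g * h) X₀))⁻¹ * w (g * h) * Ψ X₀ =
      ((Ψ (tr g X₀))⁻¹ * w g * Ψ X₀) * ((Ψ (tr h X₀))⁻¹ * w h * Ψ X₀)
    rw [← key g _ (ht X₀ h₀ h), tr_tr, map_mul]
    group
  · intro g X hX
    exact (key g X hX).symm

/-- Twisted equivariant functions on a set of cuts. -/
theorem exists_j {R Q : Type} [Group R] [Group Q] (π : R →* Q) (Z : Subgroup A) (w : A →* R)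
    (f : Z →* R) (hπ : ∀ z : Z, π (f z) = π (w z)) (M : Set (Set A))
    (hM : ∀ X ∈ M, ∀ z : Z, tr (z : A) X ∈ M)
    (hloc : ∀ X ∈ M, ∃ c : R, π c = 1 ∧ ∀ z : Z, tr (z : A) X = X → f z = c * w z * c⁻¹) :
    ∃ j : Set A → R, (∀ X ∈ M, π (j X) = 1) ∧
      ∀ X ∈ M, ∀ z : Z, j (tr (z : A) X) = f z * j X * (w z)⁻¹ := by
  classical
  let s : Setoid (Set A) :=
    { r := fun X Y => ∃ z : Z, Y = tr (z : A) X
      iseqv :=
        { refl := fun X => ⟨1, by rw [OneMemClass.coe_one, tr_one]⟩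
          symm := by
            rintro X Y ⟨z, rfl⟩
            exact ⟨z⁻¹, by rw [tr_tr, ← Subgroup.coe_mul, inv_mul_cancel, OneMemClass.coe_one,
              tr_one]⟩
          trans := by
            rintro X Y W ⟨z, rfl⟩ ⟨z', rfl⟩
            exact ⟨z' * z, by rw [tr_tr, Subgroup.coe_mul]⟩ } }
  let rep : Set A → Set A := fun X => (Quotient.mk s X).out
  have hrep : ∀ X, ∃ z : Z, X = tr (z : A) (rep X) := fun X => Quotient.mk_out (s := s) X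
  choose zz hzz using hrep
  have hrepM : ∀ X ∈ M, rep X ∈ M := by
    intro X hX
    have h1 : rep X = tr (((zz X)⁻¹ : Z) : A) X := by
      have h2 := congrArg (tr (((zz X)⁻¹ : Z) : A)) (hzz X)
      rw [tr_tr, ← Subgroup.coe_mul, inv_mul_cancel, OneMemClass.coe_one, tr_one] at h2
      exact h2.symm
    rw [h1]
    exact hM X hX _
  have hc : ∀ X, ∃ c : R, X ∈ M → π c = 1 ∧ ∀ z : Z, tr (z : A) X = X → f z = c * w z * c⁻¹ := by
    intro X
    by_cases hX : X ∈ M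
    · obtain ⟨c, h⟩ := hloc X hX
      exact ⟨c, fun _ => h⟩
    · exact ⟨1, fun h => absurd h hX⟩
  choose c hc using hc
  refine ⟨fun X => f (zz X) * c (rep X) * (w (zz X))⁻¹, fun X hX => ?_, fun X hX z => ?_⟩
  · rw [map_mul, map_mul, map_inv, hπ, (hc _ (hrepM X hX)).1, mul_one, mul_inv_cancel]
  · have hr : rep (tr (z : A) X) = rep X := by
      have : (Quotient.mk s (tr (z : A) X)) = Quotient.mk s X :=
        Quotient.sound ⟨z⁻¹, by rw [tr_tr, ← Subgroup.coe_mul, inv_mul_cancel,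
          OneMemClass.coe_one, tr_one]⟩
      change (Quotient.mk s (tr (z : A) X)).out = (Quotient.mk s X).out
      rw [this]
    have h1 := hzz (tr (z : A) X)
    rw [hr] at h1
    simp only [hr]
    generalize zz (tr (z : A) X) = t at *
    have e1 : tr ((z * zz X : Z) : A) (rep X) = tr (z : A) X := by
      rw [Subgroup.coe_mul, ← tr_tr, ← hzz X]
    have h2 : tr ((t⁻¹ * (z * zz X) : Z) : A) (rep X) = rep X := by
      rw [Subgroup.coe_mul, ← tr_tr, e1, h1, tr_tr, ← Subgroup.coe_mul, inv_mul_cancel,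
        OneMemClass.coe_one, tr_one]
    have h3 := (hc _ (hrepM X hX)).2 _ h2
    rw [map_mul, map_mul, map_inv, Subgroup.coe_mul, Subgroup.coe_mul, map_mul, map_mul,
      Subgroup.coe_inv, map_inv] at h3
    generalize f t = a at *
    generalize w t = b at *
    have h4 : f z * f (zz X) = a * (c (rep X) * (b⁻¹ * (w z * w (zz X))) * (c (rep X))⁻¹) := by
      rw [← h3, mul_inv_cancel_left]
    have h5 : f z * (f (zz X) * c (rep X) * (w (zz X))⁻¹) * (w z)⁻¹ =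
        (f z * f (zz X)) * c (rep X) * (w (zz X))⁻¹ * (w z)⁻¹ := by group
    rw [h5, h4]
    group

/-- **Extension theorem.** -/
theorem extend {R Q : Type} [Group R] [Group Q] (π : R →* Q) (Z : Subgroup A) (w : A →* R)
    (f : Z →* R) (hπ : ∀ z : Z, π (f z) = π (w z)) (hE : NF E) (ht : ∀ X ∈ E, ∀ a, tr a X ∈ E)
    (hZ : ∀ X ∈ E, RInv Z X) (hsep : ∀ a b : A, a⁻¹ * b ∉ Z → ∃ X ∈ E, a ∈ X ∧ b ∉ X)
    (hloc : ∀ X, Mi E 1 X → ∃ c : R, π c = 1 ∧ ∀ z : Z, tr (z : A) X = X → f z = c * w z * c⁻¹) :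
    ∃ f₁ : A →* R, (∀ z : Z, f₁ z = f z) ∧ ∀ a, π (f₁ a) = π (w a) := by
  classical
  rcases E.eq_empty_or_nonempty with hemp | hne
  · have hall : ∀ a : A, a ∈ Z := by
      intro a
      by_contra ha
      obtain ⟨X, hX, -⟩ := hsep 1 a (by rwa [inv_one, one_mul])
      rw [hemp] at hX
      exact hX
    refine ⟨⟨⟨fun a => f ⟨a, hall a⟩, ?_⟩, ?_⟩, fun z => rfl, fun a => hπ ⟨a, hall a⟩⟩
    · exact map_one f
    · intro a b
      exact map_mul f ⟨a, hall a⟩ ⟨b, hall b⟩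
  obtain ⟨j₁, hj1, hj2⟩ := exists_j π Z w f hπ {X | Mi E 1 X} (fun X hX z => by
    have h1 := Mi.tr ht hX (z : A)
    have h2 := h1.mul hZ (z⁻¹).2
    rwa [mul_one, Subgroup.coe_inv, mul_inv_cancel] at h2) hloc
  let j : A → Set A → R := fun a X => j₁ (tr a⁻¹ X) * (w a)⁻¹
  have hmi : ∀ {a X}, Mi E a X → Mi E 1 (tr a⁻¹ X) := by
    intro a X h
    have := h.tr ht a⁻¹
    rwa [inv_mul_cancel] at this
  have jz : ∀ {a X}, Mi E a X → ∀ z : Z, j (a * z) X = (f z)⁻¹ * j a X := by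
    intro a X h z
    have h1 := hj2 _ (hmi h) z⁻¹
    rw [map_inv, Subgroup.coe_inv, tr_tr, map_inv, inv_inv] at h1
    change j₁ (tr (a * z)⁻¹ X) * (w (a * z))⁻¹ = (f z)⁻¹ * (j₁ (tr a⁻¹ X) * (w a)⁻¹)
    rw [mul_inv_rev, h1, map_mul]
    group
  have jg : ∀ (g a : A) (X : Set A), j (g * a) (tr g X) = j a X * (w g)⁻¹ := by
    intro g a X
    change j₁ (tr (g * a)⁻¹ (tr g X)) * (w (g * a))⁻¹ = j₁ (tr a⁻¹ X) * (w a)⁻¹ * (w g)⁻¹
    rw [tr_tr, mul_inv_rev, inv_mul_cancel_right, map_mul]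
    group
  have jπ : ∀ {a X}, Mi E a X → π (j a X) = (π (w a))⁻¹ := by
    intro a X h
    change π (j₁ (tr a⁻¹ X) * (w a)⁻¹) = _
    rw [map_mul, hj1 _ (hmi h), one_mul, map_inv]
  let τ : Set A → Set A → R := fun X Y =>
    if h : ∃ a, Mi E a X ∧ Mi E a Y then (j h.choose X)⁻¹ * j h.choose Y else 1
  have τ1 : ∀ {a X Y}, Mi E a X → Mi E a Y → τ X Y = (j a X)⁻¹ * j a Y := by
    intro a X Y h1 h2
    have h : ∃ a, Mi E a X ∧ Mi E a Y := ⟨a, h1, h2⟩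
    have e : τ X Y = (j h.choose X)⁻¹ * j h.choose Y := dif_pos h
    rw [e]
    have hb := h.choose_spec
    set b := h.choose
    have hz : a⁻¹ * b ∈ Z := Mi.unique hE hsep h1 hb.1
    have e2 : b = a * ((⟨a⁻¹ * b, hz⟩ : Z) : A) := by simp
    rw [e2, jz h1, jz h2]
    group
  have τ0 : ∀ {X Y}, (¬ ∃ a, Mi E a X ∧ Mi E a Y) → τ X Y = 1 := fun h => dif_neg h
  obtain ⟨Ψ, p1, p2, p3⟩ := potential hE (1 : A) (fun _ => (1 : R)) τ (fun _ _ => by simp) (by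
    intro X hX Y hY W hW r1 r2 r3
    by_cases h : ∃ a, Mi E a X ∧ Mi E a Y
    · obtain ⟨a, h1, h2⟩ := h
      have h3 := h2.of_rl hE hW r2
      rw [τ1 h1 h2, τ1 h2 h3, τ1 h1 h3]
      group
    · rw [τ0 h, τ0, τ0, mul_one]
      · rintro ⟨a, h1, h2⟩
        exact h ⟨a, h1, h1.of_rl hE hY r1⟩
      · rintro ⟨a, h1, h2⟩
        exact h ⟨a, h1.of_rl hE hX (r1.symm' hE), h1⟩) (fun X => (j 1 X)⁻¹) (by
    intro X Y h1 h2
    change (j 1 X)⁻¹ = τ X Y * (j 1 Y)⁻¹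
    rw [τ1 h1 h2]
    group)
  obtain ⟨f₁, hf⟩ := exists_hom hE ht hne w (fun _ => 1) τ (fun X _ g => by
      simp) (by
      intro X hX Y hY hr g
      by_cases h : ∃ a, Mi E a X ∧ Mi E a Y
      · obtain ⟨a, h1, h2⟩ := h
        rw [τ1 h1 h2, τ1 (h1.tr ht g) (h2.tr ht g), jg, jg]
        group
      · rw [τ0 h, τ0]
        · simp
        · rintro ⟨a, h1, h2⟩
          have e : a = g * (g⁻¹ * a) := by group
          rw [e, Mi.tr_iff ht] at h1 h2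
          exact h ⟨_, h1, h2⟩) Ψ p2 p3
  obtain ⟨X₀, hX₀⟩ := exists_mi hE hne (1 : A)
  refine ⟨f₁, fun z => ?_, fun a => ?_⟩
  · have h1 : Mi E 1 (tr (z : A) X₀) := by
      have h1 := Mi.tr ht hX₀ (z : A)
      have h2 := h1.mul hZ (z⁻¹).2
      rwa [mul_one, Subgroup.coe_inv, mul_inv_cancel] at h2
    rw [hf z X₀ hX₀.1, p1 _ h1, p1 _ hX₀]
    have e1 : ∀ X, j 1 X = j₁ X := by
      intro X
      change j₁ (tr 1⁻¹ X) * (w 1)⁻¹ = j₁ X
      rw [inv_one, tr_one, map_one, inv_one, mul_one]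
    rw [e1, e1, hj2 _ hX₀ z]
    group
  · have h1 : ∀ X ∈ E, π (Ψ X) = 1 := by
      refine conn hE (fun X => π (Ψ X) = 1) X₀ hX₀.1 ?_ ?_ ?_
      · rw [p1 _ hX₀, map_inv, jπ hX₀, map_one, map_one]
        simp
      · intro X hX h
        rw [p2 X hX, map_mul, h, map_one, mul_one]
      · intro X hX Y hY hr h
        rw [p3 Y hY X hX (hr.symm' hE), map_mul, h, mul_one]
        by_cases hh : ∃ a, Mi E a Y ∧ Mi E a X
        · obtain ⟨a, h1, h2⟩ := hh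
          rw [τ1 h1 h2, map_mul, map_inv, jπ h1, jπ h2, inv_inv, mul_inv_cancel]
        · rw [τ0 hh, map_one]
    rw [hf a X₀ hX₀.1, map_mul, map_mul, map_inv, h1 _ (ht X₀ hX₀.1 a), h1 _ hX₀.1]
    simp

end

end Pool.Agent.N816.LR
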