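import Pool.Agent.N816.LR.Chain

set_option autoImplicit false
set_option linter.unusedSectionVars false

/-!
# Every virtually free group has property (LR)
-/

namespace Pool.Agent.N816.LR

theorem lr_all (G : Type) [Group G] (hG : ∃ F : Subgroup G, F.FiniteIndex ∧ IsFreeGroup F)
    (H : Subgroup G) (hH : H.FG) : IsVR H := by
  classical
  obtain ⟨B, Q, instG, instF, φ, e, he⟩ := split_embed G hG
  obtain ⟨T, hT⟩ := hH
  -- a finite set of letters supporting `H`
  let S : Set B := ⋃ t ∈ T, Lt φ (e t).left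
  have hS : S.Finite := Set.Finite.biUnion (Finset.finite_toSet T) fun t _ => Lt_finite φ _
  have hHS : ∀ h ∈ H, e h ∈ Gs φ S := by
    have h1 : H ≤ (Gs φ S).comap e := by
      rw [← hT, Subgroup.closure_le]
      intro t ht
      change e t ∈ Gs φ S
      rw [mem_Gs, II_iff_Lt]
      exact Set.subset_biUnion_of_mem (u := fun t => Lt φ (e t).left) ht
    exact fun h hh => h1 hh
  obtain ⟨L, inst, f, hf1, hf2⟩ := big φ hS
  let g : G →* FreeGroup L ⋊[pa Q L] Q := f.comp e
  have hg : ∀ a ∈ H, ∀ b ∈ H, g a = g b → a = b := by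
    intro a ha b hb hab
    exact he (hf2 _ (hHS a ha) _ (hHS b hb) hab)
  have hfg : (H.map g).FG := by
    refine ⟨T.image g, ?_⟩
    rw [Finset.coe_image, ← MonoidHom.map_closure, hT]
  obtain ⟨K, hK, hHK, ρ, hρ1, hρ2⟩ := lr_perm (H.map g) hfg
  -- the inverse of `g` on `H.map g`
  have hex : ∀ y ∈ H.map g, ∃ h ∈ H, g h = y := fun y hy => Subgroup.mem_map.mp hy
  choose! s hs1 hs2 using hex
  have hmul : ∀ y ∈ H.map g, ∀ z ∈ H.map g, s (y * z) = s y * s z := by
    intro y hy z hz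
    apply hg _ (hs1 _ (mul_mem hy hz)) _ (mul_mem (hs1 y hy) (hs1 z hz))
    rw [hs2 _ (mul_mem hy hz), map_mul, hs2 y hy, hs2 z hz]
  have hKfin : (K.comap g).FiniteIndex := by
    refine ⟨?_⟩
    rw [Subgroup.index_comap]
    exact (inferInstance : (K.subgroupOf g.range).FiniteIndex).index_ne_zero
  refine ⟨K.comap g, hKfin, ?_, MonoidHom.mk' (fun k : K.comap g => s (ρ ⟨g k, k.2⟩))
    (fun a b => ?_), fun k => hs1 _ (hρ1 _), fun h hk hh => ?_⟩
  · intro h hh
    exact hHK (Subgroup.mem_map_of_mem g hh)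
  · rw [← hmul _ (hρ1 _) _ (hρ1 _), ← map_mul]
    congr 2
    apply Subtype.ext
    change g (a * b : K.comap g) = g a * g b
    rw [Subgroup.coe_mul, map_mul]
  · change s (ρ ⟨g h, hk⟩) = h
    have h1 : g h ∈ H.map g := Subgroup.mem_map_of_mem g hh
    rw [hρ2 (g h) hk h1]
    exact hg _ (hs1 _ h1) _ hh (hs2 _ h1)

end Pool.Agent.N816.LR
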