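import Pool.Agent.N816.LR.Defs

set_option autoImplicit false

/-!
# Optimal cuts are nested

Adapted from `Pool/Agent/Helper122/NCut.lean`: minimal cuts separating a given pair of ultrafilters,
for Cayley graphs relative to a subgroup `Z`.
-/

namespace Pool.Agent.N816.LR

set_option linter.unusedSectionVars false

variable {A : Type} [Group A] {ι : Type} {gen : ι → A}

theorem mem_bd {X : Set A} {e : A × ι} :
    e ∈ bd gen X ↔ ¬ (e.1 ∈ X ↔ e.1 * gen e.2 ∈ X) := Iff.rfl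

theorem bd_compl (X : Set A) : bd gen Xᶜ = bd gen X := by
  ext e
  rw [mem_bd, mem_bd, Set.mem_compl_iff, Set.mem_compl_iff]
  tauto

theorem bd_empty_imp {Z : Subgroup A} (hgen : Subgroup.closure (Set.range gen ∪ Z) = ⊤) (X : Set A)
    (hX : RInv Z X) (h : bd gen X = ∅) : X = ∅ ∨ X = Set.univ := by
  have h1 : ∀ a i, (a ∈ X ↔ a * gen i ∈ X) := by
    intro a i
    by_contra hc
    have : (a, i) ∈ bd gen X := hc
    rw [h] at this
    exact this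
  have h2 : ∀ g : A, ∀ a, (a ∈ X ↔ a * g ∈ X) := by
    intro g
    have hg : g ∈ Subgroup.closure (Set.range gen ∪ Z) := by rw [hgen]; trivial
    induction hg using Subgroup.closure_induction with
    | mem x hx =>
      rcases hx with ⟨i, rfl⟩ | hx
      · exact fun a => h1 a i
      · exact fun a => (hX a x hx).symm
    | one => intro a; rw [mul_one]
    | mul x y _ _ hx hy => intro a; rw [← mul_assoc, ← hy, ← hx]
    | inv x _ hx => intro a; rw [hx (a * x⁻¹), inv_mul_cancel_right]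
  rcases Set.eq_empty_or_nonempty X with h3 | ⟨x, hx⟩
  · exact Or.inl h3
  · right
    ext g
    refine ⟨fun _ => trivial, fun _ => ?_⟩
    have := (h2 (x⁻¹ * g) x).mp hx
    rwa [mul_inv_cancel_left] at this

theorem RInv.inter {Z : Subgroup A} {X Y : Set A} (hX : RInv Z X) (hY : RInv Z Y) :
    RInv Z (X ∩ Y) := by
  intro x z hz
  rw [Set.mem_inter_iff, Set.mem_inter_iff, hX x z hz, hY x z hz]

theorem RInv.union {Z : Subgroup A} {X Y : Set A} (hX : RInv Z X) (hY : RInv Z Y) :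
    RInv Z (X ∪ Y) := by
  intro x z hz
  rw [Set.mem_union, Set.mem_union, hX x z hz, hY x z hz]

theorem RInv.compl {Z : Subgroup A} {X : Set A} (hX : RInv Z X) : RInv Z Xᶜ := by
  intro x z hz
  rw [Set.mem_compl_iff, Set.mem_compl_iff, hX x z hz]

theorem RInv.tr {Z : Subgroup A} {X : Set A} (hX : RInv Z X) (a : A) : RInv Z (tr a X) := by
  intro x z hz
  change a⁻¹ * (x * z) ∈ X ↔ a⁻¹ * x ∈ X
  rw [← mul_assoc, hX _ z hz]

theorem tr_tr (a b : A) (X : Set A) : tr a (tr b X) = tr (a * b) X := by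
  ext x
  unfold tr
  simp only [Set.mem_ofPred_eq, mul_inv_rev, mul_assoc]

theorem tr_one (X : Set A) : tr 1 X = X := by
  ext x
  unfold tr
  simp only [Set.mem_ofPred_eq, inv_one, one_mul]

theorem tr_compl (a : A) (X : Set A) : tr a Xᶜ = (tr a X)ᶜ := rfl

theorem mem_tr {a x : A} {X : Set A} : x ∈ tr a X ↔ a⁻¹ * x ∈ X := Iff.rfl

theorem tr_inter (a : A) (X Y : Set A) : tr a (X ∩ Y) = tr a X ∩ tr a Y := rfl

theorem tr_injective (a : A) : Function.Injective (tr a : Set A → Set A) := by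
  intro X Y h
  have := congrArg (tr a⁻¹) h
  rwa [tr_tr, tr_tr, inv_mul_cancel, tr_one, tr_one] at this

theorem bd_tr (a : A) (X : Set A) :
    bd gen (tr a X) = (fun e : A × ι => (a * e.1, e.2)) '' bd gen X := by
  ext e
  constructor
  · intro he
    refine ⟨(a⁻¹ * e.1, e.2), ?_, ?_⟩
    · rw [mem_bd] at he ⊢
      rw [mem_tr, mem_tr, ← mul_assoc] at he
      exact he
    · change (a * (a⁻¹ * e.1), e.2) = e
      rw [mul_inv_cancel_left]
  · rintro ⟨e, he, rfl⟩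
    rw [mem_bd] at he ⊢
    change ¬ (a⁻¹ * (a * e.1) ∈ X ↔ a⁻¹ * (a * e.1 * gen e.2) ∈ X)
    rwa [mul_assoc, inv_mul_cancel_left, inv_mul_cancel_left]

theorem inj_shift (a : A) : Function.Injective (fun e : A × ι => (a * e.1, e.2)) := by
  rintro ⟨x, i⟩ ⟨y, j⟩ h
  simp only [Prod.mk.injEq, mul_right_inj] at h
  exact Prod.ext h.1 h.2

theorem bd_inter_sub (X Y : Set A) : bd gen (X ∩ Y) ⊆ bd gen X ∪ bd gen Y := by
  intro e he
  rw [Set.mem_union, mem_bd, mem_bd]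
  rw [mem_bd, Set.mem_inter_iff, Set.mem_inter_iff] at he
  tauto

theorem bd_union_sub (X Y : Set A) : bd gen (X ∪ Y) ⊆ bd gen X ∪ bd gen Y := by
  intro e he
  rw [Set.mem_union, mem_bd, mem_bd]
  rw [mem_bd, Set.mem_union, Set.mem_union] at he
  tauto

theorem submod (X Y : Set A) (hX : (bd gen X).Finite) (hY : (bd gen Y).Finite) :
    (bd gen (X ∩ Y)).ncard + (bd gen (X ∪ Y)).ncard ≤ (bd gen X).ncard + (bd gen Y).ncard := by
  have hi : (bd gen (X ∩ Y)).Finite := (hX.union hY).subset (bd_inter_sub X Y)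
  have hu : (bd gen (X ∪ Y)).Finite := (hX.union hY).subset (bd_union_sub X Y)
  rw [← Set.ncard_union_add_ncard_inter _ _ hi hu, ← Set.ncard_union_add_ncard_inter _ _ hX hY]
  apply Nat.add_le_add
  · exact Set.ncard_le_ncard (Set.union_subset (bd_inter_sub X Y) (bd_union_sub X Y))
      (hX.union hY)
  · refine Set.ncard_le_ncard ?_ (hX.inter_of_left _)
    intro e he
    rw [Set.mem_inter_iff, mem_bd, mem_bd, Set.mem_inter_iff, Set.mem_inter_iff, Set.mem_union,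
      Set.mem_union] at he
    rw [Set.mem_inter_iff, mem_bd, mem_bd]
    tauto

/-- good sets -/
def GC (gen : ι → A) (Z : Subgroup A) (X : Set A) : Prop := RInv Z X ∧ (bd gen X).Finite

theorem GC.compl {Z : Subgroup A} {X : Set A} (h : GC gen Z X) : GC gen Z Xᶜ :=
  ⟨h.1.compl, by rw [bd_compl]; exact h.2⟩

theorem GC.inter {Z : Subgroup A} {X Y : Set A} (h : GC gen Z X) (h' : GC gen Z Y) :
    GC gen Z (X ∩ Y) :=
  ⟨h.1.inter h'.1, (h.2.union h'.2).subset (bd_inter_sub X Y)⟩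

theorem GC.union {Z : Subgroup A} {X Y : Set A} (h : GC gen Z X) (h' : GC gen Z Y) :
    GC gen Z (X ∪ Y) :=
  ⟨h.1.union h'.1, (h.2.union h'.2).subset (bd_union_sub X Y)⟩

theorem GC.tr {Z : Subgroup A} {X : Set A} (h : GC gen Z X) (a : A) : GC gen Z (tr a X) :=
  ⟨h.1.tr a, by rw [bd_tr]; exact h.2.image _⟩

theorem UF.compl' {Z : Subgroup A} {u : Set A → Prop} (hu : UF gen Z u) {X : Set A}
    (h : GC gen Z X) : u Xᶜ ↔ ¬ u X := hu.compl X h.1 h.2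

theorem UF.inter' {Z : Subgroup A} {u : Set A → Prop} (hu : UF gen Z u) {X Y : Set A}
    (h : GC gen Z X) (h' : GC gen Z Y) : u (X ∩ Y) ↔ u X ∧ u Y :=
  hu.inter X Y h.1 h.2 h'.1 h'.2

theorem UF.union' {Z : Subgroup A} {u : Set A → Prop} (hu : UF gen Z u) {X Y : Set A}
    (h : GC gen Z X) (h' : GC gen Z Y) : u (X ∪ Y) ↔ u X ∨ u Y := by
  have h1 := hu.inter' h.compl h'.compl
  rw [hu.compl' h, hu.compl' h', ← Set.compl_union, hu.compl' (h.union h')] at h1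
  tauto

theorem UF.empty {Z : Subgroup A} {u : Set A → Prop} (hu : UF gen Z u) : ¬ u ∅ := by
  have h0 : GC gen Z ∅ := by
    refine ⟨fun x z _ => Iff.rfl, ?_⟩
    have : bd gen (∅ : Set A) = ∅ := by
      ext e
      rw [mem_bd]
      simp
    rw [this]
    exact Set.finite_empty
  have h1 := hu.compl' h0
  have h2 := hu.inter' h0 h0.compl
  rw [Set.empty_inter] at h2
  tauto

/-- minimal cuts separating `u` from `v` -/
def Mn (gen : ι → A) (Z : Subgroup A) (u v : Set A → Prop) (X : Set A) : Prop :=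
  GC gen Z X ∧ u X ∧ ¬ v X ∧
    ∀ Y, GC gen Z Y → u Y → ¬ v Y → (bd gen X).ncard ≤ (bd gen Y).ncard

theorem Mn.compl {Z : Subgroup A} {u v : Set A → Prop} (hu : UF gen Z u) (hv : UF gen Z v)
    {X : Set A} (h : Mn gen Z u v X) : Mn gen Z v u Xᶜ := by
  refine ⟨h.1.compl, (hv.compl' h.1).mpr h.2.2.1, ?_, fun Y hY h1 h2 => ?_⟩
  · rw [hu.compl' h.1]
    exact fun hc => hc h.2.1
  · rw [bd_compl, ← bd_compl Y]
    refine h.2.2.2 _ hY.compl ((hu.compl' hY).mpr h2) ?_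
    rw [hv.compl' hY]
    exact fun hc => hc h1

theorem Mn.eq {Z : Subgroup A} {u v : Set A → Prop} {X Y : Set A} (h : Mn gen Z u v X)
    (h2 : Mn gen Z u v Y) : (bd gen X).ncard = (bd gen Y).ncard :=
  le_antisymm (h.2.2.2 Y h2.1 h2.2.1 h2.2.2.1) (h2.2.2.2 X h.1 h.2.1 h.2.2.1)

/-- connected sets -/
def Tt (gen : ι → A) (Z : Subgroup A) (Y : Set A) : Prop :=
  ∀ V, RInv Z V → (∀ e : A × ι, e.1 ∈ Y → e.1 * gen e.2 ∈ Y → (e.1 ∈ V ↔ e.1 * gen e.2 ∈ V)) →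
    Y ∩ V = ∅ ∨ Y ∩ Vᶜ = ∅

/-- minimal cuts are connected -/
theorem Mn.tight {Z : Subgroup A} (hgen : Subgroup.closure (Set.range gen ∪ Z) = ⊤)
    {u v : Set A → Prop} (hu : UF gen Z u) (hv : UF gen Z v)
    {X : Set A} (h : Mn gen Z u v X) : Tt gen Z X := by
  intro V hV he
  have key : ∀ V : Set A, RInv Z V →
      (∀ e : A × ι, e.1 ∈ X → e.1 * gen e.2 ∈ X → (e.1 ∈ V ↔ e.1 * gen e.2 ∈ V)) →
      u (X ∩ V) → X ∩ V = ∅ ∨ X ∩ Vᶜ = ∅ := by
    intro V hV he huV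
    have h1 : bd gen (X ∩ V) ⊆ bd gen X := by
      intro e h1
      have := he e
      rw [mem_bd, Set.mem_inter_iff, Set.mem_inter_iff] at h1
      rw [mem_bd]
      tauto
    have h2 : bd gen (X ∩ Vᶜ) ⊆ bd gen X := by
      intro e h1
      have := he e
      rw [mem_bd, Set.mem_inter_iff, Set.mem_inter_iff, Set.mem_compl_iff, Set.mem_compl_iff] at h1
      rw [mem_bd]
      tauto
    have h3 : Disjoint (bd gen (X ∩ V)) (bd gen (X ∩ Vᶜ)) := by
      rw [Set.disjoint_left]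
      intro e h1 h2
      have := he e
      rw [mem_bd, Set.mem_inter_iff, Set.mem_inter_iff] at h1
      rw [mem_bd, Set.mem_inter_iff, Set.mem_inter_iff, Set.mem_compl_iff, Set.mem_compl_iff] at h2
      tauto
    have hf := h.1.2
    have g1 : GC gen Z (X ∩ V) := ⟨h.1.1.inter hV, hf.subset h1⟩
    have hsum : (bd gen (X ∩ V)).ncard + (bd gen (X ∩ Vᶜ)).ncard ≤ (bd gen X).ncard := by
      rw [← Set.ncard_union_eq h3 (hf.subset h1) (hf.subset h2)]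
      exact Set.ncard_le_ncard (Set.union_subset h1 h2) hf
    have hnv : ¬ v (X ∩ V) := by
      intro hc
      have e1 : X ∩ (X ∩ V) = X ∩ V := by rw [← Set.inter_assoc, Set.inter_self]
      have := hv.inter' h.1 g1
      rw [e1] at this
      exact h.2.2.1 (this.mp hc).1
    have e1 := h.2.2.2 _ g1 huV hnv
    have e2 : (bd gen (X ∩ Vᶜ)).ncard = 0 := by omega
    rw [Set.ncard_eq_zero (hf.subset h2)] at e2
    rcases bd_empty_imp hgen _ (h.1.1.inter hV.compl) e2 with h4 | h4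
    · exact Or.inr h4
    · left
      rw [Set.eq_empty_iff_forall_notMem]
      rintro x ⟨-, hx⟩
      have : x ∈ X ∩ Vᶜ := by rw [h4]; trivial
      exact this.2 hx
  by_cases hc : u (X ∩ V)
  · exact key V hV he hc
  · have hf := h.1.2
    have h1 : bd gen (X ∩ V) ⊆ bd gen X := by
      intro e h1
      have := he e
      rw [mem_bd, Set.mem_inter_iff, Set.mem_inter_iff] at h1
      rw [mem_bd]
      tauto
    have g1 : GC gen Z (X ∩ V) := ⟨h.1.1.inter hV, hf.subset h1⟩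
    have h2 : u (X ∩ (X ∩ V)ᶜ) := (hu.inter' h.1 g1.compl).mpr ⟨h.2.1, (hu.compl' g1).mpr hc⟩
    have h3 : X ∩ (X ∩ V)ᶜ = X ∩ Vᶜ := by
      ext x
      simp only [Set.mem_inter_iff, Set.mem_compl_iff]
      tauto
    rw [h3] at h2
    have := key Vᶜ hV.compl (fun e h1 h2 => by
      have := he e h1 h2
      rw [Set.mem_compl_iff, Set.mem_compl_iff]
      tauto) h2
    rw [compl_compl] at this
    exact this.symm

/-- crossing -/
def Cross (X Y : Set A) : Prop :=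
  (X ∩ Y).Nonempty ∧ (X ∩ Yᶜ).Nonempty ∧ (Xᶜ ∩ Y).Nonempty ∧ (Xᶜ ∩ Yᶜ).Nonempty

/-- endpoints of the boundary -/
def Ends (gen : ι → A) (X : Set A) : Set A := {a | ∃ e ∈ bd gen X, a = e.1 ∨ a = e.1 * gen e.2}

theorem Ends_finite {X : Set A} (h : (bd gen X).Finite) : (Ends gen X).Finite := by
  have : Ends gen X = Prod.fst '' bd gen X ∪ (fun e : A × ι => e.1 * gen e.2) '' bd gen X := by
    ext a
    constructor
    · rintro ⟨e, he, h | h⟩
      · exact Or.inl ⟨e, he, h.symm⟩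
      · exact Or.inr ⟨e, he, h.symm⟩
    · rintro (⟨e, he, h⟩ | ⟨e, he, h⟩)
      · exact ⟨e, he, Or.inl h.symm⟩
      · exact ⟨e, he, Or.inr h.symm⟩
  rw [this]
  exact (h.image _).union (h.image _)

theorem Tt.hits {Z : Subgroup A} {X Y : Set A}
    (hX : GC gen Z X) (hY : Tt gen Z Y) (h1 : (Y ∩ X).Nonempty) (h2 : (Y ∩ Xᶜ).Nonempty) :
    (Y ∩ Ends gen X).Nonempty := by
  by_contra hc
  rw [Set.not_nonempty_iff_eq_empty] at hc
  have hno' : ∀ e : A × ι, e.1 ∈ Y → e.1 * gen e.2 ∈ Y → (e.1 ∈ X ↔ e.1 * gen e.2 ∈ X) := by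
    intro e he _
    by_contra hcc
    have : e.1 ∈ Y ∩ Ends gen X := ⟨he, e, hcc, Or.inl rfl⟩
    rw [hc] at this
    exact this
  rcases hY X hX.1 hno' with h | h
  · rw [h] at h1
    exact Set.not_nonempty_empty h1
  · rw [h] at h2
    exact Set.not_nonempty_empty h2

theorem acc_point (F : Set (Set A)) (hF : F.Infinite) :
    ∃ L : Set A, ∀ K : Set A, K.Finite → ∃ Y ∈ F, Y ≠ L ∧ ∀ a ∈ K, (a ∈ Y ↔ a ∈ L) := by
  classical
  let ind : Set A → (A → Bool) := fun Y a => decide (a ∈ Y)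
  have hinj : Function.Injective ind := by
    intro Y Y' h
    ext a
    have := congrFun h a
    simp only [ind, decide_eq_decide] at this
    exact this
  have hS : (ind '' F).Infinite := hF.image hinj.injOn
  obtain ⟨l, -, hl⟩ := hS.exists_accPt_of_subset_isCompact isCompact_univ (Set.subset_univ _)
  rw [accPt_iff_nhds] at hl
  refine ⟨{a | l a = true}, fun K hK => ?_⟩
  have hU : {f : A → Bool | ∀ a ∈ K, f a = l a} ∈ nhds l := by
    have h1 : {f : A → Bool | ∀ a ∈ K, f a = l a} = K.pi fun a => {l a} := by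
      ext f
      simp only [Set.mem_pi, Set.mem_singleton_iff, Set.mem_ofPred_eq]
    rw [h1]
    exact set_pi_mem_nhds hK fun a _ => by simp
  obtain ⟨f, ⟨hfU, ⟨Y, hY, rfl⟩⟩, hne⟩ := hl _ hU
  refine ⟨Y, hY, ?_, ?_⟩
  · rintro rfl
    apply hne
    funext a
    simp only [ind, Set.mem_ofPred_eq, Bool.decide_eq_true]
  · intro a ha
    have := hfU a ha
    simp only [ind] at this
    rw [Set.mem_ofPred_eq, ← this, decide_eq_true_eq]

theorem separating_finite {Z : Subgroup A} (K : ℕ) (x y : A) :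
    {Y | GC gen Z Y ∧ (bd gen Y).ncard ≤ K ∧ Tt gen Z Y ∧ Tt gen Z Yᶜ ∧ x ∈ Y ∧ y ∉ Y}.Finite := by
  by_contra hinf
  obtain ⟨L, hL⟩ := acc_point _ hinf
  have hxL : x ∈ L := by
    obtain ⟨Y, hY, -, h⟩ := hL {x} (Set.finite_singleton x)
    exact (h x rfl).mp hY.2.2.2.2.1
  have hyL : y ∉ L := by
    obtain ⟨Y, hY, -, h⟩ := hL {y} (Set.finite_singleton y)
    exact fun hc => hY.2.2.2.2.2 ((h y rfl).mpr hc)
  have hR : RInv Z L := by
    intro g z hz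
    obtain ⟨Y, hY, -, h⟩ := hL {g, g * z} (Set.toFinite _)
    rw [← h g (Or.inl rfl), ← h (g * z) (Or.inr rfl)]
    exact hY.1.1 g z hz
  have hends : ∀ F : Set (A × ι), F.Finite → ∃ K : Set A, K.Finite ∧
      ∀ e ∈ F, e.1 ∈ K ∧ e.1 * gen e.2 ∈ K := by
    intro F hF
    refine ⟨Prod.fst '' F ∪ (fun e : A × ι => e.1 * gen e.2) '' F,
      (hF.image _).union (hF.image _), fun e he => ⟨Or.inl ⟨e, he, rfl⟩, Or.inr ⟨e, he, rfl⟩⟩⟩
  have hcard : ∀ F : Set (A × ι), F.Finite → F ⊆ bd gen L → F.ncard ≤ K := by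
    intro F hF hsub
    obtain ⟨P, hP, hPe⟩ := hends F hF
    obtain ⟨Y, hY, -, h⟩ := hL P hP
    refine le_trans (Set.ncard_le_ncard ?_ hY.1.2) hY.2.1
    intro e he
    have h1 := hsub he
    rw [mem_bd] at h1 ⊢
    rw [h _ (hPe e he).1, h _ (hPe e he).2]
    exact h1
  have hfin : (bd gen L).Finite := by
    by_contra hc
    obtain ⟨F, hF1, hF2⟩ := Set.Infinite.exists_subset_card_eq hc (K + 1)
    have := hcard (F : Set (A × ι)) F.finite_toSet hF1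
    rw [Set.ncard_coe_finset, hF2] at this
    omega
  obtain ⟨P, hP, hPe⟩ := hends _ hfin
  obtain ⟨Y, hY, hne, hag⟩ := hL (P ∪ {x, y}) (hP.union (Set.toFinite _))
  have hbd : ∀ e ∈ bd gen L, (e.1 ∈ Y ↔ e.1 ∈ L) ∧ (e.1 * gen e.2 ∈ Y ↔ e.1 * gen e.2 ∈ L) :=
    fun e he => ⟨hag _ (Or.inl (hPe e he).1), hag _ (Or.inl (hPe e he).2)⟩
  have s1 : Y ⊆ L := by
    rcases hY.2.2.1 L hR (fun e h1 h2 => by
      by_contra hc
      have := hbd e hc
      tauto) with h | h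
    · exfalso
      have : x ∈ Y ∩ L := ⟨hY.2.2.2.2.1, hxL⟩
      rw [h] at this
      exact this
    · intro a ha
      by_contra hc
      have : a ∈ Y ∩ Lᶜ := ⟨ha, hc⟩
      rw [h] at this
      exact this
  have s2 : L ⊆ Y := by
    rcases hY.2.2.2.1 L hR (fun e h1 h2 => by
      by_contra hc
      have := hbd e hc
      rw [Set.mem_compl_iff] at h1 h2
      tauto) with h | h
    · intro a ha
      by_contra hc
      have : a ∈ Yᶜ ∩ L := ⟨hc, ha⟩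
      rw [h] at this
      exact this
    · exfalso
      have : y ∈ Yᶜ ∩ Lᶜ := ⟨hY.2.2.2.2.2, hyL⟩
      rw [h] at this
      exact this
  exact hne (Set.Subset.antisymm s1 s2)

/-- the relevant cuts: minimal for some pair, with at most `K` edges -/
def MM (gen : ι → A) (Z : Subgroup A) (K : ℕ) (X : Set A) : Prop :=
  ∃ u v, UF gen Z u ∧ UF gen Z v ∧ Mn gen Z u v X ∧ (bd gen X).ncard ≤ K

theorem MM.gc {Z : Subgroup A} {K : ℕ} {X : Set A} (h : MM gen Z K X) : GC gen Z X := by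
  obtain ⟨u, v, -, -, h, -⟩ := h
  exact h.1

theorem MM.compl {Z : Subgroup A} {K : ℕ} {X : Set A} (h : MM gen Z K X) : MM gen Z K Xᶜ := by
  obtain ⟨u, v, hu, hv, h, hK⟩ := h
  exact ⟨v, u, hv, hu, h.compl hu hv, by rwa [bd_compl]⟩

theorem MM.tight {Z : Subgroup A} (hgen : Subgroup.closure (Set.range gen ∪ Z) = ⊤) {K : ℕ}
    {X : Set A} (h : MM gen Z K X) : Tt gen Z X := by
  obtain ⟨u, v, hu, hv, h, -⟩ := h
  exact h.tight hgen hu hv

theorem sep_finite {Z : Subgroup A} (hgen : Subgroup.closure (Set.range gen ∪ Z) = ⊤) (K : ℕ)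
    (x y : A) : {Y | MM gen Z K Y ∧ x ∈ Y ∧ y ∉ Y}.Finite := by
  refine (separating_finite (gen := gen) (Z := Z) K x y).subset ?_
  rintro Y ⟨h1, h2, h3⟩
  refine ⟨h1.gc, ?_, h1.tight hgen, h1.compl.tight hgen, h2, h3⟩
  obtain ⟨u, v, -, -, -, hK⟩ := h1
  exact hK

/-- relevant cuts crossing `X` -/
def cr (gen : ι → A) (Z : Subgroup A) (K : ℕ) (X : Set A) : Set (Set A) :=
  {Y | MM gen Z K Y ∧ Cross X Y}

theorem cr_finite {Z : Subgroup A} (hgen : Subgroup.closure (Set.range gen ∪ Z) = ⊤) {K : ℕ}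
    {X : Set A} (hX : GC gen Z X) : (cr gen Z K X).Finite := by
  have hP := Ends_finite hX.2
  have : cr gen Z K X ⊆ ⋃ x ∈ Ends gen X, ⋃ y ∈ Ends gen X,
      {Y | MM gen Z K Y ∧ x ∈ Y ∧ y ∉ Y} := by
    intro Y hY
    obtain ⟨hM, c1, c2, c3, c4⟩ := hY
    obtain ⟨x, hx1, hx2⟩ := Tt.hits hX (hM.tight hgen) (by rwa [Set.inter_comm])
      (by rwa [Set.inter_comm])
    obtain ⟨y, hy1, hy2⟩ := Tt.hits hX (hM.compl.tight hgen) (by rwa [Set.inter_comm])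
      (by rwa [Set.inter_comm])
    simp only [Set.mem_iUnion]
    exact ⟨x, hx2, y, hy2, hM, hx1, hy1⟩
  exact (hP.biUnion fun x _ => hP.biUnion fun y _ => sep_finite hgen K x y).subset this

theorem cross_compl_left {X Y : Set A} : Cross Xᶜ Y ↔ Cross X Y := by
  unfold Cross
  rw [compl_compl]
  tauto

theorem cross_comm {X Y : Set A} : Cross X Y ↔ Cross Y X := by
  unfold Cross
  rw [Set.inter_comm X Y, Set.inter_comm X Yᶜ, Set.inter_comm Xᶜ Y, Set.inter_comm Xᶜ Yᶜ]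
  tauto

theorem cr_compl (Z : Subgroup A) (K : ℕ) (X : Set A) : cr gen Z K Xᶜ = cr gen Z K X := by
  ext Y
  unfold cr
  rw [Set.mem_ofPred_eq, Set.mem_ofPred_eq, cross_compl_left]

theorem not_cross {X Y : Set A} : ¬ Cross X Y ↔ X ∩ Y = ∅ ∨ X ∩ Yᶜ = ∅ ∨ Xᶜ ∩ Y = ∅ ∨
    Xᶜ ∩ Yᶜ = ∅ := by
  unfold Cross
  simp only [not_and_or, Set.not_nonempty_iff_eq_empty]

theorem nested_iff {X Y : Set A} : Nested X Y ↔ ¬ Cross X Y := by
  rw [not_cross]
  unfold Nested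
  simp only [Set.eq_empty_iff_forall_notMem, Set.subset_def, Set.mem_inter_iff, Set.mem_compl_iff]
  constructor
  · rintro (h | h | h | h)
    · right; left; intro x hx; exact hx.2 (h x hx.1)
    · right; right; left; intro x hx; exact hx.1 (h x hx.2)
    · left; intro x hx; exact h x hx.1 hx.2
    · right; right; right; intro x hx; exact hx.2 (h x hx.1)
  · rintro (h | h | h | h)
    · right; right; left; intro x hx hy; exact h x ⟨hx, hy⟩
    · left; intro x hx; by_contra hy; exact h x ⟨hx, hy⟩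
    · right; left; intro x hx; by_contra hy; exact h x ⟨hy, hx⟩
    · right; right; right; intro x hx; by_contra hy; exact h x ⟨hx, hy⟩

theorem cross_both {X Y W : Set A} (hc : Cross X Y) (h : Cross (X ∩ Y) W ∨ Cross (X ∪ Y) W) :
    Cross X W ∨ Cross Y W := by
  by_contra hn
  rw [not_or, not_cross, not_cross] at hn
  obtain ⟨⟨a, ha1, ha2⟩, -, -, ⟨b, hb1, hb2⟩⟩ := hc
  have ea : ∀ P Q : Set A, P ∩ Q = ∅ → ∀ x, x ∈ P → x ∈ Q → False := by
    intro P Q h x hx hy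
    have : x ∈ P ∩ Q := ⟨hx, hy⟩
    rw [h] at this
    exact this
  obtain ⟨hn1, hn2⟩ := hn
  rcases h with ⟨⟨p, hp1, hp2⟩, ⟨q, hq1, hq2⟩, ⟨r, hr1, hr2⟩, ⟨s, hs1, hs2⟩⟩ |
    ⟨⟨p, hp1, hp2⟩, ⟨q, hq1, hq2⟩, ⟨r, hr1, hr2⟩, ⟨s, hs1, hs2⟩⟩
  · have k : ∀ V : Set A, X ∩ Y ⊆ V → (V ∩ W = ∅ ∨ V ∩ Wᶜ = ∅ ∨ Vᶜ ∩ W = ∅ ∨ Vᶜ ∩ Wᶜ = ∅) →
        (∀ x, x ∈ W → x ∈ V) ∨ (∀ x, x ∉ W → x ∈ V) := by
      rintro V hV (h | h | h | h)
      · exact (ea _ _ h p (hV hp1) hp2).elim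
      · exact (ea _ _ h q (hV hq1) hq2).elim
      · exact Or.inl fun x hx => by_contra fun hc => ea _ _ h x hc hx
      · exact Or.inr fun x hx => by_contra fun hc => ea _ _ h x hc hx
    rcases k X Set.inter_subset_left hn1 with h1 | h1 <;>
    rcases k Y Set.inter_subset_right hn2 with h2 | h2
    · exact hr1 ⟨h1 r hr2, h2 r hr2⟩
    · by_cases hb : b ∈ W
      · exact hb1 (h1 b hb)
      · exact hb2 (h2 b hb)
    · by_cases hb : b ∈ W
      · exact hb2 (h2 b hb)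
      · exact hb1 (h1 b hb)
    · exact hs1 ⟨h1 s hs2, h2 s hs2⟩
  · have k : ∀ V : Set A, V ⊆ X ∪ Y → (V ∩ W = ∅ ∨ V ∩ Wᶜ = ∅ ∨ Vᶜ ∩ W = ∅ ∨ Vᶜ ∩ Wᶜ = ∅) →
        (∀ x, x ∈ V → x ∉ W) ∨ (∀ x, x ∈ V → x ∈ W) := by
      rintro V hV (h | h | h | h)
      · exact Or.inl fun x hx hc => ea _ _ h x hx hc
      · exact Or.inr fun x hx => by_contra fun hc => ea _ _ h x hx hc
      · exact (ea _ _ h r (fun hc => hr1 (hV hc)) hr2).elim
      · exact (ea _ _ h s (fun hc => hs1 (hV hc)) hs2).elim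
    rcases k X Set.subset_union_left hn1 with h1 | h1 <;>
    rcases k Y Set.subset_union_right hn2 with h2 | h2
    · rcases hp1 with hp1 | hp1
      · exact h1 p hp1 hp2
      · exact h2 p hp1 hp2
    · exact h1 a ha1 (h2 a ha2)
    · exact h2 a ha2 (h1 a ha1)
    · rcases hq1 with hq1 | hq1
      · exact hq2 (h1 q hq1)
      · exact hq2 (h2 q hq1)

theorem cross_both' {X Y W : Set A} (h : Cross (X ∩ Y) W ∧ Cross (X ∪ Y) W) :
    Cross X W ∧ Cross Y W := by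
  obtain ⟨⟨⟨p, hp⟩, ⟨q, hq⟩, -, -⟩, ⟨-, -, ⟨r, hr⟩, ⟨s, hs⟩⟩⟩ := h
  simp only [Set.mem_inter_iff, Set.mem_compl_iff, Set.mem_union] at hp hq hr hs
  refine ⟨⟨⟨p, ?_, ?_⟩, ⟨q, ?_, ?_⟩, ⟨r, ?_, ?_⟩, ⟨s, ?_, ?_⟩⟩,
    ⟨⟨p, ?_, ?_⟩, ⟨q, ?_, ?_⟩, ⟨r, ?_, ?_⟩, ⟨s, ?_, ?_⟩⟩⟩ <;>
  (try simp only [Set.mem_compl_iff]) <;> tauto

/-- uncrossing decreases the number of crossings -/
theorem cr_lt {Z : Subgroup A} (hgen : Subgroup.closure (Set.range gen ∪ Z) = ⊤) {K : ℕ}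
    {X Y : Set A} (hX : MM gen Z K X) (hY : GC gen Z Y) (hYX : Cross X Y) :
    (cr gen Z K (X ∩ Y)).ncard + (cr gen Z K (X ∪ Y)).ncard <
      (cr gen Z K X).ncard + (cr gen Z K Y).ncard := by
  have hfX := cr_finite hgen (K := K) hX.gc
  have hfY := cr_finite hgen (K := K) hY
  have hfE := cr_finite hgen (K := K) (hX.gc.inter hY)
  have hfE' := cr_finite hgen (K := K) (hX.gc.union hY)
  have hXY : X ∈ cr gen Z K Y := ⟨hX, cross_comm.mp hYX⟩
  have s1 : cr gen Z K (X ∩ Y) ∪ cr gen Z K (X ∪ Y) ⊆ (cr gen Z K X ∪ cr gen Z K Y) \ {X} := by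
    intro W hW
    refine ⟨?_, ?_⟩
    · have hM : MM gen Z K W := by
        rcases hW with h | h
        · exact h.1
        · exact h.1
      rcases cross_both hYX (W := W) (by
        rcases hW with h | h
        · exact Or.inl h.2
        · exact Or.inr h.2) with h | h
      · exact Or.inl ⟨hM, h⟩
      · exact Or.inr ⟨hM, h⟩
    · rintro rfl
      rcases hW with h | h
      · obtain ⟨x, hx1, hx2⟩ := h.2.2.1
        exact hx2 hx1.1
      · obtain ⟨x, hx1, hx2⟩ := h.2.2.2.1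
        exact hx1 (Or.inl hx2)
  have s2 : cr gen Z K (X ∩ Y) ∩ cr gen Z K (X ∪ Y) ⊆ cr gen Z K X ∩ cr gen Z K Y := by
    rintro W ⟨h1, h2⟩
    have := cross_both' ⟨h1.2, h2.2⟩
    exact ⟨⟨h1.1, this.1⟩, ⟨h1.1, this.2⟩⟩
  have c1 := Set.ncard_union_add_ncard_inter _ _ hfE hfE'
  have c2 := Set.ncard_union_add_ncard_inter _ _ hfX hfY
  have c3 := Set.ncard_le_ncard s1 ((hfX.union hfY).sdiff)
  have c4 := Set.ncard_le_ncard s2 (hfX.inter_of_left _)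
  have c5 : ((cr gen Z K X ∪ cr gen Z K Y) \ {X}).ncard < (cr gen Z K X ∪ cr gen Z K Y).ncard :=
    Set.ncard_sdiff_singleton_lt_of_mem (Or.inr hXY) (hfX.union hfY)
  omega

/-- optimal cuts for a pair -/
def Op (gen : ι → A) (Z : Subgroup A) (K : ℕ) (u v : Set A → Prop) (X : Set A) : Prop :=
  Mn gen Z u v X ∧ (bd gen X).ncard ≤ K ∧
    ∀ Y, Mn gen Z u v Y → (cr gen Z K X).ncard ≤ (cr gen Z K Y).ncard

theorem Op.compl {Z : Subgroup A} {K : ℕ} {u v : Set A → Prop} (hu : UF gen Z u)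
    (hv : UF gen Z v) {X : Set A} (h : Op gen Z K u v X) : Op gen Z K v u Xᶜ := by
  refine ⟨h.1.compl hu hv, by rw [bd_compl]; exact h.2.1, fun Y hY => ?_⟩
  rw [cr_compl, ← cr_compl Z K Y]
  exact h.2.2 _ (hY.compl hv hu)

/-- first type of corner argument -/
theorem corner1 {Z : Subgroup A} (hgen : Subgroup.closure (Set.range gen ∪ Z) = ⊤) {K : ℕ}
    {u v u' v' : Set A → Prop} (hu : UF gen Z u) (hv : UF gen Z v) (hu' : UF gen Z u')
    (hv' : UF gen Z v') {X Y : Set A} (hX : Op gen Z K u v X) (hY : Op gen Z K u' v' Y)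
    (hc : Cross X Y) (h1 : u Y) (h2 : ¬ v' X) : False := by
  have gX := hX.1.1
  have gY := hY.1.1
  have a1 : u (X ∩ Y) := (hu.inter' gX gY).mpr ⟨hX.1.2.1, h1⟩
  have a2 : ¬ v (X ∩ Y) := fun h => hX.1.2.2.1 ((hv.inter' gX gY).mp h).1
  have a3 : u' (X ∪ Y) := (hu'.union' gX gY).mpr (Or.inr hY.1.2.1)
  have a4 : ¬ v' (X ∪ Y) := fun h => by
    rcases (hv'.union' gX gY).mp h with h | h
    · exact h2 h
    · exact hY.1.2.2.1 h
  have e1 := hX.1.2.2.2 _ (gX.inter gY) a1 a2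
  have e2 := hY.1.2.2.2 _ (gX.union gY) a3 a4
  have e3 := submod X Y gX.2 gY.2
  have m1 : Mn gen Z u v (X ∩ Y) := ⟨gX.inter gY, a1, a2, fun W hW h3 h4 => by
    have := hX.1.2.2.2 W hW h3 h4
    omega⟩
  have m2 : Mn gen Z u' v' (X ∪ Y) := ⟨gX.union gY, a3, a4, fun W hW h3 h4 => by
    have := hY.1.2.2.2 W hW h3 h4
    omega⟩
  have c1 := hX.2.2 _ m1
  have c2 := hY.2.2 _ m2
  have c3 := cr_lt hgen ⟨u, v, hu, hv, hX.1, hX.2.1⟩ gY hc
  omega

/-- second type of corner argument -/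
theorem corner2 {Z : Subgroup A} (hgen : Subgroup.closure (Set.range gen ∪ Z) = ⊤) {K : ℕ}
    {u v u' v' : Set A → Prop} (hu : UF gen Z u) (hv : UF gen Z v) (hu' : UF gen Z u')
    (hv' : UF gen Z v') {X Y : Set A} (hX : Op gen Z K u v X) (hY : Op gen Z K u' v' Y)
    (hc : Cross X Y) (h1 : u Y) (h2 : ¬ v Y) (h3 : ¬ u' X) (h4 : v' X) : False := by
  have gX := hX.1.1
  have gY := hY.1.1
  have b1 := hX.1.2.2.2 Y gY h1 h2
  have b2 := hY.1.2.2.2 Xᶜ gX.compl ((hu'.compl' gX).mpr h3) (by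
    rw [hv'.compl' gX]
    exact fun h => h h4)
  rw [bd_compl] at b2
  -- first pair of corners
  have a1 : u (X ∩ Y) := (hu.inter' gX gY).mpr ⟨hX.1.2.1, h1⟩
  have a2 : ¬ v (X ∩ Y) := fun h => hX.1.2.2.1 ((hv.inter' gX gY).mp h).1
  have a3 : u (X ∪ Y) := (hu.union' gX gY).mpr (Or.inl hX.1.2.1)
  have a4 : ¬ v (X ∪ Y) := fun h => by
    rcases (hv.union' gX gY).mp h with h | h
    · exact hX.1.2.2.1 h
    · exact h2 h
  have e1 := hX.1.2.2.2 _ (gX.inter gY) a1 a2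
  have e2 := hX.1.2.2.2 _ (gX.union gY) a3 a4
  have e3 := submod X Y gX.2 gY.2
  have m1 : Mn gen Z u v (X ∩ Y) := ⟨gX.inter gY, a1, a2, fun W hW h3 h4 => by
    have := hX.1.2.2.2 W hW h3 h4
    omega⟩
  have m2 : Mn gen Z u v (X ∪ Y) := ⟨gX.union gY, a3, a4, fun W hW h3 h4 => by
    have := hX.1.2.2.2 W hW h3 h4
    omega⟩
  have c1 := hX.2.2 _ m1
  have c2 := hX.2.2 _ m2
  have c3 := cr_lt hgen ⟨u, v, hu, hv, hX.1, hX.2.1⟩ gY hc
  -- second pair of corners, for `X` and `Yᶜ`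
  have hc' : Cross X Yᶜ := by
    rw [cross_comm, cross_compl_left, cross_comm]
    exact hc
  have vY : v' Yᶜ := (hv'.compl' gY).mpr hY.1.2.2.1
  have uY : ¬ u' Yᶜ := by
    rw [hu'.compl' gY]
    exact fun h => h hY.1.2.1
  have gY' := gY.compl
  have hY' := hY.compl hu' hv'
  have a1 : v' (X ∩ Yᶜ) := (hv'.inter' gX gY').mpr ⟨h4, vY⟩
  have a2 : ¬ u' (X ∩ Yᶜ) := fun h => h3 ((hu'.inter' gX gY').mp h).1
  have a3 : v' (X ∪ Yᶜ) := (hv'.union' gX gY').mpr (Or.inl h4)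
  have a4 : ¬ u' (X ∪ Yᶜ) := fun h => by
    rcases (hu'.union' gX gY').mp h with h | h
    · exact h3 h
    · exact uY h
  have e1' := hY'.1.2.2.2 _ (gX.inter gY') a1 a2
  have e2' := hY'.1.2.2.2 _ (gX.union gY') a3 a4
  have e3' := submod X Yᶜ gX.2 gY'.2
  rw [bd_compl] at e1' e2' e3'
  have m1' : Mn gen Z v' u' (X ∩ Yᶜ) := ⟨gX.inter gY', a1, a2, fun W hW h3 h4 => by
    have := hY'.1.2.2.2 W hW h3 h4
    rw [bd_compl] at this
    omega⟩
  have m2' : Mn gen Z v' u' (X ∪ Yᶜ) := ⟨gX.union gY', a3, a4, fun W hW h3 h4 => by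
    have := hY'.1.2.2.2 W hW h3 h4
    rw [bd_compl] at this
    omega⟩
  have c1' := hY'.2.2 _ m1'
  have c2' := hY'.2.2 _ m2'
  have c3' := cr_lt hgen ⟨u, v, hu, hv, hX.1, hX.2.1⟩ gY' hc'
  rw [cr_compl] at c1' c2' c3'
  omega

theorem nested_op {Z : Subgroup A} (hgen : Subgroup.closure (Set.range gen ∪ Z) = ⊤) {K : ℕ}
    {u v u' v' : Set A → Prop} (hu : UF gen Z u) (hv : UF gen Z v) (hu' : UF gen Z u')
    (hv' : UF gen Z v') {X Y : Set A} (hX : Op gen Z K u v X) (hY : Op gen Z K u' v' Y) :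
    ¬ Cross X Y := by
  intro hc
  have gX := hX.1.1
  have gY := hY.1.1
  have hc2 : Cross Y X := cross_comm.mp hc
  have hcY : Cross X Yᶜ := by
    rw [cross_comm, cross_compl_left]
    exact hc2
  have hcX : Cross Yᶜ X := cross_compl_left.mpr hc2
  have hY' := hY.compl hu' hv'
  have k1 : ¬ (u Y ∧ ¬ v' X) := fun h => corner1 hgen hu hv hu' hv' hX hY hc h.1 h.2
  have k2 : ¬ (u' X ∧ ¬ v Y) := fun h => corner1 hgen hu' hv' hu hv hY hX hc2 h.1 h.2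
  have k3 : ¬ (¬ u Y ∧ ¬ u' X) := fun h =>
    corner1 hgen hu hv hv' hu' hX hY' hcY ((hu.compl' gY).mpr h.1) h.2
  have k4 : ¬ (v' X ∧ v Y) := fun h =>
    corner1 hgen hv' hu' hu hv hY' hX hcX h.1 (by
      rw [hv.compl' gY]
      exact fun h2 => h2 h.2)
  have k5 : ¬ (u Y ∧ ¬ v Y ∧ ¬ u' X ∧ v' X) := fun h =>
    corner2 hgen hu hv hu' hv' hX hY hc h.1 h.2.1 h.2.2.1 h.2.2.2
  have k6 : ¬ (¬ u Y ∧ v Y ∧ u' X ∧ ¬ v' X) := fun h =>
    corner2 hgen hu hv hv' hu' hX hY' hcY ((hu.compl' gY).mpr h.1) (by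
      rw [hv.compl' gY]
      exact fun h2 => h2 h.2.1) h.2.2.2 h.2.2.1
  tauto

/-- translates of ultrafilters -/
theorem UF.tr {Z : Subgroup A} {u : Set A → Prop} (hu : UF gen Z u) (a : A) :
    UF gen Z (fun X => u (tr a⁻¹ X)) := by
  refine ⟨fun X h1 h2 => ?_, fun X Y h1 h2 h3 h4 => ?_⟩
  · have := GC.tr (gen := gen) ⟨h1, h2⟩ a⁻¹
    exact hu.compl _ this.1 this.2
  · have g1 := GC.tr (gen := gen) ⟨h1, h2⟩ a⁻¹
    have g2 := GC.tr (gen := gen) ⟨h3, h4⟩ a⁻¹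
    exact hu.inter _ _ g1.1 g1.2 g2.1 g2.2

theorem ncard_bd_tr (a : A) (X : Set A) : (bd gen (tr a X)).ncard = (bd gen X).ncard := by
  rw [bd_tr, Set.ncard_image_of_injective _ (inj_shift a)]

theorem Mn.tr {Z : Subgroup A} {u v : Set A → Prop} {X : Set A} (h : Mn gen Z u v X) (a : A) :
    Mn gen Z (fun X => u (tr a⁻¹ X)) (fun X => v (tr a⁻¹ X)) (tr a X) := by
  refine ⟨h.1.tr a, ?_, ?_, fun Y hY h1 h2 => ?_⟩
  · change u (LR.tr a⁻¹ (LR.tr a X))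
    rw [tr_tr, inv_mul_cancel, tr_one]
    exact h.2.1
  · change ¬ v (LR.tr a⁻¹ (LR.tr a X))
    rw [tr_tr, inv_mul_cancel, tr_one]
    exact h.2.2.1
  · rw [ncard_bd_tr, ← ncard_bd_tr a⁻¹ Y]
    exact h.2.2.2 _ (hY.tr _) h1 h2

theorem MM.tr {Z : Subgroup A} {K : ℕ} {X : Set A} (h : MM gen Z K X) (a : A) :
    MM gen Z K (tr a X) := by
  obtain ⟨u, v, hu, hv, h, hK⟩ := h
  exact ⟨_, _, hu.tr a, hv.tr a, h.tr a, by rwa [ncard_bd_tr]⟩

theorem cross_tr (a : A) {X Y : Set A} (h : Cross X Y) : Cross (tr a X) (tr a Y) := by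
  have key : ∀ P Q : Set A, (P ∩ Q).Nonempty → (tr a P ∩ tr a Q).Nonempty := by
    rintro P Q ⟨x, hx1, hx2⟩
    refine ⟨a * x, ?_, ?_⟩
    · rw [mem_tr, inv_mul_cancel_left]; exact hx1
    · rw [mem_tr, inv_mul_cancel_left]; exact hx2
  exact ⟨key _ _ h.1, key _ _ h.2.1, key _ _ h.2.2.1, key _ _ h.2.2.2⟩

theorem cr_tr (Z : Subgroup A) (K : ℕ) (a : A) (X : Set A) :
    cr gen Z K (tr a X) = tr a '' cr gen Z K X := by
  ext Y
  constructor
  · rintro ⟨h1, h2⟩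
    refine ⟨tr a⁻¹ Y, ⟨h1.tr _, ?_⟩, ?_⟩
    · have := cross_tr a⁻¹ h2
      rwa [tr_tr, inv_mul_cancel, tr_one] at this
    · rw [tr_tr, mul_inv_cancel, tr_one]
  · rintro ⟨W, ⟨h1, h2⟩, rfl⟩
    exact ⟨h1.tr a, cross_tr a h2⟩

theorem Mn.tr_back {Z : Subgroup A} {u v : Set A → Prop} {Y : Set A} (a : A)
    (h : Mn gen Z (fun X => u (LR.tr a⁻¹ X)) (fun X => v (LR.tr a⁻¹ X)) Y) :
    Mn gen Z u v (LR.tr a⁻¹ Y) := by
  refine ⟨h.1.tr _, h.2.1, h.2.2.1, fun W hW h1 h2 => ?_⟩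
  rw [ncard_bd_tr, ← ncard_bd_tr a W]
  refine h.2.2.2 _ (hW.tr _) ?_ ?_
  · change u (LR.tr a⁻¹ (LR.tr a W))
    rw [tr_tr, inv_mul_cancel, tr_one]
    exact h1
  · change ¬ v (LR.tr a⁻¹ (LR.tr a W))
    rw [tr_tr, inv_mul_cancel, tr_one]
    exact h2

theorem Op.tr {Z : Subgroup A} {K : ℕ} {u v : Set A → Prop} {X : Set A}
    (h : Op gen Z K u v X) (a : A) :
    Op gen Z K (fun X => u (tr a⁻¹ X)) (fun X => v (tr a⁻¹ X)) (tr a X) := by
  refine ⟨h.1.tr a, by rw [ncard_bd_tr]; exact h.2.1, fun Y hY => ?_⟩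
  have h1 := h.2.2 _ (hY.tr_back a)
  rw [cr_tr, Set.ncard_image_of_injective _ (tr_injective a)]
  rwa [cr_tr, Set.ncard_image_of_injective _ (tr_injective _)] at h1

theorem exists_op {Z : Subgroup A} {K : ℕ} {u v : Set A → Prop} {X : Set A}
    (hX : GC gen Z X) (hK : (bd gen X).ncard ≤ K) (h1 : u X) (h2 : ¬ v X) :
    ∃ Y, Op gen Z K u v Y := by
  obtain ⟨Y, hY, hYK⟩ : ∃ Y, Mn gen Z u v Y ∧ (bd gen Y).ncard ≤ K := by
    have hne : {X | GC gen Z X ∧ u X ∧ ¬ v X}.Nonempty := ⟨X, hX, h1, h2⟩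
    obtain ⟨Y, hY1, hY2⟩ := Function.argminOn_mem (fun X : Set A => (bd gen X).ncard) _ hne |>
      fun h => (⟨_, h, fun Y (hY : GC gen Z Y ∧ u Y ∧ ¬ v Y) =>
        Function.argminOn_le (fun X : Set A => (bd gen X).ncard)
          {X | GC gen Z X ∧ u X ∧ ¬ v X} hY⟩ :
        ∃ X, (GC gen Z X ∧ u X ∧ ¬ v X) ∧ ∀ Y, (GC gen Z Y ∧ u Y ∧ ¬ v Y) →
          (bd gen X).ncard ≤ (bd gen Y).ncard)
    exact ⟨Y, ⟨hY1.1, hY1.2.1, hY1.2.2, fun W hW a b => hY2 W ⟨hW, a, b⟩⟩,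
      le_trans (hY2 X ⟨hX, h1, h2⟩) hK⟩
  have hne : {X | Mn gen Z u v X}.Nonempty := ⟨Y, hY⟩
  have hm := Function.argminOn_mem (fun X : Set A => (cr gen Z K X).ncard) _ hne
  refine ⟨_, hm, ?_, fun W hW =>
    Function.argminOn_le (fun X : Set A => (cr gen Z K X).ncard) {X | Mn gen Z u v X} hW⟩
  rw [Mn.eq hm hY]
  exact hYK

/-- **Nested families of optimal cuts.** -/
theorem exists_nest {A : Type} [Group A] {ι : Type} (gen : ι → A) (Z : Subgroup A)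
    (hgen : Subgroup.closure (Set.range gen ∪ Z) = ⊤) (K : ℕ) :
    ∃ E : Set (Set A), NF E ∧ (∀ X ∈ E, RInv Z X ∧ (bd gen X).Finite) ∧
      (∀ X ∈ E, ∀ a, tr a X ∈ E) ∧
      ∀ u v, UF gen Z u → UF gen Z v → ∀ X, RInv Z X → (bd gen X).Finite →
        (bd gen X).ncard ≤ K → u X → ¬ v X → ∃ Y ∈ E, u Y ∧ ¬ v Y := by
  refine ⟨{X | ∃ u v, UF gen Z u ∧ UF gen Z v ∧ Op gen Z K u v X}, ⟨?_, ?_, ?_, ?_⟩, ?_, ?_, ?_⟩
  · rintro X ⟨u, v, hu, hv, h⟩
    rw [Set.nonempty_iff_ne_empty]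
    rintro rfl
    exact hu.empty h.1.2.1
  · rintro X ⟨u, v, hu, hv, h⟩
    exact ⟨v, u, hv, hu, h.compl hu hv⟩
  · rintro X ⟨u, v, hu, hv, h⟩ Y ⟨u', v', hu', hv', h'⟩
    rw [nested_iff]
    exact nested_op hgen hu hv hu' hv' h h'
  · intro x y
    refine (sep_finite hgen K x y).subset ?_
    rintro X ⟨⟨u, v, hu, hv, h⟩, h1, h2⟩
    exact ⟨⟨u, v, hu, hv, h.1, h.2.1⟩, h1, h2⟩
  · rintro X ⟨u, v, hu, hv, h⟩
    exact h.1.1
  · rintro X ⟨u, v, hu, hv, h⟩ a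
    exact ⟨_, _, hu.tr a, hv.tr a, h.tr a⟩
  · intro u v hu hv X h1 h2 h3 h4 h5
    obtain ⟨Y, hY⟩ := exists_op ⟨h1, h2⟩ h3 h4 h5
    exact ⟨Y, ⟨u, v, hu, hv, hY⟩, hY.1.2.1, hY.1.2.2.1⟩

end Pool.Agent.N816.LR
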