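import Pool.Agent.N816.LR.Abs

set_option autoImplicit false
set_option linter.unusedSectionVars false

/-!
# The pairs `Gs φ S₁ ≤ Gs φ S₂`
-/

namespace Pool.Agent.N816.LR

/-! ## Almost invariant sets and ends -/

section

variable {A : Type} [Group A] {ι : Type} {gen : ι → A}

theorem ai {Z : Subgroup A} (hgen : Subgroup.closure (Set.range gen ∪ Z) = ⊤) {X : Set A}
    (hX : RInv Z X) (hb : (bd gen X).Finite) (b : A) : {g | ¬ (g ∈ X ↔ g * b ∈ X)}.Finite := by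
  have hbm : b ∈ Subgroup.closure (Set.range gen ∪ Z) := by rw [hgen]; trivial
  induction hbm using Subgroup.closure_induction with
  | mem x hx =>
    rcases hx with ⟨i, rfl⟩ | hx
    · refine (hb.image Prod.fst).subset ?_
      intro g hg
      exact ⟨(g, i), hg, rfl⟩
    · have : {g | ¬ (g ∈ X ↔ g * x ∈ X)} = ∅ := by
        ext g
        simp only [Set.mem_ofPred_eq, Set.mem_empty_iff_false, iff_false, not_not]
        exact (hX g x hx).symm
      rw [this]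
      exact Set.finite_empty
  | one =>
    have : {g | ¬ (g ∈ X ↔ g * 1 ∈ X)} = ∅ := by
      ext g
      simp
    rw [this]
    exact Set.finite_empty
  | mul x y _ _ hx hy =>
    have h1 : {g | ¬ (g * x ∈ X ↔ g * x * y ∈ X)}.Finite :=
      hy.preimage (mul_left_injective x).injOn
    refine (hx.union h1).subset ?_
    intro g hg
    simp only [Set.mem_union, Set.mem_ofPred_eq] at hg ⊢
    rw [← mul_assoc] at hg
    tauto
  | inv x _ hx =>
    refine (hx.image fun g => g * x).subset ?_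
    intro g hg
    refine ⟨g * x⁻¹, ?_, by simp⟩
    simp only [Set.mem_ofPred_eq, inv_mul_cancel_right] at hg ⊢
    tauto

theorem uf_pt (Z : Subgroup A) (a : A) : UF gen Z (fun X => a ∈ X) :=
  ⟨fun _ _ _ => Iff.rfl, fun _ _ _ _ _ _ => Iff.rfl⟩

theorem ev_const {Z : Subgroup A} (hgen : Subgroup.closure (Set.range gen ∪ Z) = ⊤) {m : A}
    (hm : Function.Injective fun k : ℕ => m ^ k) {X : Set A} (hX : RInv Z X)
    (hb : (bd gen X).Finite) : ∃ k₀ : ℕ, ∀ k ≥ k₀, (m ^ k ∈ X ↔ m ^ k₀ ∈ X) := by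
  have h1 := ai hgen hX hb m
  have h2 : {k : ℕ | ¬ (m ^ k ∈ X ↔ m ^ k * m ∈ X)}.Finite := h1.preimage hm.injOn
  obtain ⟨M, hM⟩ := h2.bddAbove
  refine ⟨M + 1, fun k hk => ?_⟩
  induction k, hk using Nat.le_induction with
  | base => rfl
  | succ k hk ih =>
    rw [← ih, pow_succ]
    by_contra hc
    have : k ≤ M := hM (show k ∈ {k : ℕ | ¬ (m ^ k ∈ X ↔ m ^ k * m ∈ X)} from fun h => hc h.symm)
    omega

theorem uf_end {Z : Subgroup A} (hgen : Subgroup.closure (Set.range gen ∪ Z) = ⊤) {m : A}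
    (hm : Function.Injective fun k : ℕ => m ^ k) :
    UF gen Z (fun X => ∃ k₀ : ℕ, ∀ k ≥ k₀, m ^ k ∈ X) := by
  refine ⟨fun X h1 h2 => ?_, fun X Y h1 h2 h3 h4 => ?_⟩
  · obtain ⟨k₀, hk⟩ := ev_const hgen hm h1 h2
    constructor
    · rintro ⟨k₁, h3⟩ ⟨k₂, h4⟩
      exact h3 (max k₁ k₂) (le_max_left _ _) (h4 _ (le_max_right _ _))
    · intro h
      refine ⟨k₀, fun k hkk hc => h ⟨k₀, fun j hj => ?_⟩⟩
      rw [hk j hj]
      exact (hk k hkk).mp hc
  · constructor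
    · rintro ⟨k₀, h⟩
      exact ⟨⟨k₀, fun k hk => (h k hk).1⟩, ⟨k₀, fun k hk => (h k hk).2⟩⟩
    · rintro ⟨⟨k₀, h⟩, ⟨k₁, h'⟩⟩
      exact ⟨max k₀ k₁, fun k hk => ⟨h k (le_trans (le_max_left _ _) hk),
        h' k (le_trans (le_max_right _ _) hk)⟩⟩

theorem stab_finite {Z : Subgroup A} (hgen : Subgroup.closure (Set.range gen ∪ Z) = ⊤) {X : Set A}
    (hX : RInv Z X) (hb : (bd gen X).Finite) (hne : X.Nonempty) (hne' : Xᶜ.Nonempty) :
    {a | tr a X = X}.Finite := by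
  have hbd : (bd gen X).Nonempty := by
    rw [Set.nonempty_iff_ne_empty]
    intro h
    rcases bd_empty_imp hgen X hX h with h | h
    · rw [h] at hne
      exact Set.not_nonempty_empty hne
    · rw [h, Set.compl_univ] at hne'
      exact Set.not_nonempty_empty hne'
  obtain ⟨e, he⟩ := hbd
  refine Set.Finite.of_injOn (f := fun a : A => ((a * e.1, e.2) : A × ι)) (t := bd gen X) ?_ ?_ hb
  · intro a ha
    change tr a X = X at ha
    rw [← ha, bd_tr]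
    exact ⟨e, he, rfl⟩
  · intro a _ b _ h
    simp only [Prod.mk.injEq, mul_left_inj] at h
    exact h.1

end

variable {B Q : Type} [Group Q]

theorem D_mono {S T : Set B} (h : S ⊆ T) : D S ≤ D T := Subgroup.closure_mono (Set.image_mono h)

theorem II_mono (φ : Q →* MulAut (FreeGroup B)) {S T : Set B} (h : S ⊆ T) : II φ S ≤ II φ T :=
  fun _ hx q => D_mono h (hx q)

theorem mem_Gs {φ : Q →* MulAut (FreeGroup B)} {S : Set B} {g : FreeGroup B ⋊[φ] Q} :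
    g ∈ Gs φ S ↔ g.left ∈ II φ S := Iff.rfl

theorem Gs_mono (φ : Q →* MulAut (FreeGroup B)) {S T : Set B} (h : S ⊆ T) : Gs φ S ≤ Gs φ T :=
  fun _ hg => II_mono φ h hg

theorem D_le_II {φ : Q →* MulAut (FreeGroup B)} {S : Set B}
    (hc : ∀ q : Q, ∀ x ∈ D S, φ q x ∈ D S) : D S ≤ II φ S := fun x hx q => hc q x hx

theorem II_le_D (φ : Q →* MulAut (FreeGroup B)) (S : Set B) : II φ S ≤ D S := by
  intro x hx
  have := hx 1
  rwa [map_one, MulAut.one_apply] at this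

theorem inr_mem_Gs (φ : Q →* MulAut (FreeGroup B)) (S : Set B) (q : Q) :
    SemidirectProduct.inr q ∈ Gs φ S := by
  rw [mem_Gs, SemidirectProduct.left_inr]
  exact one_mem _

theorem inl_mem_Gs {φ : Q →* MulAut (FreeGroup B)} {S : Set B} {x : FreeGroup B} :
    SemidirectProduct.inl x ∈ Gs φ S ↔ x ∈ II φ S := by
  rw [mem_Gs, SemidirectProduct.left_inl]

/-- The base group inside `Gs φ S₂`. -/
def Zs (φ : Q →* MulAut (FreeGroup B)) (S₁ S₂ : Set B) : Subgroup (Gs φ S₂) :=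
  (Gs φ S₁).subgroupOf (Gs φ S₂)

theorem mem_Zs {φ : Q →* MulAut (FreeGroup B)} {S₁ S₂ : Set B} {g : Gs φ S₂} :
    g ∈ Zs φ S₁ S₂ ↔ (g : FreeGroup B ⋊[φ] Q).left ∈ II φ S₁ := Iff.rfl

/-- The generators. -/
def gn (φ : Q →* MulAut (FreeGroup B)) (S₂ : Set B) (T : Set (FreeGroup B))
    (hT : T ⊆ II φ S₂) : T → Gs φ S₂ :=
  fun t => ⟨SemidirectProduct.inl t, inl_mem_Gs.mpr (hT t.2)⟩

theorem gen_top (φ : Q →* MulAut (FreeGroup B)) {S₀ S₁ S₂ : Set B} (h01 : S₀ ⊆ S₁) (h12 : S₁ ⊆ S₂)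
    (hc : ∀ q : Q, ∀ x ∈ D S₀, φ q x ∈ D S₀) {T : Set (FreeGroup B)} (hT : T ⊆ II φ S₂)
    (hle : II φ S₂ ≤ Subgroup.closure (T ∪ D S₀)) :
    Subgroup.closure (Set.range (gn φ S₂ T hT) ∪ Zs φ S₁ S₂) = ⊤ := by
  rw [eq_top_iff]
  rintro a -
  have key : ∀ x ∈ Subgroup.closure (T ∪ (D S₀ : Set (FreeGroup B))),
      ∃ h : SemidirectProduct.inl x ∈ Gs φ S₂, (⟨SemidirectProduct.inl x, h⟩ : Gs φ S₂) ∈
        Subgroup.closure (Set.range (gn φ S₂ T hT) ∪ Zs φ S₁ S₂) := by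
    intro x hx
    induction hx using Subgroup.closure_induction with
    | mem x hx =>
      rcases hx with hx | hx
      · exact ⟨inl_mem_Gs.mpr (hT hx), Subgroup.subset_closure (Or.inl ⟨⟨x, hx⟩, rfl⟩)⟩
      · have h1 : x ∈ II φ S₁ := II_mono φ h01 (D_le_II hc hx)
        refine ⟨inl_mem_Gs.mpr (II_mono φ h12 h1), Subgroup.subset_closure (Or.inr ?_)⟩
        change _ ∈ Zs φ S₁ S₂
        rw [mem_Zs]
        change (SemidirectProduct.inl x : FreeGroup B ⋊[φ] Q).left ∈ II φ S₁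
        rw [SemidirectProduct.left_inl]
        exact h1
    | one =>
      refine ⟨inl_mem_Gs.mpr (one_mem _), ?_⟩
      have : (⟨SemidirectProduct.inl 1, inl_mem_Gs.mpr (one_mem _)⟩ : Gs φ S₂) = 1 := by
        apply Subtype.ext
        change (SemidirectProduct.inl 1 : FreeGroup B ⋊[φ] Q) = 1
        rw [map_one]
      rw [this]
      exact one_mem _
    | mul x y _ _ hx hy =>
      obtain ⟨h1, h2⟩ := hx
      obtain ⟨h3, h4⟩ := hy
      have h5 : (SemidirectProduct.inl (x * y) : FreeGroup B ⋊[φ] Q) ∈ Gs φ S₂ := by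
        rw [map_mul]
        exact mul_mem h1 h3
      refine ⟨h5, ?_⟩
      have : (⟨SemidirectProduct.inl (x * y), h5⟩ : Gs φ S₂) =
          ⟨SemidirectProduct.inl x, h1⟩ * ⟨SemidirectProduct.inl y, h3⟩ := by
        apply Subtype.ext
        change (SemidirectProduct.inl (x * y) : FreeGroup B ⋊[φ] Q) = _ * _
        rw [map_mul]
      rw [this]
      exact mul_mem h2 h4
    | inv x _ hx =>
      obtain ⟨h1, h2⟩ := hx
      have h5 : (SemidirectProduct.inl x⁻¹ : FreeGroup B ⋊[φ] Q) ∈ Gs φ S₂ := by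
        rw [map_inv]
        exact inv_mem h1
      refine ⟨h5, ?_⟩
      have : (⟨SemidirectProduct.inl x⁻¹, h5⟩ : Gs φ S₂) =
          (⟨SemidirectProduct.inl x, h1⟩)⁻¹ := by
        apply Subtype.ext
        change (SemidirectProduct.inl x⁻¹ : FreeGroup B ⋊[φ] Q) = _⁻¹
        rw [map_inv]
      rw [this]
      exact inv_mem h2
  obtain ⟨h1, h2⟩ := key _ (hle a.2)
  have e : a = ⟨SemidirectProduct.inl (a : FreeGroup B ⋊[φ] Q).left, h1⟩ *
      ⟨SemidirectProduct.inr (a : FreeGroup B ⋊[φ] Q).right, inr_mem_Gs φ S₂ _⟩ := by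
    apply Subtype.ext
    exact (SemidirectProduct.inl_left_mul_inr_right _).symm
  rw [e]
  refine mul_mem h2 (Subgroup.subset_closure (Or.inr ?_))
  change _ ∈ Zs φ S₁ S₂
  exact inr_mem_Gs φ S₁ _

/-- Twisted pull-backs of subsets of the free group. -/
def tw (φ : Q →* MulAut (FreeGroup B)) (S₂ : Set B) (q : Q) (X : Set (FreeGroup B)) :
    Set (Gs φ S₂) := {a | φ q (a : FreeGroup B ⋊[φ] Q).left ∈ X}

theorem mem_tw {φ : Q →* MulAut (FreeGroup B)} {S₂ : Set B} {q : Q} {X : Set (FreeGroup B)}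
    {a : Gs φ S₂} : a ∈ tw φ S₂ q X ↔ φ q (a : FreeGroup B ⋊[φ] Q).left ∈ X := Iff.rfl

theorem bd_tw [Finite Q] (φ : Q →* MulAut (FreeGroup B)) (S₂ : Set B) {T : Set (FreeGroup B)}
    (hTf : T.Finite) (hT : T ⊆ II φ S₂) (N : FreeGroup B → ℕ) :
    ∃ K : ℕ, ∀ (q : Q) (X : Set (FreeGroup B)),
      (∀ g, {m | ¬ (m ∈ X ↔ m * g ∈ X)}.Finite ∧ {m | ¬ (m ∈ X ↔ m * g ∈ X)}.ncard ≤ N g) →
      (bd (gn φ S₂ T hT) (tw φ S₂ q X)).Finite ∧ (bd (gn φ S₂ T hT) (tw φ S₂ q X)).ncard ≤ K := by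
  classical
  have : Fintype Q := Fintype.ofFinite Q
  have : Fintype T := hTf.fintype
  refine ⟨∑ k : Q × T, N (φ k.1 k.2), fun q X hX => ?_⟩
  let S : Q × T → Set (Gs φ S₂ × T) := fun k =>
    {e | φ q (e.1 : FreeGroup B ⋊[φ] Q).left ∈ {m | ¬ (m ∈ X ↔ m * φ k.1 k.2 ∈ X)} ∧
      q * (e.1 : FreeGroup B ⋊[φ] Q).right = k.1 ∧ e.2 = k.2}
  have hmaps : ∀ k, Set.MapsTo (fun e : Gs φ S₂ × T => φ q (e.1 : FreeGroup B ⋊[φ] Q).left) (S k)
      {m | ¬ (m ∈ X ↔ m * φ k.1 k.2 ∈ X)} := fun k e he => he.1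
  have hinj : ∀ k, Set.InjOn (fun e : Gs φ S₂ × T => φ q (e.1 : FreeGroup B ⋊[φ] Q).left)
      (S k) := by
    intro k e he e' he' h
    have h1 : (e.1 : FreeGroup B ⋊[φ] Q).left = (e'.1 : FreeGroup B ⋊[φ] Q).left :=
      (φ q).injective h
    have h2 : (e.1 : FreeGroup B ⋊[φ] Q).right = (e'.1 : FreeGroup B ⋊[φ] Q).right :=
      mul_left_cancel (he.2.1.trans he'.2.1.symm)
    refine Prod.ext (Subtype.ext (SemidirectProduct.ext h1 h2)) (he.2.2.trans he'.2.2.symm)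
  have hSf : ∀ k, (S k).Finite := fun k =>
    Set.Finite.of_injOn (hmaps k) (hinj k) (hX _).1
  have hSc : ∀ k, (S k).ncard ≤ N (φ k.1 k.2) := fun k =>
    (Set.ncard_le_ncard_of_injOn _ (hmaps k) (hinj k) (hX _).1).trans (hX _).2
  have hsub : bd (gn φ S₂ T hT) (tw φ S₂ q X) ⊆ ⋃ k ∈ (Finset.univ : Finset (Q × T)), S k := by
    intro e he
    simp only [Set.mem_iUnion]
    refine ⟨(q * (e.1 : FreeGroup B ⋊[φ] Q).right, e.2), Finset.mem_univ _, ?_, rfl, rfl⟩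
    rw [mem_bd, mem_tw, mem_tw] at he
    have e1 : ((e.1 * gn φ S₂ T hT e.2 : Gs φ S₂) : FreeGroup B ⋊[φ] Q).left =
        (e.1 : FreeGroup B ⋊[φ] Q).left * φ (e.1 : FreeGroup B ⋊[φ] Q).right (e.2 : FreeGroup B) := by
      rw [Subgroup.coe_mul, SemidirectProduct.mul_left]
      rfl
    rw [e1, map_mul] at he
    change ¬ (_ ∈ X ↔ _ * φ (q * _) _ ∈ X)
    rw [map_mul, MulAut.mul_apply]
    exact he
  have hfin : (⋃ k ∈ (Finset.univ : Finset (Q × T)), S k).Finite :=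
    Set.Finite.biUnion (Finset.finite_toSet _) fun k _ => hSf k
  refine ⟨hfin.subset hsub, (Set.ncard_le_ncard hsub hfin).trans ?_⟩
  exact (Finset.set_ncard_biUnion_le _ _).trans (Finset.sum_le_sum fun k _ => hSc k)

theorem pow_inj_of {φ : Q →* MulAut (FreeGroup B)} {S₂ : Set B} {m : Gs φ S₂}
    (hr : (m : FreeGroup B ⋊[φ] Q).right = 1) (hm : m ≠ 1) {k : ℤ} (h : m ^ k = 1) : k = 0 := by
  by_contra hk
  apply hm
  have h1 : (m : FreeGroup B ⋊[φ] Q) = SemidirectProduct.inl (m : FreeGroup B ⋊[φ] Q).left := by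
    refine SemidirectProduct.ext ?_ ?_
    · rw [SemidirectProduct.left_inl]
    · rw [SemidirectProduct.right_inl, hr]
  have h2 : (m : FreeGroup B ⋊[φ] Q).left ^ k = 1 := by
    apply SemidirectProduct.inl_injective (φ := φ)
    rw [map_zpow, ← h1, map_one, ← Subgroup.coe_zpow, h, OneMemClass.coe_one]
  have h3 : (m : FreeGroup B ⋊[φ] Q).left = 1 :=
    (IsMulTorsionFree.zpow_eq_one_iff_left hk).mp h2
  apply Subtype.ext
  rw [h1, h3, map_one]
  rfl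

theorem pow_injective_of {φ : Q →* MulAut (FreeGroup B)} {S₂ : Set B} {m : Gs φ S₂}
    (hr : (m : FreeGroup B ⋊[φ] Q).right = 1) (hm : m ≠ 1) :
    Function.Injective fun k : ℕ => m ^ k := by
  intro j k h
  change m ^ j = m ^ k at h
  have : m ^ ((j : ℤ) - k) = 1 := by
    rw [zpow_sub, zpow_natCast, zpow_natCast, h, mul_inv_cancel]
  have := pow_inj_of hr hm this
  omega

/-- The nested family for a pair. -/
theorem exists_fam [Finite Q] (φ : Q →* MulAut (FreeGroup B)) {S₀ S₁ S₂ : Set B} (h01 : S₀ ⊆ S₁)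
    (h12 : S₁ ⊆ S₂) (hfin : (S₂ \ S₀).Finite) (hc : ∀ q : Q, ∀ x ∈ D S₀, φ q x ∈ D S₀) :
    ∃ E : Set (Set (Gs φ S₂)), NF E ∧ (∀ X ∈ E, ∀ a, tr a X ∈ E) ∧
      (∀ X ∈ E, RInv (Zs φ S₁ S₂) X) ∧ (∀ X ∈ E, ∀ b, {g | ¬ (g ∈ X ↔ g * b ∈ X)}.Finite) ∧
      (∀ X ∈ E, {a | tr a X = X}.Finite) ∧
      (∀ a b, a⁻¹ * b ∉ Zs φ S₁ S₂ → ∃ X ∈ E, a ∈ X ∧ b ∉ X) ∧
      (S₁ = ∅ → ∀ m : Gs φ S₂, (m : FreeGroup B ⋊[φ] Q).right = 1 → m ≠ 1 →
        ∃ X ∈ E, (∃ k₀ : ℕ, ∀ k ≥ k₀, m ^ k ∈ X) ∧ (∃ k₀ : ℕ, ∀ k ≥ k₀, (m⁻¹) ^ k ∉ X)) := by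
  obtain ⟨T, hTf, hT, hle⟩ := fg_rel φ S₀ S₂ (h01.trans h12) hfin hc
  have hgen := gen_top φ h01 h12 hc hT hle
  obtain ⟨N, hN1, hN2⟩ := halves B
  obtain ⟨K, hK⟩ := bd_tw φ S₂ hTf hT N
  obtain ⟨E, hE, hE1, hE2, hE3⟩ := exists_nest (gn φ S₂ T hT) (Zs φ S₁ S₂) hgen K
  refine ⟨E, hE, hE2, fun X hX => (hE1 X hX).1, fun X hX => ai hgen (hE1 X hX).1 (hE1 X hX).2,
    fun X hX => stab_finite hgen (hE1 X hX).1 (hE1 X hX).2 (hE.ne X hX)
      (hE.ne _ (hE.compl X hX)), ?_, ?_⟩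
  · intro a b hab
    rw [mem_Zs] at hab
    -- a twist separating `a` from `b`
    have h1 : ∃ q : Q, (φ q (a : FreeGroup B ⋊[φ] Q).left)⁻¹ * φ q (b : FreeGroup B ⋊[φ] Q).left ∉
        D S₁ := by
      by_contra hcon
      push Not at hcon
      apply hab
      rw [mem_II]
      intro q
      have e : ((a⁻¹ * b : Gs φ S₂) : FreeGroup B ⋊[φ] Q).left =
          φ (a : FreeGroup B ⋊[φ] Q).right⁻¹ ((a : FreeGroup B ⋊[φ] Q).left⁻¹ *
            (b : FreeGroup B ⋊[φ] Q).left) := by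
        rw [Subgroup.coe_mul, Subgroup.coe_inv, SemidirectProduct.mul_left,
          SemidirectProduct.inv_left, SemidirectProduct.inv_right, map_mul]
      have h2 := hcon (q * (a : FreeGroup B ⋊[φ] Q).right⁻¹)
      rw [e, ← MulAut.mul_apply, ← map_mul, map_mul (φ (q * _)), map_inv (φ (q * _))]
      exact h2
    obtain ⟨q, hq⟩ := h1
    obtain ⟨X, hx, hy, hinv, hbd⟩ := hN1 S₁ _ _ hq
    have h2 := hK q X hbd
    obtain ⟨Y, hY, hY1, hY2⟩ := hE3 _ _ (uf_pt (gen := gn φ S₂ T hT) (Zs φ S₁ S₂) a)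
      (uf_pt (gen := gn φ S₂ T hT) (Zs φ S₁ S₂) b) (tw φ S₂ q X) (by
        intro g z hz
        rw [mem_tw, mem_tw, Subgroup.coe_mul, SemidirectProduct.mul_left, map_mul]
        apply hinv
        rw [← MulAut.mul_apply, ← map_mul]
        exact (mem_Zs.mp hz) _) h2.1 h2.2 hx hy
    exact ⟨Y, hY, hY1, hY2⟩
  · rintro rfl m hr hm
    have hml : (m : FreeGroup B ⋊[φ] Q).left ≠ 1 := by
      intro h
      apply hm
      apply Subtype.ext
      exact SemidirectProduct.ext h hr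
    have hmi : (m : FreeGroup B ⋊[φ] Q) = SemidirectProduct.inl (m : FreeGroup B ⋊[φ] Q).left := by
      refine SemidirectProduct.ext ?_ ?_
      · rw [SemidirectProduct.left_inl]
      · rw [SemidirectProduct.right_inl, hr]
    obtain ⟨X, h1, h2, hbd⟩ := hN2 _ hml
    have h3 := hK 1 X hbd
    have hpow : ∀ k : ℕ, ((m ^ k : Gs φ S₂) : FreeGroup B ⋊[φ] Q).left =
        (m : FreeGroup B ⋊[φ] Q).left ^ k := by
      intro k
      rw [Subgroup.coe_pow]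
      conv_lhs => rw [hmi]
      rw [← map_pow, SemidirectProduct.left_inl]
    have hpow' : ∀ k : ℕ, (((m⁻¹) ^ k : Gs φ S₂) : FreeGroup B ⋊[φ] Q).left =
        ((m : FreeGroup B ⋊[φ] Q).left⁻¹) ^ k := by
      intro k
      rw [Subgroup.coe_pow, Subgroup.coe_inv]
      conv_lhs => rw [hmi]
      rw [← map_inv, ← map_pow, SemidirectProduct.left_inl]
    have i1 := pow_injective_of hr hm
    have i2 : Function.Injective fun k : ℕ => (m⁻¹) ^ k := by
      intro j k h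
      apply i1
      simpa using h
    have u1 := uf_end hgen i1
    have u2 := uf_end hgen i2
    have hR : RInv (Zs φ ∅ S₂) (tw φ S₂ 1 X) := by
      intro g z hz
      have hz1 : (z : FreeGroup B ⋊[φ] Q).left = 1 := by
        have h4 := II_le_D φ ∅ (mem_Zs.mp hz)
        unfold D at h4
        rwa [Set.image_empty, Subgroup.closure_empty, Subgroup.mem_bot] at h4
      rw [mem_tw, mem_tw, Subgroup.coe_mul, SemidirectProduct.mul_left, hz1,
        map_one (φ (g : FreeGroup B ⋊[φ] Q).right), mul_one]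
    obtain ⟨Y, hY, hY1, hY2⟩ := hE3 _ _ u1 u2 (tw φ S₂ 1 X) hR h3.1 h3.2 (by
        obtain ⟨k₀, hk⟩ := h1
        refine ⟨k₀, fun k hkk => ?_⟩
        rw [mem_tw, hpow, map_one, MulAut.one_apply]
        exact hk k hkk) (by
        rintro ⟨k₁, hk₁⟩
        obtain ⟨k₀, hk⟩ := h2
        have h5 := hk₁ (max k₀ k₁) (le_max_right _ _)
        rw [mem_tw, hpow', map_one, MulAut.one_apply] at h5
        exact hk _ (le_max_left _ _) h5)
    refine ⟨Y, hY, hY1, ?_⟩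
    have h6 := (u2.compl Y (hE1 Y hY).1 (hE1 Y hY).2).mpr hY2
    exact h6

end Pool.Agent.N816.LR
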