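import Pool.Agent.N816.LR.Ext

set_option autoImplicit false
set_option linter.unusedSectionVars false

/-!
# Vertices of the structure tree have trivial stabilisers if the ends are separated
-/

namespace Pool.Agent.N816.LR

theorem Rl.trans' {V : Type} {E : Set (Set V)} {X Y W : Set V} (hE : NF E) (hX : X ∈ E)
    (hY : Y ∈ E) (hW : W ∈ E) (h1 : Rl E X Y) (h2 : Rl E Y W) : Rl E X W := by
  have h1' := h1.symm' hE
  rcases h1 with rfl | ⟨a1, a2⟩
  · exact h2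
  rcases h2 with rfl | ⟨b1, b2⟩
  · exact Or.inr ⟨a1, a2⟩
  rcases h1' with rfl | ⟨c1, c2⟩
  · exact Or.inr ⟨b1, b2⟩
  -- `Yᶜ ⊂ X` covering, `Yᶜ ⊂ W` covering
  obtain ⟨y, hy⟩ := hE.ne _ (hE.compl Y hY)
  obtain ⟨x, hx⟩ := hE.ne _ (hE.compl X hX)
  obtain ⟨t, ht⟩ := hE.ne _ (hE.compl W hW)
  rcases hE.nested X hX W hW with h | h | h | h
  · left
    by_contra hne
    exact b2 X hX c1 (Set.ssubset_iff_subset_ne.mpr ⟨h, hne⟩)
  · left
    by_contra hne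
    exact c2 W hW b1 (Set.ssubset_iff_subset_ne.mpr ⟨h, fun hc => hne hc.symm⟩)
  · exact absurd (b1.1 hy) (h (c1.1 hy))
  · right
    refine ⟨⟨h, fun hc => hc (b1.1 hy) (c1.1 hy)⟩, fun F hF f1 f2 => ?_⟩
    rcases hE.nested F hF Y hY with h3 | h3 | h3 | h3
    · by_cases hFY : F = Y
      · subst hFY
        by_cases htF : t ∈ F
        · exact ht (f2.1 htF)
        · exact ht (b1.1 htF)
      · exact a2 F hF f1 (Set.ssubset_iff_subset_ne.mpr ⟨h3, hFY⟩)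
    · by_cases htY : t ∈ Y
      · exact ht (f2.1 (h3 htY))
      · exact ht (b1.1 htY)
    · exact h3 (f1.1 hx) (a1.1 hx)
    · have h4 : Yᶜ ⊆ F := fun z hz => by_contra fun hzF => hz (h3 hzF)
      by_cases hFY : Yᶜ = F
      · rw [← hFY] at f1
        exact f1.1 hx (a1.1 hx)
      · exact b2 F hF (Set.ssubset_iff_subset_ne.mpr ⟨h4, hFY⟩) f2

variable {A : Type} [Group A] {E : Set (Set A)}

theorem star (hE : NF E) (ht : ∀ X ∈ E, ∀ a, tr a X ∈ E) (m : A)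
    (hst : ∀ X ∈ E, ∀ k : ℤ, tr (m ^ k) X = X → k = 0)
    (hends : ∃ X ∈ E, (∃ k₀ : ℕ, ∀ k ≥ k₀, m ^ k ∈ X) ∧ (∃ k₀ : ℕ, ∀ k ≥ k₀, (m⁻¹) ^ k ∉ X) ∧
      ∀ b, {g | ¬ (g ∈ X ↔ g * b ∈ X)}.Finite) {C : Set A} (hC : C ∈ E) :
    ¬ Rl E C (tr m C) := by
  intro hr
  obtain ⟨X, hX, ⟨k₁, hk₁⟩, ⟨k₂, hk₂⟩, hai⟩ := hends
  have hinj : Function.Injective (fun k : ℤ => m ^ k) := by
    intro j k h
    have h1 : m ^ (j - k) = 1 := by
      rw [zpow_sub]
      change m ^ j = m ^ k at h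
      rw [h, mul_inv_cancel]
    have := hst C hC (j - k) (by rw [h1, tr_one])
    omega
  -- the translates of the complement of `C`
  let B : ℤ → Set A := fun k => tr (m ^ k) Cᶜ
  have hBE : ∀ k, B k ∈ E := fun k => ht _ (hE.compl C hC) _
  have hB1 : ∀ k g, g ∈ B k → m * g ∈ B (k + 1) := by
    intro k g hg
    change (m ^ (k + 1))⁻¹ * (m * g) ∈ Cᶜ
    change (m ^ k)⁻¹ * g ∈ Cᶜ at hg
    have e : (m ^ (k + 1))⁻¹ * (m * g) = (m ^ k)⁻¹ * g := by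
      rw [add_comm, zpow_add, zpow_one]
      group
    rwa [e]
  have hrl : ∀ k : ℕ, Rl E C (tr (m ^ (k : ℤ)) C) := by
    intro k
    induction k with
    | zero => left; simp [tr_one]
    | succ k ih =>
      have h1 := hr.tr ht (m ^ (k : ℤ))
      rw [tr_tr] at h1
      have e : m ^ (k : ℤ) * m = m ^ ((k + 1 : ℕ) : ℤ) := by
        push_cast
        rw [zpow_add, zpow_one]
      rw [e] at h1
      exact ih.trans' hE hC (ht _ hC _) (ht _ hC _) h1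
  have hdis0 : ∀ k : ℕ, 0 < k → ∀ g, g ∈ Cᶜ → g ∈ tr (m ^ (k : ℤ)) C := by
    intro k hk g hg
    rcases hrl k with h | h
    · have := hst C hC k h.symm
      omega
    · exact h.1.1 hg
  have hdis : ∀ j k : ℤ, j < k → ∀ g, g ∈ B j → g ∈ B k → False := by
    intro j k hjk g h1 h2
    obtain ⟨n, rfl⟩ : ∃ n : ℕ, k = j + n := ⟨(k - j).toNat, by omega⟩
    change (m ^ j)⁻¹ * g ∈ Cᶜ at h1
    change (m ^ (j + n))⁻¹ * g ∈ Cᶜ at h2
    have h3 := hdis0 n (by omega) _ h1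
    change (m ^ (n : ℤ))⁻¹ * ((m ^ j)⁻¹ * g) ∈ C at h3
    have e : (m ^ (j + n))⁻¹ * g = (m ^ (n : ℤ))⁻¹ * ((m ^ j)⁻¹ * g) := by
      rw [zpow_add, mul_inv_rev, mul_assoc]
    rw [e] at h2
    exact h2 h3
  -- the ends of `m` are in none of the `B k`
  have hpos : ∀ k, ¬ ∃ i₀ : ℕ, ∀ i ≥ i₀, m ^ i ∈ B k := by
    rintro k ⟨i₀, hi⟩
    refine hdis k (k + 1) (by omega) (m ^ (i₀ + 1)) (hi _ (by omega)) ?_
    have := hB1 k _ (hi i₀ le_rfl)
    rwa [← pow_succ'] at this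
  have hneg : ∀ k, ¬ ∃ i₀ : ℕ, ∀ i ≥ i₀, (m⁻¹) ^ i ∈ B k := by
    rintro k ⟨i₀, hi⟩
    refine hdis k (k + 1) (by omega) ((m⁻¹) ^ i₀) (hi _ le_rfl) ?_
    have := hB1 k _ (hi (i₀ + 1) (by omega))
    rwa [pow_succ', mul_inv_cancel_left] at this
  have hdich : ∀ k, B k ⊆ X ∨ B k ⊆ Xᶜ := by
    intro k
    rcases hE.nested X hX (B k) (hBE k) with h | h | h | h
    · exact absurd ⟨k₁, fun i hi => h (hk₁ i hi)⟩ (hpos k)
    · exact Or.inl h
    · exact Or.inr fun g hg hgX => h hgX hg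
    · exact absurd ⟨k₂, fun i hi => h (hk₂ i hi)⟩ (hneg k)
  obtain ⟨b, hb⟩ := hE.ne _ (hE.compl C hC)
  have hbk : ∀ k : ℤ, m ^ k * b ∈ B k := by
    intro k
    change (m ^ k)⁻¹ * (m ^ k * b) ∈ Cᶜ
    rwa [inv_mul_cancel_left]
  have hfin : {k : ℤ | ¬ (m ^ k ∈ X ↔ m ^ k * b ∈ X)}.Finite :=
    (hai b).preimage hinj.injOn
  obtain ⟨N, hN⟩ : ∃ N : ℕ, ∀ k ∈ {k : ℤ | ¬ (m ^ k ∈ X ↔ m ^ k * b ∈ X)}, |k| < N := by
    obtain ⟨M, hM⟩ := (hfin.image fun k => |k|).bddAbove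
    refine ⟨(M + 1).toNat, fun k hk => ?_⟩
    have h1 : |k| ≤ M := hM ⟨k, hk, rfl⟩
    omega
  have hbig : ∀ k : ℤ, (max N k₁ : ℕ) ≤ k → B k ⊆ X := by
    intro k hk
    rcases hdich k with h | h
    · exact h
    · exfalso
      have h1 : m ^ k ∈ X := by
        obtain ⟨n, rfl⟩ : ∃ n : ℕ, k = n := ⟨k.toNat, by omega⟩
        rw [zpow_natCast]
        exact hk₁ n (by omega)
      have h2 : m ^ k ∈ X ↔ m ^ k * b ∈ X := by
        by_contra hc
        have h3 := hN k hc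
        rw [abs_of_nonneg (by omega)] at h3
        omega
      exact h (hbk k) (h2.mp h1)
  have hsmall : ∀ k : ℤ, (max N k₂ : ℕ) ≤ -k → B k ⊆ Xᶜ := by
    intro k hk
    rcases hdich k with h | h
    · exfalso
      have h1 : m ^ k ∉ X := by
        obtain ⟨n, hn⟩ : ∃ n : ℕ, k = -n := ⟨(-k).toNat, by omega⟩
        rw [hn, zpow_neg, zpow_natCast, ← inv_pow]
        exact hk₂ n (by omega)
      have h2 : m ^ k ∈ X ↔ m ^ k * b ∈ X := by
        by_contra hc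
        have h3 := hN k hc
        rw [abs_of_nonpos (by omega)] at h3
        omega
      exact h1 (h2.mpr (h (hbk k)))
    · exact h
  -- a jump
  obtain ⟨k, hk1, hk2⟩ : ∃ k : ℤ, B k ⊆ Xᶜ ∧ B (k + 1) ⊆ X := by
    by_contra hc
    push_neg at hc
    have h0 : ∀ n : ℕ, B (-(max N k₂ : ℕ) + n) ⊆ Xᶜ := by
      intro n
      induction n with
      | zero => exact hsmall _ (by omega)
      | succ n ih =>
        have h1 := hc _ ih
        rcases hdich (-(max N k₂ : ℕ) + n + 1) with h2 | h2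
        · exact absurd h2 h1
        · have e : (-(max N k₂ : ℕ) + (n + 1 : ℕ) : ℤ) = -(max N k₂ : ℕ) + n + 1 := by
            push_cast; ring
          rw [e]
          exact h2
    have h1 := h0 ((max N k₂ : ℕ) + (max N k₁ : ℕ))
    have h2 := hbig (-(max N k₂ : ℕ) + ((max N k₂ : ℕ) + (max N k₁ : ℕ) : ℕ)) (by push_cast; omega)
    have h3 := hbk (-(max N k₂ : ℕ) + ((max N k₂ : ℕ) + (max N k₁ : ℕ) : ℕ))
    exact h1 h3 (h2 h3)
  have hr2 : Rl E (tr (m ^ (k + 1)) C) (tr (m ^ k) C) := by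
    have h1 := (hr.symm' hE).tr ht (m ^ k)
    rw [tr_tr] at h1
    rwa [zpow_add, zpow_one]
  have hXk : X ⊆ tr (m ^ k) C := by
    intro g hg
    by_contra hc
    exact hk1 (show g ∈ B k from hc) hg
  rcases hr2 with h | h
  · have e : tr (m ^ (1 : ℤ)) C = C := by
      have h1 := congrArg (tr (m ^ k)⁻¹) h
      rw [tr_tr, tr_tr, inv_mul_cancel, tr_one, zpow_add, inv_mul_cancel_left] at h1
      exact h1
    have := hst C hC 1 e
    omega
  · by_cases h1 : B (k + 1) = X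
    · exact hpos (k + 1) ⟨k₁, fun i hi => by rw [h1]; exact hk₁ i hi⟩
    · by_cases h2 : X = tr (m ^ k) C
      · refine hneg k ⟨k₂, fun i hi => ?_⟩
        have h3 := hk₂ i hi
        rw [h2] at h3
        exact h3
      · exact h.2 X hX (Set.ssubset_iff_subset_ne.mpr ⟨hk2, h1⟩)
          (Set.ssubset_iff_subset_ne.mpr ⟨hXk, h2⟩)

end Pool.Agent.N816.LR
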