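import Pool.Agent.N816.LR.Pair

set_option autoImplicit false
set_option linter.unusedSectionVars false

/-!
# The two steps: embedding of `Gs φ S` for finite `S`, and relative extension
-/

namespace Pool.Agent.N816.LR

variable {B Q : Type} [Group Q]

/-- Relative extension step. -/
theorem ext_step [Finite Q] (φ : Q →* MulAut (FreeGroup B)) {L : Type} [MulAction Q L]
    {S₀ S₁ S₂ : Set B} (h01 : S₀ ⊆ S₁) (h12 : S₁ ⊆ S₂) (hfin : (S₂ \ S₀).Finite)
    (hc : ∀ q : Q, ∀ x ∈ D S₀, φ q x ∈ D S₀) (f : Gs φ S₁ →* FreeGroup L ⋊[pa Q L] Q)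
    (hf : ∀ g, (f g).right = (g : FreeGroup B ⋊[φ] Q).right) :
    ∃ f₂ : Gs φ S₂ →* FreeGroup L ⋊[pa Q L] Q,
      (∀ g (h1 : g ∈ Gs φ S₁) (h2 : g ∈ Gs φ S₂), f₂ ⟨g, h2⟩ = f ⟨g, h1⟩) ∧
      ∀ g, (f₂ g).right = (g : FreeGroup B ⋊[φ] Q).right := by
  obtain ⟨E, hE, ht, hZ, -, hstab, hsep, -⟩ := exists_fam φ h01 h12 hfin hc
  let w : Gs φ S₂ →* FreeGroup L ⋊[pa Q L] Q :=
    (SemidirectProduct.inr.comp SemidirectProduct.rightHom).comp (Gs φ S₂).subtype
  have hw : ∀ a : Gs φ S₂, w a = SemidirectProduct.inr (a : FreeGroup B ⋊[φ] Q).right :=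
    fun a => rfl
  let f' : Zs φ S₁ S₂ →* FreeGroup L ⋊[pa Q L] Q :=
    { toFun := fun z => f ⟨(z : Gs φ S₂), z.2⟩
      map_one' := map_one f
      map_mul' := fun a b => map_mul f ⟨(a : Gs φ S₂), a.2⟩ ⟨(b : Gs φ S₂), b.2⟩ }
  have hf' : ∀ z : Zs φ S₁ S₂, (f' z).right = ((z : Gs φ S₂) : FreeGroup B ⋊[φ] Q).right :=
    fun z => hf _
  obtain ⟨f₂, e1, e2⟩ := extend (SemidirectProduct.rightHom : FreeGroup L ⋊[pa Q L] Q →* Q)
    (Zs φ S₁ S₂) w f' (fun z => by
      rw [hw, SemidirectProduct.rightHom_inr]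
      exact hf' z) hE ht hZ hsep (by
    intro X hX
    let F : Subgroup (Zs φ S₁ S₂) :=
      { carrier := {z | tr (z : Gs φ S₂) X = X}
        mul_mem' := fun {a b} ha hb => by
          change tr ((a * b : Zs φ S₁ S₂) : Gs φ S₂) X = X
          change tr (a : Gs φ S₂) X = X at ha
          change tr (b : Gs φ S₂) X = X at hb
          rw [Subgroup.coe_mul, ← tr_tr, hb, ha]
        one_mem' := by
          change tr ((1 : Zs φ S₁ S₂) : Gs φ S₂) X = X
          rw [OneMemClass.coe_one, tr_one]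
        inv_mem' := fun {a} ha => by
          change tr ((a⁻¹ : Zs φ S₁ S₂) : Gs φ S₂) X = X
          change tr (a : Gs φ S₂) X = X at ha
          have h1 := congrArg (tr (a : Gs φ S₂)⁻¹) ha
          rw [tr_tr, inv_mul_cancel, tr_one] at h1
          rw [Subgroup.coe_inv]
          exact h1.symm }
    have hF : Finite F := by
      have h1 := hstab X hX.1
      have h2 : (F : Set (Zs φ S₁ S₂)).Finite := by
        refine Set.Finite.of_injOn (f := fun z : Zs φ S₁ S₂ => (z : Gs φ S₂))
          (t := {a | tr a X = X}) (fun z hz => hz) ?_ h1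
        intro a _ b _ h
        exact Subtype.ext h
      exact h2.to_subtype
    obtain ⟨u, hu⟩ := fp (f'.comp F.subtype)
    refine ⟨SemidirectProduct.inl u, by simp, fun z hz => ?_⟩
    have h1 := hu ⟨z, hz⟩
    change f' z = SemidirectProduct.inl u * SemidirectProduct.inr (f' z).right *
      (SemidirectProduct.inl u)⁻¹ at h1
    rw [hf'] at h1
    exact h1)
  refine ⟨f₂, fun g h1 h2 => e1 ⟨⟨g, h2⟩, h1⟩, fun g => ?_⟩
  have := e2 g
  rw [hw, SemidirectProduct.rightHom_inr] at this
  exact this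

/-- Embedding of `Gs φ S` for finite `S`. -/
theorem abs_step [Finite Q] (φ : Q →* MulAut (FreeGroup B)) {S : Set B} (hS : S.Finite) :
    ∃ (L : Type) (_ : MulAction Q L) (f : Gs φ S →* FreeGroup L ⋊[pa Q L] Q),
      Function.Injective f ∧ ∀ g, (f g).right = (g : FreeGroup B ⋊[φ] Q).right := by
  let π : Gs φ S →* Q := SemidirectProduct.rightHom.comp (Gs φ S).subtype
  have hπ : ∀ a : Gs φ S, π a = (a : FreeGroup B ⋊[φ] Q).right := fun a => rfl
  let σ : Q →* Gs φ S :=
    { toFun := fun q => ⟨SemidirectProduct.inr q, inr_mem_Gs φ S q⟩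
      map_one' := Subtype.ext (map_one _)
      map_mul' := fun a b => Subtype.ext (map_mul _ a b) }
  have hσ : ∀ q, π (σ q) = q := fun q => by
    change (SemidirectProduct.inr q : FreeGroup B ⋊[φ] Q).right = q
    exact SemidirectProduct.right_inr q
  obtain ⟨E, hE, ht, hZ, hai, hstab, hsep, hends⟩ := exists_fam φ (S₀ := ∅) (S₁ := ∅) (S₂ := S)
    subset_rfl (Set.empty_subset _) (by simpa using hS) (by
      intro q x hx
      unfold D at hx ⊢
      rw [Set.image_empty, Subgroup.closure_empty, Subgroup.mem_bot] at hx ⊢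
      rw [hx, map_one])
  by_cases htriv : ∀ m : Gs φ S, π m = 1 → m = 1
  · -- the kernel is trivial
    let _ : MulAction Q Empty :=
      { smul := fun _ e => e.elim
        one_smul := fun e => e.elim
        mul_smul := fun _ _ e => e.elim }
    refine ⟨Empty, inferInstance, SemidirectProduct.inr.comp π, ?_, fun g => ?_⟩
    · rw [injective_iff_map_eq_one]
      intro a ha
      apply htriv
      have h1 := congrArg SemidirectProduct.right ha
      exact h1
    · exact SemidirectProduct.right_inr _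
  · push Not at htriv
    obtain ⟨m₀, hm₀, hm₀'⟩ := htriv
    have hne : E.Nonempty := by
      obtain ⟨X, hX, -⟩ := hends rfl m₀ hm₀ hm₀'
      exact ⟨X, hX⟩
    obtain ⟨L, inst, f, h1, h2⟩ := abs_embed π σ hσ hE ht hne (by
      intro m hm h
      by_contra hne
      have h3 := pow_inj_of (k := 2) hm hne (by
        rw [zpow_ofNat, pow_two]
        exact h)
      omega) (by
      intro m hm hm1 X hX
      obtain ⟨Y, hY, hY1, hY2⟩ := hends rfl m hm hm1
      refine star hE ht m ?_ ⟨Y, hY, hY1, hY2, hai Y hY⟩ hX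
      intro W hW k hk
      by_contra hk0
      have h3 : ∀ j : ℤ, tr ((m ^ k) ^ j) W = W := by
        have hpos : ∀ j : ℕ, tr ((m ^ k) ^ j) W = W := by
          intro j
          induction j with
          | zero => rw [pow_zero, tr_one]
          | succ j ih => rw [pow_succ, ← tr_tr, hk, ih]
        intro j
        rcases Int.eq_nat_or_neg j with ⟨n, rfl | rfl⟩
        · rw [zpow_natCast]
          exact hpos n
        · have h4 := congrArg (tr ((m ^ k) ^ (-(n : ℤ)))) (hpos n)
          rw [tr_tr, ← zpow_natCast, ← zpow_add, neg_add_cancel, zpow_zero, tr_one] at h4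
          exact h4.symm
      have hinj : Function.Injective fun j : ℤ => (m ^ k) ^ j := by
        intro i j h
        change (m ^ k) ^ i = (m ^ k) ^ j at h
        rw [← zpow_mul, ← zpow_mul] at h
        have h5 : m ^ (k * i - k * j) = 1 := by
          rw [zpow_sub, h, mul_inv_cancel]
        have h6 := pow_inj_of hm hm1 h5
        have h7 : k * (i - j) = 0 := by rw [mul_sub]; exact h6
        rcases mul_eq_zero.mp h7 with h8 | h8
        · exact absurd h8 hk0
        · omega
      exact (Set.infinite_range_of_injective hinj) ((hstab W hW).subset (by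
        rintro _ ⟨j, rfl⟩
        exact h3 j)))
    exact ⟨L, inst, f, h1, h2⟩

end Pool.Agent.N816.LR
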